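import Pool.Agent.Lib.FK640.Graphs

/-!
# Fomin-Kirillov algebras and their skew derivations

The Fomin-Kirillov algebra `FK n` over `ℚ`, the subalgebras `EG G` attached to graphs, and the
skew derivations `D_c` (packaged as an action `PsiHom` of `FK n` on `FK n × (pairs → FK n)`).
-/

set_option autoImplicit false

namespace Pool.Agent.Lib.FK640

/-- Working copy of the Fomin-Kirillov algebra `E_n` over `ℚ` (with sealed instances). -/
def FK (n : ℕ) : Type := RingQuot (Rel n)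

noncomputable instance (n : ℕ) : Ring (FK n) := inferInstanceAs (Ring (RingQuot (Rel n)))

noncomputable instance (n : ℕ) : Algebra ℚ (FK n) :=
  inferInstanceAs (Algebra ℚ (RingQuot (Rel n)))

/-- The quotient map from the free algebra. -/
noncomputable def toFK (n : ℕ) : FreeAlgebra ℚ (Pair n) →ₐ[ℚ] FK n :=
  RingQuot.mkAlgHom ℚ (Rel n)

lemma toFK_rel {n : ℕ} {a b : FreeAlgebra ℚ (Pair n)} (h : Rel n a b) : toFK n a = toFK n b :=
  RingQuot.mkAlgHom_rel ℚ h

/-- The universal property of the Fomin-Kirillov algebra. -/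
noncomputable def liftFK {n : ℕ} {A : Type} [Semiring A] [Algebra ℚ A]
    (f : FreeAlgebra ℚ (Pair n) →ₐ[ℚ] A) (hf : ∀ a b, Rel n a b → f a = f b) : FK n →ₐ[ℚ] A :=
  RingQuot.liftAlgHom ℚ ⟨f, fun {a b} h => hf a b h⟩

lemma liftFK_toFK {n : ℕ} {A : Type} [Semiring A] [Algebra ℚ A]
    (f : FreeAlgebra ℚ (Pair n) →ₐ[ℚ] A) (hf : ∀ a b, Rel n a b → f a = f b)
    (a : FreeAlgebra ℚ (Pair n)) : liftFK f hf (toFK n a) = f a :=
  RingQuot.liftAlgHom_mkAlgHom_apply ℚ f _ a

/-- The generator `x_{ij}` of the Fomin-Kirillov algebra. -/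
noncomputable def x {n : ℕ} (i j : Fin n) (h : i ≠ j) : FK n := toFK n (gen i j h)

/-- The subalgebra `E_G` generated by the `x_{ij}` with `ij` an edge of `G`. -/
noncomputable def EG {n : ℕ} (G : SimpleGraph (Fin n)) : Subalgebra ℚ (FK n) :=
  Algebra.adjoin ℚ {y | ∃ i j, ∃ h : G.Adj i j, y = x i j h.ne}

/-- Comparison of `FKAlg n` with the working copy. -/
noncomputable def cmpFK (n : ℕ) : FKAlg n →ₐ[ℚ] FK n :=
  RingQuot.liftAlgHom ℚ ⟨toFK n, fun {_ _} h => toFK_rel h⟩

lemma cmpFK_xgen {n : ℕ} (i j : Fin n) (h : i ≠ j) : cmpFK n (xgen i j h) = x i j h :=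
  RingQuot.liftAlgHom_mkAlgHom_apply ℚ (toFK n) _ _

/-- Comparison of the working copy with `FKAlg n`. -/
noncomputable def cmpFK' (n : ℕ) : FK n →ₐ[ℚ] FKAlg n :=
  liftFK (RingQuot.mkAlgHom ℚ (Rel n)) fun _ _ h => RingQuot.mkAlgHom_rel ℚ h

lemma cmpFK'_x {n : ℕ} (i j : Fin n) (h : i ≠ j) : cmpFK' n (x i j h) = xgen i j h :=
  liftFK_toFK _ _ _

lemma map_subE {n : ℕ} (G : SimpleGraph (Fin n)) : (subE G).map (cmpFK n) = EG G := by
  rw [subE, EG, AlgHom.map_adjoin]
  congr 1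
  ext y
  constructor
  · rintro ⟨z, ⟨i, j, h, rfl⟩, rfl⟩
    exact ⟨i, j, h, cmpFK_xgen i j h.ne⟩
  · rintro ⟨i, j, h, rfl⟩
    exact ⟨_, ⟨i, j, h, rfl⟩, cmpFK_xgen i j h.ne⟩

lemma map_EG {n : ℕ} (G : SimpleGraph (Fin n)) : (EG G).map (cmpFK' n) = subE G := by
  rw [subE, EG, AlgHom.map_adjoin]
  congr 1
  ext y
  constructor
  · rintro ⟨z, ⟨i, j, h, rfl⟩, rfl⟩
    exact ⟨i, j, h, cmpFK'_x i j h.ne⟩
  · rintro ⟨i, j, h, rfl⟩
    exact ⟨_, ⟨i, j, h, rfl⟩, cmpFK'_x i j h.ne⟩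

/-- `subE G` and `EG G` are finite-dimensional simultaneously. -/
theorem finite_subE_iff {n : ℕ} (G : SimpleGraph (Fin n)) :
    Module.Finite ℚ (subE G) ↔ Module.Finite ℚ (EG G) := by
  constructor
  · intro h
    rw [← map_subE G]
    exact Module.Finite.of_surjective
      (((cmpFK n).comp (subE G).val).codRestrict ((subE G).map (cmpFK n))
        fun y => ⟨y.1, y.2, rfl⟩).toLinearMap (by
        rintro ⟨_, y, hy, rfl⟩
        exact ⟨⟨y, hy⟩, rfl⟩)
  · intro h
    rw [← map_EG G]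
    exact Module.Finite.of_surjective
      (((cmpFK' n).comp (EG G).val).codRestrict ((EG G).map (cmpFK' n))
        fun y => ⟨y.1, y.2, rfl⟩).toLinearMap (by
        rintro ⟨_, y, hy, rfl⟩
        exact ⟨⟨y, hy⟩, rfl⟩)

/-- `x_{ij}` extended by `x_{ii} = 0`. -/
noncomputable def X {n : ℕ} (b : Fin n × Fin n) : FK n :=
  if h : b.1 ≠ b.2 then x b.1 b.2 h else 0

lemma X_of_ne {n : ℕ} {i j : Fin n} (h : i ≠ j) : X (i, j) = x i j h := by
  simp [X, h]

lemma X_anti {n : ℕ} (i j : Fin n) : X (j, i) = -X (i, j) := by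
  by_cases h : i = j
  · subst h; simp [X]
  · rw [X_of_ne h, X_of_ne (Ne.symm h), x, x, toFK_rel (Rel.anti i j h), map_neg]

lemma X_sq {n : ℕ} (b : Fin n × Fin n) : X b * X b = 0 := by
  obtain ⟨i, j⟩ := b
  by_cases h : i = j
  · subst h; simp [X]
  · rw [X_of_ne h, x, ← map_mul, toFK_rel (Rel.sq i j h), map_zero]

lemma X_comm {n : ℕ} (i j k l : Fin n) (hij : i ≠ j) (hkl : k ≠ l) (hik : i ≠ k) (hil : i ≠ l)
    (hjk : j ≠ k) (hjl : j ≠ l) : X (i, j) * X (k, l) = X (k, l) * X (i, j) := by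
  rw [X_of_ne hij, X_of_ne hkl, x, x, ← map_mul, ← map_mul,
    toFK_rel (Rel.comm i j k l hij hkl hik hil hjk hjl)]

lemma X_tri {n : ℕ} (i j k : Fin n) (hij : i ≠ j) (hjk : j ≠ k) (hki : k ≠ i) :
    X (i, j) * X (j, k) + X (j, k) * X (k, i) + X (k, i) * X (i, j) = 0 := by
  rw [X_of_ne hij, X_of_ne hjk, X_of_ne hki, x, x, x, ← map_mul, ← map_mul, ← map_mul,
    ← map_add, ← map_add, toFK_rel (Rel.tri i j k hij hjk hki), map_zero]

/-- The transposition `b` acting on pairs. -/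
def pm {n : ℕ} (b c : Fin n × Fin n) : Fin n × Fin n :=
  (Equiv.swap b.1 b.2 c.1, Equiv.swap b.1 b.2 c.2)

/-- Signed Kronecker delta on oriented pairs. -/
def dl {n : ℕ} (c b : Fin n × Fin n) : ℚ :=
  (if c = b then 1 else 0) - (if c = (b.2, b.1) then 1 else 0)

lemma pm_pm {n : ℕ} (b c : Fin n × Fin n) : pm b (pm b c) = c := by
  simp [pm]

lemma dl_pm {n : ℕ} (b b' c : Fin n × Fin n) : dl (pm b c) b' = dl c (pm b b') := by
  have h1 : pm b c = b' ↔ c = pm b b' := by
    constructor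
    · rintro rfl; rw [pm_pm]
    · rintro rfl; rw [pm_pm]
  have h2 : pm b c = (b'.2, b'.1) ↔ c = ((pm b b').2, (pm b b').1) := by
    have : ((pm b b').2, (pm b b').1) = pm b (b'.2, b'.1) := rfl
    rw [this]
    constructor
    · rintro h; rw [← h, pm_pm]
    · rintro rfl; rw [pm_pm]
  simp only [dl, h1, h2]

lemma dl_rev {n : ℕ} (c : Fin n × Fin n) (i j : Fin n) : dl c (j, i) = -dl c (i, j) := by
  simp [dl]

lemma dl_sq {n : ℕ} (b c : Fin n × Fin n) : dl (pm b c) b = -dl c b := by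
  obtain ⟨i, j⟩ := b
  rw [dl_pm]
  have : pm (i, j) (i, j) = (j, i) := by simp [pm]
  rw [this, dl_rev]

/-- Left multiplication by `x_b` together with its effect on skew derivatives. -/
noncomputable def psi {n : ℕ} (b : Fin n × Fin n) :
    Module.End ℚ (FK n × (Fin n × Fin n → FK n)) :=
  LinearMap.prod (LinearMap.mulLeft ℚ (X b) ∘ₗ LinearMap.fst ℚ _ _)
    (LinearMap.pi fun c => dl c b • LinearMap.fst ℚ _ _ +
      LinearMap.mulLeft ℚ (X b) ∘ₗ LinearMap.proj (pm b c) ∘ₗ LinearMap.snd ℚ _ _)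

lemma psi_apply {n : ℕ} (b : Fin n × Fin n) (w : FK n) (D : Fin n × Fin n → FK n) :
    psi b (w, D) = (X b * w, fun c => dl c b • w + X b * D (pm b c)) := by
  rfl

lemma psi_anti {n : ℕ} (i j : Fin n) : psi (j, i) = -psi (i, j) := by
  apply LinearMap.ext
  rintro ⟨w, D⟩
  rw [LinearMap.neg_apply, psi_apply, psi_apply]
  ext c
  · simp [X_anti i j]
  · have h : pm (j, i) c = pm (i, j) c := by simp [pm, Equiv.swap_comm j i]
    simp [X_anti i j, dl_rev c i j, h]
    abel

lemma psi_sq {n : ℕ} (b : Fin n × Fin n) : psi b * psi b = 0 := by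
  apply LinearMap.ext
  rintro ⟨w, D⟩
  rw [Module.End.mul_apply, psi_apply, psi_apply]
  ext c
  · simp [← mul_assoc, X_sq]
  · have e1 : X b * (X b * D (pm b (pm b c))) = 0 := by rw [← mul_assoc, X_sq, zero_mul]
    have e2 : X b * (X b * w) = 0 := by rw [← mul_assoc, X_sq, zero_mul]
    simp only [mul_add, dl_sq, mul_smul_comm, e1, add_zero, LinearMap.zero_apply, Prod.snd_zero,
      Pi.zero_apply]
    rw [neg_smul, add_neg_cancel]

lemma psi_comm {n : ℕ} (i j k l : Fin n) (hij : i ≠ j) (hkl : k ≠ l) (hik : i ≠ k) (hil : i ≠ l)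
    (hjk : j ≠ k) (hjl : j ≠ l) : psi (i, j) * psi (k, l) = psi (k, l) * psi (i, j) := by
  apply LinearMap.ext
  rintro ⟨w, D⟩
  rw [Module.End.mul_apply, Module.End.mul_apply, psi_apply, psi_apply, psi_apply, psi_apply]
  have h1 : pm (i, j) (k, l) = (k, l) := by
    simp [pm, Equiv.swap_apply_of_ne_of_ne hik.symm hjk.symm,
      Equiv.swap_apply_of_ne_of_ne hil.symm hjl.symm]
  have h2 : pm (k, l) (i, j) = (i, j) := by
    simp [pm, Equiv.swap_apply_of_ne_of_ne hik hil, Equiv.swap_apply_of_ne_of_ne hjk hjl]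
  have hc : ∀ c, pm (k, l) (pm (i, j) c) = pm (i, j) (pm (k, l) c) := by
    intro c
    have : Equiv.swap k l * Equiv.swap i j = Equiv.swap i j * Equiv.swap k l := by
      apply Equiv.Perm.Disjoint.commute
      rw [Equiv.Perm.disjoint_iff_eq_or_eq]
      intro x
      by_cases hx : x = k ∨ x = l
      · right
        rcases hx with rfl | rfl
        · exact Equiv.swap_apply_of_ne_of_ne hik.symm hjk.symm
        · exact Equiv.swap_apply_of_ne_of_ne hil.symm hjl.symm
      · left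
        push Not at hx
        exact Equiv.swap_apply_of_ne_of_ne hx.1 hx.2
    have h3 := fun y => congrArg (fun f : Equiv.Perm (Fin n) => f y) this
    simp only [Equiv.Perm.mul_apply] at h3
    simp [pm, h3]
  ext c
  · simp only [← mul_assoc]
    rw [X_comm i j k l hij hkl hik hil hjk hjl]
  · simp only [mul_add, dl_pm, h1, h2, mul_smul_comm, ← mul_assoc, hc]
    rw [X_comm i j k l hij hkl hik hil hjk hjl]
    abel

lemma psi_tri {n : ℕ} (i j k : Fin n) (hij : i ≠ j) (hjk : j ≠ k) (hki : k ≠ i) :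
    psi (i, j) * psi (j, k) + psi (j, k) * psi (k, i) + psi (k, i) * psi (i, j) = 0 := by
  apply LinearMap.ext
  rintro ⟨w, D⟩
  simp only [LinearMap.add_apply, Module.End.mul_apply, psi_apply, LinearMap.zero_apply]
  have h1 : pm (i, j) (j, k) = (i, k) := by
    simp [pm, Equiv.swap_apply_of_ne_of_ne hki hjk.symm]
  have h2 : pm (j, k) (k, i) = (j, i) := by
    simp [pm, Equiv.swap_apply_of_ne_of_ne hij hki.symm]
  have h3 : pm (k, i) (i, j) = (k, j) := by
    simp [pm, Equiv.swap_apply_of_ne_of_ne hjk hij.symm]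
  have e1 : ∀ c, pm (j, k) (pm (i, j) c) = pm (k, i) (pm (j, k) c) := by
    intro c
    have h : Equiv.swap j k * Equiv.swap i j = Equiv.swap k i * Equiv.swap j k := by
      ext y
      simp only [Equiv.Perm.mul_apply, Equiv.swap_apply_def]
      split_ifs <;> simp_all
    have h3 := fun y => congrArg (fun f : Equiv.Perm (Fin n) => f y) h
    simp only [Equiv.Perm.mul_apply] at h3
    simp [pm, h3]
  have e2 : ∀ c, pm (i, j) (pm (k, i) c) = pm (k, i) (pm (j, k) c) := by
    intro c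
    have h : Equiv.swap i j * Equiv.swap k i = Equiv.swap k i * Equiv.swap j k := by
      ext y
      simp only [Equiv.Perm.mul_apply, Equiv.swap_apply_def]
      split_ifs <;> simp_all
    have h3 := fun y => congrArg (fun f : Equiv.Perm (Fin n) => f y) h
    simp only [Equiv.Perm.mul_apply] at h3
    simp [pm, h3]
  have ht := X_tri i j k hij hjk hki
  ext c
  · simp only [Prod.fst_add, Prod.fst_zero, ← mul_assoc, ← add_mul]
    rw [ht, zero_mul]
  · simp only [Prod.snd_add, Prod.snd_zero, Pi.add_apply, Pi.zero_apply, mul_add, dl_pm, h1, h2,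
      h3, mul_smul_comm, ← mul_assoc, e1, e2]
    rw [dl_rev c k i, dl_rev c i j, dl_rev c j k]
    have h0 : X (i, j) * X (j, k) * D (pm (k, i) (pm (j, k) c)) +
        X (j, k) * X (k, i) * D (pm (k, i) (pm (j, k) c)) +
        X (k, i) * X (i, j) * D (pm (k, i) (pm (j, k) c)) = 0 := by
      rw [← add_mul, ← add_mul, ht, zero_mul]
    simp only [neg_smul]
    refine Eq.trans ?_ h0
    abel

/-- The action of `FK n` on `FK n × (pairs → FK n)` recording the skew derivatives. -/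
noncomputable def PsiHom (n : ℕ) : FK n →ₐ[ℚ] Module.End ℚ (FK n × (Fin n × Fin n → FK n)) :=
  liftFK (FreeAlgebra.lift ℚ (fun p : Pair n => psi p.1)) (by
    intro a b h
    induction h with
    | anti i j h => simp [gen, psi_anti i j]
    | sq i j h => simp [gen, psi_sq]
    | comm i j k l hij hkl hik hil hjk hjl =>
      simp [gen, psi_comm i j k l hij hkl hik hil hjk hjl]
    | tri i j k hij hjk hki =>
      simp [gen, psi_tri i j k hij hjk hki])

lemma PsiHom_X {n : ℕ} (b : Fin n × Fin n) (hb : b.1 ≠ b.2) : PsiHom n (X b) = psi b := by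
  obtain ⟨i, j⟩ := b
  rw [X_of_ne hb, x, PsiHom, liftFK_toFK, gen, FreeAlgebra.lift_ι_apply]

end Pool.Agent.Lib.FK640
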