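import Pool.Agent.Lib.FK640.Basic

/-!
# Functoriality, grading and infinite-dimensionality
-/

set_option autoImplicit false

namespace Pool.Agent.Lib.FK640

/-- The grading of `FK n`, as an algebra map to polynomials. -/
noncomputable def grade (n : ℕ) : FK n →ₐ[ℚ] Polynomial (FK n) :=
  liftFK (FreeAlgebra.lift ℚ (fun p : Pair n => (Polynomial.monomial 1 (X p.1) : Polynomial (FK n)))) (by
    intro a b h
    induction h with
    | anti i j h =>
      simp only [gen, FreeAlgebra.lift_ι_apply, map_neg, X_anti i j]
    | sq i j h =>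
      simp only [gen, map_mul, FreeAlgebra.lift_ι_apply, Polynomial.monomial_mul_monomial, X_sq, map_zero]
    | comm i j k l hij hkl hik hil hjk hjl =>
      simp only [gen, map_mul, FreeAlgebra.lift_ι_apply, Polynomial.monomial_mul_monomial,
        X_comm i j k l hij hkl hik hil hjk hjl]
    | tri i j k hij hjk hki =>
      simp only [gen, map_mul, map_add, FreeAlgebra.lift_ι_apply, Polynomial.monomial_mul_monomial]
      rw [← map_add, ← map_add, X_tri i j k hij hjk hki, map_zero, map_zero])

lemma grade_X {n : ℕ} (b : Fin n × Fin n) : grade n (X b) = Polynomial.monomial 1 (X b) := by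
  obtain ⟨i, j⟩ := b
  by_cases h : i = j
  · subst h; simp [X]
  · conv_lhs => rw [X_of_ne h, x, grade, liftFK_toFK, gen, FreeAlgebra.lift_ι_apply]

lemma grade_prod {n : ℕ} (l : List (Fin n × Fin n)) :
    grade n (l.map X).prod = Polynomial.monomial l.length (l.map X).prod := by
  induction l with
  | nil => simp
  | cons b l ih =>
    rw [List.map_cons, List.prod_cons, map_mul, ih, grade_X, Polynomial.monomial_mul_monomial,
      List.length_cons, add_comm]

/-- Restriction of the index set: `x_{σ(i)σ(j)} ↦ x_{ij}` and all other generators to `0`. -/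
noncomputable def retFK {m n : ℕ} (τ : Fin n → Option (Fin m))
    (hτ : ∀ i j a, τ i = some a → τ j = some a → i = j) : FK n →ₐ[ℚ] FK m :=
  liftFK (FreeAlgebra.lift ℚ (fun p : Pair n =>
    match τ p.1.1, τ p.1.2 with
    | some a, some b => X (a, b)
    | _, _ => 0)) (by
    intro a b h
    induction h with
    | anti i j h =>
      simp only [gen, FreeAlgebra.lift_ι_apply, map_neg]
      rcases τ i with _ | c <;> rcases τ j with _ | d <;> simp
      exact X_anti c d
    | sq i j h =>
      simp only [gen, map_mul, FreeAlgebra.lift_ι_apply, map_zero]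
      rcases τ i with _ | a <;> rcases τ j with _ | b <;> simp [X_sq]
    | comm i j k l hij hkl hik hil hjk hjl =>
      simp only [gen, map_mul, FreeAlgebra.lift_ι_apply]
      rcases hi : τ i with _ | a <;> rcases hj : τ j with _ | b <;> rcases hk : τ k with _ | c <;>
        rcases hl : τ l with _ | d <;> simp
      apply X_comm
      · rintro rfl; exact hij (hτ _ _ _ hi hj)
      · rintro rfl; exact hkl (hτ _ _ _ hk hl)
      · rintro rfl; exact hik (hτ _ _ _ hi hk)
      · rintro rfl; exact hil (hτ _ _ _ hi hl)
      · rintro rfl; exact hjk (hτ _ _ _ hj hk)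
      · rintro rfl; exact hjl (hτ _ _ _ hj hl)
    | tri i j k hij hjk hki =>
      simp only [gen, map_mul, map_add, FreeAlgebra.lift_ι_apply, map_zero]
      rcases hi : τ i with _ | a <;> rcases hj : τ j with _ | b <;> rcases hk : τ k with _ | c <;>
        simp
      apply X_tri
      · rintro rfl; exact hij (hτ _ _ _ hi hj)
      · rintro rfl; exact hjk (hτ _ _ _ hj hk)
      · rintro rfl; exact hki (hτ _ _ _ hk hi))

lemma retFK_X {m n : ℕ} (τ : Fin n → Option (Fin m))
    (hτ : ∀ i j a, τ i = some a → τ j = some a → i = j) (i j : Fin n) (a b : Fin m)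
    (hi : τ i = some a) (hj : τ j = some b) : retFK τ hτ (X (i, j)) = X (a, b) := by
  by_cases h : i = j
  · subst h
    rw [hi] at hj
    obtain rfl := Option.some.inj hj
    simp [X]
  · rw [X_of_ne h, x, retFK, liftFK_toFK, gen, FreeAlgebra.lift_ι_apply]
    simp [hi, hj]

/-- An injection of index sets moves nonzero words to nonzero words. -/
lemma prod_ne_zero_of_injective {m n : ℕ} (σ : Fin m → Fin n) (hσ : Function.Injective σ)
    (l : List (Fin m × Fin m)) (hl : (l.map X).prod ≠ 0) :
    ((l.map fun b => (σ b.1, σ b.2)).map X).prod ≠ 0 := by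
  classical
  set τ : Fin n → Option (Fin m) := fun i =>
    if h : ∃ a, σ a = i then some h.choose else none with hτd
  have h1 : ∀ a, τ (σ a) = some a := by
    intro a
    have h : ∃ b, σ b = σ a := ⟨a, rfl⟩
    rw [hτd]
    simp only [h, dif_pos]
    exact congrArg some (hσ h.choose_spec)
  have h2 : ∀ i j a, τ i = some a → τ j = some a → i = j := by
    intro i j a hi hj
    have h3 : ∀ i, τ i = some a → σ a = i := by
      intro i hi
      rw [hτd] at hi
      by_cases h : ∃ b, σ b = i
      · simp only [h, dif_pos] at hi
        rw [← Option.some.inj hi]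
        exact h.choose_spec
      · simp only [h, dif_neg, not_false_eq_true] at hi
        exact absurd hi (by simp)
    rw [← h3 i hi, ← h3 j hj]
  intro h
  apply hl
  have h4 := congrArg (retFK τ h2) h
  rw [map_zero, map_list_prod, List.map_map, List.map_map] at h4
  rw [← h4]
  congr 1
  apply List.map_congr_left
  intro b _
  simp only [Function.comp_apply]
  rw [retFK_X τ h2 (σ b.1) (σ b.2) b.1 b.2 (h1 _) (h1 _)]

/-- A homogeneous element of positive degree that is not nilpotent has linearly independent
powers. -/
lemma linearIndependent_pow {n : ℕ} (z : FK n) (k : ℕ) (hk : 0 < k)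
    (hz : grade n z = Polynomial.monomial k z) (hnz : ∀ m : ℕ, z ^ m ≠ 0) :
    LinearIndependent ℚ (fun m : ℕ => z ^ m) := by
  classical
  rw [linearIndependent_iff']
  intro s a h i hi
  have hp : ∀ m : ℕ, grade n (z ^ m) = Polynomial.monomial (k * m) (z ^ m) := by
    intro m
    rw [map_pow, hz, Polynomial.monomial_pow]
  have h1 := congrArg (fun p => (grade n p).coeff (k * i)) h
  simp only [map_sum, map_smul, hp, map_zero, Polynomial.coeff_zero, Polynomial.finsetSum_coeff, Polynomial.coeff_smul,
    Polynomial.coeff_monomial] at h1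
  rw [Finset.sum_eq_single i] at h1
  · rw [if_pos rfl] at h1
    rcases smul_eq_zero.1 h1 with h2 | h2
    · exact h2
    · exact absurd h2 (hnz i)
  · intro b _ hbi
    rw [if_neg, smul_zero]
    intro h3
    exact hbi (Nat.eq_of_mul_eq_mul_left hk h3)
  · intro h3
    exact absurd hi h3

/-- If all powers of a nonempty word in the generators `x_{ij}`, `ij` an edge of `G`, are nonzero,
then `EG G` is infinite-dimensional. -/
theorem not_finite_of_word {n : ℕ} (G : SimpleGraph (Fin n)) (l : List (Fin n × Fin n))
    (hl : l ≠ []) (hG : ∀ b ∈ l, G.Adj b.1 b.2)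
    (hnz : ∀ m : ℕ, (((List.replicate m l).flatten).map X).prod ≠ (0 : FK n)) :
    ¬ Module.Finite ℚ (EG G) := by
  intro hfin
  set z : FK n := (l.map X).prod with hzd
  have hzG : z ∈ EG G := by
    apply Subalgebra.list_prod_mem
    intro y hy
    rw [List.mem_map] at hy
    obtain ⟨b, hb, rfl⟩ := hy
    apply Algebra.subset_adjoin
    refine ⟨b.1, b.2, hG b hb, ?_⟩
    exact X_of_ne (hG b hb).ne
  have hpow : ∀ m : ℕ, (((List.replicate m l).flatten).map X).prod = z ^ m := by
    intro m
    induction m with
    | zero => simp
    | succ m ih =>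
      rw [List.replicate_succ, List.flatten_cons, List.map_append, List.prod_append, ih, pow_succ']
  have hind : LinearIndependent ℚ (fun m : ℕ => z ^ m) := by
    apply linearIndependent_pow z l.length (List.length_pos_of_ne_nil hl) (grade_prod l)
    intro m
    rw [← hpow m]
    exact hnz m
  have hind2 : LinearIndependent ℚ (fun m : ℕ => (⟨z ^ m, pow_mem hzG m⟩ : EG G)) := by
    apply LinearIndependent.of_comp (EG G).val.toLinearMap
    exact hind
  have := hind2.finite
  exact not_finite ℕ

end Pool.Agent.Lib.FK640
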