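import Pool.Agent.Lib.FK640.Key
import Pool.Agent.Lib.FK640.Inf

/-!
# Finite certificates checked by evaluation
-/

set_option autoImplicit false

namespace Pool.Agent.Lib.FK640

open Finsupp

/-- Decode a ten-bit entry: `0` is empty, otherwise `2 (j + 1) + sign`. -/
def ent (v : ℕ) : List (ℕ × ℤ) :=
  bif v == 0 then [] else [(v / 2 - 1, bif v % 2 == 0 then 1 else -1)]

/-- Row of a table: image of the basis state `s` under the operator `i`. -/
def row (T N i s : ℕ) : List (ℕ × ℤ) :=
  bif Nat.blt s N then ent ((T >>> (20 * (i * N + s))) % 1024) ++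
    ent ((T >>> (20 * (i * N + s) + 10)) % 1024) else []

/-- Coefficient of `t` in a formal combination. -/
def cf : List (ℕ × ℤ) → ℕ → ℤ
  | [], _ => 0
  | p :: l, t => bif p.1 == t then p.2 + cf l t else cf l t

/-- Apply an operator to a formal combination. -/
def ap (T N i : ℕ) : List (ℕ × ℤ) → List (ℕ × ℤ)
  | [] => []
  | p :: l => (row T N i p.1).map (fun q => (q.1, p.2 * q.2)) ++ ap T N i l

/-- Equality of formal combinations. -/
def eqv (l m : List (ℕ × ℤ)) : Bool := (l ++ m).all fun p => cf l p.1 == cf m p.1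

/-- Apply a word of operators, the first letter acting first. -/
def apw (T N k : ℕ) : List ℕ → List (ℕ × ℤ) → List (ℕ × ℤ)
  | [], l => l
  | i :: w, l => apw T N k w (ap T N (i % k) l)

/-- The vector of a formal combination. -/
noncomputable def vec (N : ℕ) (l : List (ℕ × ℤ)) : Fin N →₀ ℚ :=
  (l.map fun p => if h : p.1 < N then single ⟨p.1, h⟩ (p.2 : ℚ) else 0).sum

lemma vec_nil (N : ℕ) : vec N [] = 0 := rfl

lemma vec_cons (N : ℕ) (p : ℕ × ℤ) (l : List (ℕ × ℤ)) :
    vec N (p :: l) = (if h : p.1 < N then single ⟨p.1, h⟩ (p.2 : ℚ) else 0) + vec N l := by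
  simp [vec]

lemma vec_append (N : ℕ) (l m : List (ℕ × ℤ)) : vec N (l ++ m) = vec N l + vec N m := by
  simp [vec]

lemma vec_smul (N : ℕ) (c : ℤ) (l : List (ℕ × ℤ)) :
    vec N (l.map fun q => (q.1, c * q.2)) = (c : ℚ) • vec N l := by
  induction l with
  | nil => simp [vec_nil]
  | cons p l ih =>
    rw [List.map_cons, vec_cons, vec_cons, ih, smul_add]
    congr 1
    split_ifs <;> simp

lemma vec_apply (N : ℕ) (l : List (ℕ × ℤ)) (t : Fin N) : vec N l t = (cf l t.1 : ℚ) := by
  induction l with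
  | nil => simp [vec_nil, cf]
  | cons p l ih =>
    rw [vec_cons, Finsupp.add_apply, ih, cf]
    by_cases h : p.1 = t.1
    · have h2 : p.1 < N := h ▸ t.2
      have h3 : (⟨p.1, h2⟩ : Fin N) = t := Fin.ext h
      rw [dif_pos h2, h3]
      simp [h]
    · have hb : (p.1 == t.1) = false := by simpa using h
      rw [hb, cond_false]
      by_cases h2 : p.1 < N
      · have h3 : (⟨p.1, h2⟩ : Fin N) ≠ t := fun e => h (congrArg Fin.val e)
        rw [dif_pos h2, Finsupp.single_eq_of_ne' h3, zero_add]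
      · rw [dif_neg h2, Finsupp.zero_apply, zero_add]

lemma cf_eq_zero (l : List (ℕ × ℤ)) (t : ℕ) (h : ∀ p ∈ l, p.1 ≠ t) : cf l t = 0 := by
  induction l with
  | nil => rfl
  | cons p l ih =>
    rw [cf]
    have h1 : p.1 ≠ t := h p (by simp)
    have h2 : (p.1 == t) = false := by simpa using h1
    rw [h2]
    exact ih fun q hq => h q (by simp [hq])

lemma vec_eq_of_eqv (N : ℕ) (l m : List (ℕ × ℤ)) (h : eqv l m = true) : vec N l = vec N m := by
  apply Finsupp.ext
  intro t
  rw [vec_apply, vec_apply]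
  rw [eqv, List.all_eq_true] at h
  by_cases h1 : ∃ p ∈ l ++ m, p.1 = t.1
  · obtain ⟨p, hp, hpt⟩ := h1
    have := h p hp
    rw [hpt] at this
    have h3 : cf l t.1 = cf m t.1 := by simpa using this
    rw [h3]
  · push Not at h1
    rw [cf_eq_zero l t.1 fun p hp => h1 p (by simp [hp]),
      cf_eq_zero m t.1 fun p hp => h1 p (by simp [hp])]

/-- The operator of a table. -/
noncomputable def op (T N i : ℕ) : (Fin N →₀ ℚ) →ₗ[ℚ] (Fin N →₀ ℚ) :=
  Finsupp.linearCombination ℚ (fun s : Fin N => vec N (row T N i s.1))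

lemma op_single (T N i : ℕ) (s : Fin N) : op T N i (single s 1) = vec N (row T N i s.1) := by
  simp [op]

lemma op_vec (T N i : ℕ) (l : List (ℕ × ℤ)) : op T N i (vec N l) = vec N (ap T N i l) := by
  induction l with
  | nil => simp [vec_nil, ap]
  | cons p l ih =>
    rw [vec_cons, map_add, ih, ap, vec_append, vec_smul]
    congr 1
    by_cases h : p.1 < N
    · rw [dif_pos h]
      have : single (⟨p.1, h⟩ : Fin N) (p.2 : ℚ) = (p.2 : ℚ) • single (⟨p.1, h⟩ : Fin N) 1 := by
        simp
      rw [this, map_smul, op_single]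
    · rw [dif_neg h, map_zero, row]
      have : Nat.blt p.1 N = false := by
        rw [← Bool.not_eq_true, Nat.blt_eq]
        exact h
      rw [this]
      simp [vec_nil]

lemma single_eq_vec (N : ℕ) (s : Fin N) : single s (1 : ℚ) = vec N [(s.1, 1)] := by
  rw [vec_cons, vec_nil, dif_pos s.2]
  simp

lemma act_op (T N k : ℕ) (w : List ℕ) (l : List (ℕ × ℤ)) :
    act (fun i => op T N (i % k)) w (vec N l) = vec N (apw T N k w l) := by
  induction w generalizing l with
  | nil => rfl
  | cons i w ih =>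
    rw [act, LinearMap.comp_apply, op_vec, ih, apw]

/-- A certificate. -/
structure Cert where
  /-- number of states -/
  N : ℕ
  /-- raising letters -/
  XL : List (ℕ × ℕ)
  /-- lowering positions -/
  YL : List (ℕ × ℕ)
  /-- table of raising operators -/
  XT : ℕ
  /-- table of lowering operators -/
  YT : ℕ
  /-- table of group elements -/
  GT : ℕ
  /-- rank one word of lowering operators -/
  K : List ℕ
  /-- source of the rank one word -/
  s0 : ℕ
  /-- image of the rank one word -/
  s1 : ℕ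
  /-- coefficient of the rank one word -/
  e : ℤ
  /-- reachability steps -/
  steps : List (ℕ × ℕ × ℕ)
  /-- dead end -/
  d : ℕ
  /-- cycle word -/
  c : List ℕ
  /-- start of the cycle -/
  sc : ℕ
  /-- coefficient of the cycle -/
  ec : ℤ

namespace Cert

variable (D : Cert)

/-- Value of the group element of state `s` at position `v`. -/
def gN (s v : ℕ) : ℕ := ((D.GT >>> (18 * s + 3 * v)) % 8) % 6

/-- Raising letter. -/
def bN (i : ℕ) : ℕ × ℕ := D.XL.getD (i % D.XL.length) (0, 1)

/-- Lowering position. -/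
def aN (i : ℕ) : ℕ × ℕ := D.YL.getD (i % D.YL.length) (0, 1)

/-- Transposition. -/
def swN (p : ℕ × ℕ) (x : ℕ) : ℕ :=
  bif x == p.1 then p.2 else bif x == p.2 then p.1 else x

/-- Signed delta. -/
def dlN (c0 c1 : ℕ) (b : ℕ × ℕ) : ℤ :=
  bif c0 == b.1 && c1 == b.2 then 1 else bif c0 == b.2 && c1 == b.1 then -1 else 0

/-- Range quantifier. -/
def allR (n : ℕ) (f : ℕ → Bool) : Bool := (List.range n).all f

/-- Letters are pairs of distinct elements below `6`. -/
def checkL : Bool :=
  (D.XL.all fun p => Nat.blt p.1 6 && Nat.blt p.2 6 && !(p.1 == p.2)) &&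
  (D.YL.all fun p => Nat.blt p.1 6 && Nat.blt p.2 6 && !(p.1 == p.2)) &&
  Nat.blt 0 D.XL.length && Nat.blt 0 D.YL.length

/-- Compatibility of the raising operators with the group elements. -/
def checkG : Bool :=
  allR D.XL.length fun i => allR D.N fun s => (row D.XT D.N i s).all fun p =>
    allR 6 fun v => D.gN p.1 v == swN (D.bN i) (D.gN s v)

/-- The commutation relations. -/
def checkI : Bool :=
  allR D.YL.length fun a => allR D.XL.length fun i => allR D.N fun s =>
    eqv (ap D.YT D.N a (row D.XT D.N i s))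
      ((s, dlN (D.gN s (D.aN a).1) (D.gN s (D.aN a).2) (D.bN i)) ::
        ap D.XT D.N i (row D.YT D.N a s))

/-- The rank one word. -/
def checkK : Bool :=
  Nat.blt D.s0 D.N && Nat.blt D.s1 D.N && D.e * D.e == 1 && allR D.N fun s =>
    eqv (apw D.YT D.N D.YL.length D.K [(s, 1)]) (bif s == D.s0 then [(D.s1, D.e)] else [])

/-- Reachability. -/
def go : List (ℕ × ℕ × ℕ) → ℕ → Bool
  | [], R => allR D.N fun s => R.testBit s
  | (p, a, t) :: l, R => R.testBit p && Nat.blt p D.N && Nat.blt t D.N &&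
      ((row D.YT D.N (a % D.YL.length) p).all fun q => q.1 == t || R.testBit q.1) &&
      !(cf (row D.YT D.N (a % D.YL.length) p) t == 0) && go l (R ||| 1 <<< t)

/-- Dead end. -/
def checkD : Bool :=
  Nat.blt D.d D.N && allR D.XL.length fun i => eqv (row D.XT D.N i D.d) []

/-- Cycle. -/
def checkC : Bool :=
  Nat.blt D.sc D.N && !(D.ec == 0) &&
    eqv (apw D.XT D.N D.XL.length D.c [(D.sc, 1)]) [(D.sc, D.ec)]

/-- The total check. -/
def check : Bool :=
  D.checkL && D.checkG && D.checkI && D.checkK && D.go D.steps (1 <<< D.s1) && D.checkD && D.checkC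

lemma allR_iff (n : ℕ) (f : ℕ → Bool) : allR n f = true ↔ ∀ i < n, f i = true := by
  simp [allR, List.all_eq_true]

/-- Raising letter as a pair in `Fin 6`. -/
def β (i : ℕ) : Fin 6 × Fin 6 := (Fin.ofNat 6 (D.bN i).1, Fin.ofNat 6 (D.bN i).2)

/-- Lowering position as a pair in `Fin 6`. -/
def pos (i : ℕ) : Fin 6 × Fin 6 := (Fin.ofNat 6 (D.aN i).1, Fin.ofNat 6 (D.aN i).2)

/-- Group element. -/
def g (s : Fin D.N) (v : Fin 6) : Fin 6 := Fin.ofNat 6 (D.gN s.1 v.1)

lemma val_g (s : Fin D.N) (v : Fin 6) : (D.g s v).val = D.gN s.1 v.1 := by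
  simp [g, gN]

section sound

variable {D}

lemma checkL_iff (h : D.checkL = true) :
    (∀ p ∈ D.XL, p.1 < 6 ∧ p.2 < 6 ∧ p.1 ≠ p.2) ∧ (∀ p ∈ D.YL, p.1 < 6 ∧ p.2 < 6 ∧ p.1 ≠ p.2) ∧
      0 < D.XL.length ∧ 0 < D.YL.length := by
  simp only [checkL, Bool.and_eq_true, List.all_eq_true, Nat.blt_eq, Bool.not_eq_true',
    beq_eq_false_iff_ne, ne_eq] at h
  obtain ⟨⟨⟨h1, h2⟩, h3⟩, h4⟩ := h
  exact ⟨fun p hp => ⟨(h1 p hp).1.1, (h1 p hp).1.2, (h1 p hp).2⟩,
    fun p hp => ⟨(h2 p hp).1.1, (h2 p hp).1.2, (h2 p hp).2⟩, h3, h4⟩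

lemma bN_spec (h : D.checkL = true) (i : ℕ) :
    (D.bN i).1 < 6 ∧ (D.bN i).2 < 6 ∧ (D.bN i).1 ≠ (D.bN i).2 := by
  obtain ⟨h1, -, h3, -⟩ := checkL_iff h
  apply h1
  rw [bN, List.getD_eq_getElem _ _ (Nat.mod_lt _ h3)]
  exact List.getElem_mem _

lemma aN_spec (h : D.checkL = true) (i : ℕ) :
    (D.aN i).1 < 6 ∧ (D.aN i).2 < 6 ∧ (D.aN i).1 ≠ (D.aN i).2 := by
  obtain ⟨-, h1, -, h3⟩ := checkL_iff h
  apply h1
  rw [aN, List.getD_eq_getElem _ _ (Nat.mod_lt _ h3)]
  exact List.getElem_mem _

lemma val_β (h : D.checkL = true) (i : ℕ) :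
    (D.β i).1.val = (D.bN i).1 ∧ (D.β i).2.val = (D.bN i).2 := by
  obtain ⟨h1, h2, -⟩ := bN_spec h i
  simp only [β, Fin.val_ofNat]
  exact ⟨Nat.mod_eq_of_lt h1, Nat.mod_eq_of_lt h2⟩

lemma val_pos (h : D.checkL = true) (i : ℕ) :
    (D.pos i).1.val = (D.aN i).1 ∧ (D.pos i).2.val = (D.aN i).2 := by
  obtain ⟨h1, h2, -⟩ := aN_spec h i
  simp only [pos, Fin.val_ofNat]
  exact ⟨Nat.mod_eq_of_lt h1, Nat.mod_eq_of_lt h2⟩

lemma β_ne (h : D.checkL = true) (i : ℕ) : (D.β i).1 ≠ (D.β i).2 := by
  intro e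
  have := congrArg Fin.val e
  rw [(val_β h i).1, (val_β h i).2] at this
  exact (bN_spec h i).2.2 this

lemma swap_val (a b x : Fin 6) : (Equiv.swap a b x).val = swN (a.val, b.val) x.val := by
  rw [Equiv.swap_apply_def, swN]
  by_cases h1 : x = a
  · subst h1; simp
  · have h1' : (x.val == a.val) = false := by simpa [Fin.ext_iff] using h1
    by_cases h2 : x = b
    · subst h2; simp [h1, h1']
    · have h2' : (x.val == b.val) = false := by simpa [Fin.ext_iff] using h2
      simp [h1, h1', h2, h2']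

lemma dl_eq (c0 c1 b0 b1 : Fin 6) (hb : b0 ≠ b1) :
    dl (c0, c1) (b0, b1) = (dlN c0.val c1.val (b0.val, b1.val) : ℚ) := by
  revert hb
  revert c0 c1 b0 b1
  decide +kernel

lemma inner_sound (hL : D.checkL = true) (hI : D.checkI = true) (a b : ℕ) (s : Fin D.N) :
    op D.YT D.N (a % D.YL.length) (op D.XT D.N (b % D.XL.length) (single s 1)) =
      op D.XT D.N (b % D.XL.length) (op D.YT D.N (a % D.YL.length) (single s 1)) +
        dl (D.g s (D.pos a).1, D.g s (D.pos a).2) (D.β b) • single s 1 := by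
  obtain ⟨-, -, h3, h4⟩ := checkL_iff hL
  simp only [checkI, allR_iff] at hI
  have h := vec_eq_of_eqv D.N _ _
    (hI _ (Nat.mod_lt a h4) _ (Nat.mod_lt b h3) s.1 s.2)
  rw [op_single, op_single, op_vec, op_vec, h, vec_cons, dif_pos s.2, add_comm]
  congr 1
  have h5 : D.aN (a % D.YL.length) = D.aN a := by simp [aN]
  have h6 : D.bN (b % D.XL.length) = D.bN b := by simp [bN]
  rw [h5, h6]
  have h7 : D.β b = ((D.β b).1, (D.β b).2) := rfl
  rw [h7, dl_eq _ _ _ _ (β_ne hL b), val_g, val_g, (val_β hL b).1, (val_β hL b).2,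
    (val_pos hL a).1, (val_pos hL a).2]
  simp

lemma g_sound (hL : D.checkL = true) (hG : D.checkG = true) (b : ℕ) (s t : Fin D.N)
    (h : op D.XT D.N (b % D.XL.length) (single s 1) t ≠ 0) (v : Fin 6) :
    D.g t v = Equiv.swap (D.β b).1 (D.β b).2 (D.g s v) := by
  obtain ⟨-, -, h3, h4⟩ := checkL_iff hL
  rw [op_single, vec_apply] at h
  have h1 : ∃ p ∈ row D.XT D.N (b % D.XL.length) s.1, p.1 = t.1 := by
    by_contra h2
    push Not at h2
    rw [cf_eq_zero _ _ h2] at h
    simp at h
  obtain ⟨p, hp, hpt⟩ := h1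
  simp only [checkG, allR_iff, List.all_eq_true] at hG
  have h5 := hG _ (Nat.mod_lt b h3) s.1 s.2 p hp v.1 v.2
  have h6 : D.bN (b % D.XL.length) = D.bN b := by simp [bN]
  rw [h6, hpt] at h5
  apply Fin.ext
  rw [swap_val, val_g, val_g, (val_β hL b).1, (val_β hL b).2]
  simpa using h5

lemma go_sound (V : Submodule ℚ (Fin D.N →₀ ℚ))
    (hV : ∀ a v, v ∈ V → op D.YT D.N (a % D.YL.length) v ∈ V) (l : List (ℕ × ℕ × ℕ)) :
    ∀ R : ℕ, D.go l R = true → (∀ s : Fin D.N, R.testBit s.1 = true → single s 1 ∈ V) →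
      ∀ s : Fin D.N, single s 1 ∈ V := by
  induction l with
  | nil =>
    intro R hR hRV s
    rw [go, allR_iff] at hR
    exact hRV s (hR s.1 s.2)
  | cons q l ih =>
    obtain ⟨p, a, t⟩ := q
    intro R hR hRV
    simp only [go, Bool.and_eq_true, List.all_eq_true, Nat.blt_eq, Bool.not_eq_true',
      beq_eq_false_iff_ne, ne_eq, Bool.or_eq_true, beq_iff_eq] at hR
    obtain ⟨⟨⟨⟨⟨h1, h2⟩, h3⟩, h4⟩, h5⟩, h6⟩ := hR
    apply ih _ h6
    intro s hs
    rw [Nat.testBit_or, Bool.or_eq_true] at hs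
    rcases hs with hs | hs
    · exact hRV s hs
    · have hst : t = s.1 := by
        rw [Nat.one_shiftLeft, Nat.testBit_two_pow] at hs
        simpa using hs
      subst hst
      set r := row D.YT D.N (a % D.YL.length) p with hr
      have h7 : vec D.N r ∈ V := by
        have := hV a _ (hRV ⟨p, h2⟩ h1)
        rwa [op_single] at this
      -- decompose `vec r`
      have h8 : ∀ m : List (ℕ × ℤ), (∀ q ∈ m, q.1 = s.1 ∨ R.testBit q.1 = true) →
          vec D.N m - (cf m s.1 : ℚ) • single s (1 : ℚ) ∈ V := by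
        intro m
        induction m with
        | nil => intro _; simp [vec_nil, cf]
        | cons q m ihm =>
          intro hm
          have h9 := ihm fun q hq => hm q (by simp [hq])
          rw [vec_cons, cf]
          by_cases hq : q.1 = s.1
          · have hq1 : q.1 < D.N := hq ▸ s.2
            have hq2 : (⟨q.1, hq1⟩ : Fin D.N) = s := Fin.ext hq
            rw [dif_pos hq1, hq2]
            have hb : (q.1 == s.1) = true := by simpa using hq
            rw [hb, cond_true]
            have e : single s (q.2 : ℚ) + vec D.N m - ((q.2 + cf m s.1 : ℤ) : ℚ) • single s (1 : ℚ)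
                = vec D.N m - (cf m s.1 : ℚ) • single s (1 : ℚ) := by
              have e2 : single s (q.2 : ℚ) = (q.2 : ℚ) • single s (1 : ℚ) := by simp
              rw [e2]
              push_cast
              rw [add_smul]
              abel
            rw [e]
            exact h9
          · have hb : (q.1 == s.1) = false := by simpa using hq
            rw [hb, cond_false, add_sub_assoc]
            apply V.add_mem _ h9
            split_ifs with hq1
            · have e2 : single (⟨q.1, hq1⟩ : Fin D.N) (q.2 : ℚ) =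
                  (q.2 : ℚ) • single (⟨q.1, hq1⟩ : Fin D.N) (1 : ℚ) := by simp
              rw [e2]
              apply V.smul_mem
              apply hRV
              rcases hm q (by simp) with h10 | h10
              · exact absurd h10 hq
              · exact h10
            · exact V.zero_mem
      have h9 := h8 r h4
      have h10 : (cf r s.1 : ℚ) • single s (1 : ℚ) ∈ V := by
        have := V.sub_mem h7 h9
        simpa using this
      have h11 : (cf r s.1 : ℚ) ≠ 0 := by exact_mod_cast h5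
      have h12 := V.smul_mem (cf r s.1 : ℚ)⁻¹ h10
      rwa [smul_smul, inv_mul_cancel₀ h11, one_smul] at h12

/-- Soundness: the words of a checked certificate are nonzero in the Fomin-Kirillov algebra
whenever they act nontrivially. -/
theorem act_eq_zero (h : D.check = true) (w : List ℕ) (hw : ev D.β w = 0) :
    act (fun i => op D.XT D.N (i % D.XL.length)) w = 0 := by
  simp only [check, Bool.and_eq_true] at h
  obtain ⟨⟨⟨⟨⟨⟨hL, hG⟩, hI⟩, hK⟩, hR⟩, hD⟩, -⟩ := h
  simp only [checkK, Bool.and_eq_true, Nat.blt_eq, allR_iff, beq_iff_eq] at hK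
  obtain ⟨⟨⟨hs0, hs1⟩, he⟩, hK⟩ := hK
  simp only [checkD, Bool.and_eq_true, Nat.blt_eq, allR_iff] at hD
  obtain ⟨hd, hD⟩ := hD
  obtain ⟨-, -, h3, h4⟩ := checkL_iff hL
  rw [← actF_single]
  apply key D.β (fun i => op D.XT D.N (i % D.XL.length)) (fun i => op D.YT D.N (i % D.YL.length))
    D.g D.pos (β_ne hL) (g_sound hL hG) (inner_sound hL hI) D.K ⟨D.s0, hs0⟩ ⟨D.s1, hs1⟩ (D.e : ℚ)
    (by exact_mod_cast he) _ _ ⟨D.d, hd⟩
  · intro b
    change op D.XT D.N (b % D.XL.length) (single _ 1) = 0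
    rw [op_single, vec_eq_of_eqv D.N _ _ (hD _ (Nat.mod_lt b h3)), vec_nil]
  · rw [evF_single, hw]
  · intro s
    have h5 := vec_eq_of_eqv D.N _ _ (hK s.1 s.2)
    rw [← act_op, ← single_eq_vec] at h5
    rw [h5]
    by_cases hs : s.1 = D.s0
    · rw [if_pos (Fin.ext hs)]
      have hb : (s.1 == D.s0) = true := by simpa using hs
      rw [hb, cond_true, vec_cons, vec_nil, dif_pos hs1]
      simp
    · have hb : (s.1 == D.s0) = false := by simpa using hs
      rw [if_neg fun e => hs (congrArg Fin.val e), hb, cond_false, vec_nil]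
  · intro V hV1 hV2 s
    apply go_sound V hV2 D.steps _ hR _ s
    intro s hs
    rw [Nat.one_shiftLeft, Nat.testBit_two_pow] at hs
    have : s = ⟨D.s1, hs1⟩ := Fin.ext (by simpa using Eq.symm (by simpa using hs))
    rw [this]
    exact hV1

/-- All powers of the cycle word are nonzero. -/
theorem cycle_ne_zero (h : D.check = true) (m : ℕ) :
    ev D.β (List.replicate m D.c).flatten ≠ 0 := by
  intro h0
  have h1 := act_eq_zero h _ h0
  simp only [check, Bool.and_eq_true] at h
  obtain ⟨-, hC⟩ := h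
  simp only [checkC, Bool.and_eq_true, Nat.blt_eq, Bool.not_eq_true', beq_eq_false_iff_ne,
    ne_eq] at hC
  obtain ⟨⟨hs, he⟩, hC⟩ := hC
  have h2 := vec_eq_of_eqv D.N _ _ hC
  set s : Fin D.N := ⟨D.sc, hs⟩
  have hsv : single s (1 : ℚ) = vec D.N [(D.sc, 1)] := single_eq_vec D.N s
  rw [← act_op, ← hsv] at h2
  have h3 : vec D.N [(D.sc, D.ec)] = (D.ec : ℚ) • single s (1 : ℚ) := by
    rw [vec_cons, vec_nil, dif_pos hs]
    simp [s]
  rw [h3] at h2
  have h4 : ∀ m : ℕ, act (fun i => op D.XT D.N (i % D.XL.length)) (List.replicate m D.c).flatten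
      (single s 1) = (D.ec : ℚ) ^ m • single s 1 := by
    intro m
    induction m with
    | zero => simp [act]
    | succ m ih =>
      rw [List.replicate_succ, List.flatten_cons, act_append, h2, map_smul, ih, smul_smul,
        pow_succ']
  have h5 := h4 m
  rw [h1, LinearMap.zero_apply] at h5
  have h6 := congrArg (fun v => v s) h5
  simp only [Finsupp.zero_apply, Finsupp.smul_apply, Finsupp.single_eq_same, smul_eq_mul,
    mul_one] at h6
  have h7 : (D.ec : ℚ) ≠ 0 := by exact_mod_cast he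
  exact pow_ne_zero m h7 h6.symm

/-- **Infinite-dimensionality from a certificate.** -/
theorem not_finite (h : D.check = true) (hc : D.c ≠ []) {n : ℕ} (σ : Fin 6 → Fin n)
    (hσ : Function.Injective σ) (G : SimpleGraph (Fin n))
    (hG : ∀ i ∈ D.c, G.Adj (σ (D.β i).1) (σ (D.β i).2)) : ¬ Module.Finite ℚ (EG G) := by
  apply not_finite_of_word G (D.c.map fun i => (σ (D.β i).1, σ (D.β i).2))
  · simpa using hc
  · intro b hb
    rw [List.mem_map] at hb
    obtain ⟨i, hi, rfl⟩ := hb
    exact hG i hi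
  · intro m
    have h1 := cycle_ne_zero h m
    have h2 := prod_ne_zero_of_injective σ hσ (((List.replicate m D.c).flatten).map D.β) (by
      rw [List.map_map]
      exact h1)
    have h3 : ((List.replicate m D.c).flatten.map D.β).map (fun b => (σ b.1, σ b.2)) =
        (List.replicate m (D.c.map fun i => (σ (D.β i).1, σ (D.β i).2))).flatten := by
      rw [List.map_map, List.map_flatten, List.map_replicate]
      rfl
    rw [← h3]
    exact h2

end sound

end Cert

end Pool.Agent.Lib.FK640
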