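import Mathlib

/-!
# Nilpotency certificates for finitely generated algebras

Sparse integer vectors, tables of a graded right module and a Boolean checker; the checker proves
that every word of length `K` in the letters lies in the right ideal generated by a smaller set of
letters.
-/

set_option autoImplicit false
set_option linter.unusedSectionVars false

namespace Pool.Agent.Lib.FK640.FinC

/-- Sparse integer vectors. -/
abbrev SV : Type := List (ℕ × ℤ)

/-- Noncommutative polynomials: lists of coefficients and words. -/
abbrev Poly : Type := List (ℤ × List ℕ)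

/-- Add `c e_i` to a sparse vector. -/
def ins (i : ℕ) (c : ℤ) : SV → SV
  | [] => if c = 0 then [] else [(i, c)]
  | (j, d) :: v =>
    if i = j then (if c + d = 0 then v else (j, c + d) :: v)
    else if i < j then (if c = 0 then (j, d) :: v else (i, c) :: (j, d) :: v)
    else (j, d) :: ins i c v

/-- Add `c v` to a sparse vector. -/
def addTo (c : ℤ) : SV → SV → SV
  | [], w => w
  | (j, d) :: v, w => addTo c v (ins j (c * d) w)

/-- The linear combination attached to a sparse vector. -/
def lin {R : Type} [AddCommGroup R] (f : ℕ → R) (v : SV) : R := (v.map fun t => t.2 • f t.1).sum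

section lin

variable {R : Type} [AddCommGroup R] (f : ℕ → R)

@[simp] lemma lin_nil : lin f [] = 0 := rfl

@[simp] lemma lin_cons (t : ℕ × ℤ) (v : SV) : lin f (t :: v) = t.2 • f t.1 + lin f v := by
  simp [lin]

lemma lin_ins (i : ℕ) (c : ℤ) (v : SV) : lin f (ins i c v) = c • f i + lin f v := by
  induction v with
  | nil =>
    unfold ins
    split_ifs with h
    · simp [h]
    · simp
  | cons t v ih =>
    obtain ⟨j, d⟩ := t
    unfold ins
    split_ifs with h1 h2 h3 h4
    · subst h1
      rw [lin_cons, ← add_assoc, ← add_smul, h2]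
      simp
    · subst h1
      rw [lin_cons, lin_cons, ← add_assoc, ← add_smul]
    · simp [h4]
    · simp
    · rw [lin_cons, ih, lin_cons]
      abel

lemma lin_addTo (c : ℤ) (v w : SV) : lin f (addTo c v w) = c • lin f v + lin f w := by
  induction v generalizing w with
  | nil => simp [addTo]
  | cons t v ih =>
    obtain ⟨j, d⟩ := t
    rw [addTo, ih, lin_ins, lin_cons, smul_add, mul_smul]
    abel

end lin

/-- The data of one level of a graded right module. -/
structure Level where
  /-- number of basis elements of this level -/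
  n : ℕ
  /-- table of the right action: `tab j a` is a vector of the next level -/
  tab : List (List SV)
  /-- the symbols `m * j + a` which form the basis of the next level -/
  bs : List ℕ
  /-- the reductions: (symbol, index of the relation, level, basis index) -/
  steps : List (ℕ × ℕ × ℕ × ℕ)

/-- Default level. -/
def Level.zero : Level := ⟨0, [], [], []⟩

/-- Lookup of the action table. -/
def Level.T (L : Level) (j a : ℕ) : SV := (L.tab.getD j []).getD a []

/-- Apply the letter `a` to a vector. -/
def applyT (L : Level) (a : ℕ) : SV → SV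
  | [] => []
  | (j, c) :: v => addTo c (L.T j a) (applyT L a v)

/-- Apply a word; the last letter is applied symbolically. -/
def walk (m : ℕ) (D : ℕ → Level) : ℕ → List ℕ → SV → SV
  | _, [], v => v
  | _, [a], v => v.map fun t => (m * t.1 + a, t.2)
  | l, a :: b :: w, v => walk m D (l + 1) (b :: w) (applyT (D l) a v)

/-- The symbolic value of a basis element times a relation. -/
def evalRel (m : ℕ) (D : ℕ → Level) (l i : ℕ) : Poly → SV
  | [] => []
  | (c, u) :: r => addTo c (walk m D l u [(i, 1)]) (evalRel m D l i r)

/-- Substitute the table for the symbols. -/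
def subst (m : ℕ) (L : Level) : SV → SV
  | [] => []
  | (s, c) :: v => addTo c (L.T (s / m) (s % m)) (subst m L v)

/-- The coefficient of a symbol. -/
def coef (s : ℕ) : SV → ℤ
  | [] => 0
  | (t, c) :: v => if t = s then c + coef s v else coef s v

/-- Check of the reductions of one level. -/
def runSteps (m : ℕ) (D : ℕ → Level) (rels : List Poly) (k : ℕ) :
    List (ℕ × ℕ × ℕ × ℕ) → List ℕ → Bool
  | [], known => (List.range (m * (D k).n)).all fun s => known.elem s
  | (s, ri, l, i) :: st, known =>
    ((rels.getD ri []).all fun t => t.2.length + l == k + 1 && t.2.all fun a => Nat.blt a m) &&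
    Nat.blt i (D l).n && Nat.ble l k &&
    ((evalRel m D l i (rels.getD ri [])).all fun t => t.1 == s || known.elem t.1) &&
    (coef s (evalRel m D l i (rels.getD ri [])) != 0) &&
    (subst m (D k) (evalRel m D l i (rels.getD ri []))).isEmpty &&
    runSteps m D rels k st (s :: known)

/-- Check of the basis symbols. -/
def checkBs (m : ℕ) (L : Level) : ℕ → List ℕ → Bool
  | _, [] => true
  | l, s :: bs => (L.T (s / m) (s % m) == [(l, (1 : ℤ))]) && checkBs m L (l + 1) bs

/-- Check of one level. -/
def checkLevel (m : ℕ) (S : List ℕ) (D : ℕ → Level) (rels : List Poly) (k : ℕ) : Bool :=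
  ((D k).bs.length == (D (k + 1)).n) &&
  checkBs m (D k) 0 (D k).bs &&
  ((D k).tab.all fun row => row.all fun v => v.all fun t => Nat.blt t.1 (D (k + 1)).n) &&
  (if k = 0 then ((D 0).n == 1) && (S.all fun s => Nat.blt s m && ((D 0).T 0 s).isEmpty) &&
      runSteps m D rels k (D k).steps (S ++ (D k).bs)
    else runSteps m D rels k (D k).steps (D k).bs)

section sound

variable {R : Type} [Ring R] (a : ℕ → R)

/-- The product of a word. -/
def wd (u : List ℕ) : R := (u.map a).prod

@[simp] lemma wd_nil : wd a [] = 1 := rfl

@[simp] lemma wd_cons (x : ℕ) (u : List ℕ) : wd a (x :: u) = a x * wd a u := by simp [wd]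

lemma wd_append (u v : List ℕ) : wd a (u ++ v) = wd a u * wd a v := by simp [wd]

/-- Evaluation of a noncommutative polynomial. -/
def ev (p : Poly) : R := (p.map fun t => t.1 • wd a t.2).sum

@[simp] lemma ev_nil : ev a [] = 0 := rfl

@[simp] lemma ev_cons (t : ℤ × List ℕ) (p : Poly) : ev a (t :: p) = t.1 • wd a t.2 + ev a p := by
  simp [ev]

lemma ev_append (p q : Poly) : ev a (p ++ q) = ev a p + ev a q := by
  simp [ev]

variable [Algebra ℚ R] (m : ℕ) (S : List ℕ)

/-- The degree `d` part of the right ideal generated by the letters of `S`. -/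
def NN (d : ℕ) : Submodule ℚ R :=
  Submodule.span ℚ {z | ∃ s ∈ S, ∃ u : List ℕ, u.length + 1 = d ∧ (∀ x ∈ u, x < m) ∧
    z = a s * wd a u}

lemma NN_mul {d : ℕ} {z : R} (hz : z ∈ NN a m S d) {x : ℕ} (hx : x < m) :
    z * a x ∈ NN a m S (d + 1) := by
  refine Submodule.span_induction (p := fun z _ => z * a x ∈ NN a m S (d + 1)) ?_ ?_ ?_ ?_ hz
  · rintro z ⟨s, hs, u, hu, hl, rfl⟩
    refine Submodule.subset_span ⟨s, hs, u ++ [x], by simp; omega, ?_, ?_⟩
    · intro y hy
      rw [List.mem_append, List.mem_singleton] at hy
      rcases hy with hy | rfl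
      · exact hl y hy
      · exact hx
    · rw [wd_append]; simp [mul_assoc]
  · simp
  · intro x1 y1 _ _ h1 h2
    rw [add_mul]; exact Submodule.add_mem _ h1 h2
  · intro c x1 _ h1
    rw [smul_mul_assoc]; exact Submodule.smul_mem _ _ h1

lemma NN_zsmul {d : ℕ} {z : R} (hz : z ∈ NN a m S d) (c : ℤ) : c • z ∈ NN a m S d := by
  rw [← Int.cast_smul_eq_zsmul ℚ]
  exact Submodule.smul_mem _ _ hz

lemma NN_of_zsmul {d : ℕ} {z : R} {c : ℤ} (hc : c ≠ 0) (hz : c • z ∈ NN a m S d) :
    z ∈ NN a m S d := by
  rw [← Int.cast_smul_eq_zsmul ℚ] at hz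
  have h := Submodule.smul_mem (NN a m S d) ((c : ℚ)⁻¹) hz
  rwa [smul_smul, inv_mul_cancel₀ (by exact_mod_cast hc), one_smul] at h

variable (D : ℕ → Level) (rels : List Poly)

/-- The basis elements of the levels. -/
def F : ℕ → ℕ → R
  | 0, _ => 1
  | k + 1, l => F k ((D k).bs.getD l 0 / m) * a ((D k).bs.getD l 0 % m)

/-- The value of a symbol. -/
def sym (k s : ℕ) : R := F a m D k (s / m) * a (s % m)

/-- The defect of a symbol. -/
def defect (k s : ℕ) : R :=
  sym a m D k s - lin (F a m D (k + 1)) ((D k).T (s / m) (s % m))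

/-- All symbols of level `k` are reduced correctly. -/
def GoodLevel (k : ℕ) : Prop :=
  (∀ s, s < m * (D k).n → defect a m D k s ∈ NN a m S (k + 1)) ∧
  (∀ j x, ∀ t ∈ (D k).T j x, t.1 < (D (k + 1)).n)

lemma mem_ins {i : ℕ} {c : ℤ} {v : SV} {n : ℕ} (hi : i < n) (hv : ∀ t ∈ v, t.1 < n) :
    ∀ t ∈ ins i c v, t.1 < n := by
  induction v with
  | nil =>
    unfold ins
    split_ifs with h
    · simp
    · simpa using hi
  | cons t v ih =>
    obtain ⟨j, d⟩ := t
    have hj : j < n := hv (j, d) (by simp)
    have hv' : ∀ t ∈ v, t.1 < n := fun t ht => hv t (by simp [ht])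
    unfold ins
    split_ifs with h1 h2 h3 h4
    · exact hv'
    · intro t ht
      rcases List.mem_cons.1 ht with rfl | ht
      · exact hj
      · exact hv' t ht
    · exact hv
    · intro t ht
      rcases List.mem_cons.1 ht with rfl | ht
      · exact hi
      · exact hv t ht
    · intro t ht
      rcases List.mem_cons.1 ht with rfl | ht
      · exact hj
      · exact ih hv' t ht

lemma mem_addTo {c : ℤ} {v w : SV} {n : ℕ} (hv : ∀ t ∈ v, t.1 < n) (hw : ∀ t ∈ w, t.1 < n) :
    ∀ t ∈ addTo c v w, t.1 < n := by
  induction v generalizing w with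
  | nil => exact hw
  | cons t v ih =>
    obtain ⟨j, d⟩ := t
    exact ih (fun t ht => hv t (by simp [ht])) (mem_ins (hv (j, d) (by simp)) hw)

variable {a m S D rels}

lemma applyT_sound {k x : ℕ} (hx : x < m) (hg : GoodLevel a m S D k) (v : SV)
    (hv : ∀ t ∈ v, t.1 < (D k).n) :
    lin (F a m D k) v * a x - lin (F a m D (k + 1)) (applyT (D k) x v) ∈ NN a m S (k + 1) ∧
    ∀ t ∈ applyT (D k) x v, t.1 < (D (k + 1)).n := by
  induction v with
  | nil => simp [applyT]
  | cons t v ih =>
    obtain ⟨j, c⟩ := t
    have hj : j < (D k).n := hv (j, c) (by simp)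
    obtain ⟨h1, h2⟩ := ih fun t ht => hv t (by simp [ht])
    refine ⟨?_, ?_⟩
    · have hs : m * j + x < m * (D k).n := by
        calc m * j + x < m * j + m := by omega
          _ = m * (j + 1) := by ring
          _ ≤ m * (D k).n := Nat.mul_le_mul_left _ hj
      have h3 := hg.1 _ hs
      have hm : 0 < m := by omega
      have e1 : (m * j + x) / m = j := by
        rw [Nat.mul_add_div hm, Nat.div_eq_of_lt hx, add_zero]
      have e2 : (m * j + x) % m = x := by
        rw [Nat.mul_add_mod, Nat.mod_eq_of_lt hx]
      rw [defect, sym, e1, e2] at h3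
      have h4 := NN_zsmul a m S h3 c
      have h5 := Submodule.add_mem _ h4 h1
      have e : c • (F a m D k j * a x - lin (F a m D (k + 1)) ((D k).T j x)) +
          (lin (F a m D k) v * a x - lin (F a m D (k + 1)) (applyT (D k) x v)) =
          lin (F a m D k) ((j, c) :: v) * a x -
            lin (F a m D (k + 1)) (applyT (D k) x ((j, c) :: v)) := by
        rw [applyT, lin_addTo, lin_cons, smul_sub, add_mul, smul_mul_assoc]
        abel
      rw [← e]; exact h5
    · rw [applyT]
      exact mem_addTo (hg.2 j x) h2

lemma lin_sym_map {k x : ℕ} (hx : x < m) (v : SV) :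
    lin (sym a m D k) (v.map fun t => (m * t.1 + x, t.2)) = lin (F a m D k) v * a x := by
  have hm : 0 < m := by omega
  induction v with
  | nil => simp
  | cons t v ih =>
    obtain ⟨j, c⟩ := t
    have e1 : (m * j + x) / m = j := by
      rw [Nat.mul_add_div hm, Nat.div_eq_of_lt hx, add_zero]
    have e2 : (m * j + x) % m = x := by
      rw [Nat.mul_add_mod, Nat.mod_eq_of_lt hx]
    rw [List.map_cons, lin_cons, ih, lin_cons, add_mul, smul_mul_assoc]
    simp only [sym, e1, e2]

lemma walk_sound {k : ℕ} (hg : ∀ l < k, GoodLevel a m S D l) (u : List ℕ) :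
    ∀ (l : ℕ) (v : SV) (z : R), u.length + l = k + 1 → u ≠ [] → (∀ x ∈ u, x < m) →
    (∀ t ∈ v, t.1 < (D l).n) → z - lin (F a m D l) v ∈ NN a m S l →
    z * wd a u - lin (sym a m D k) (walk m D l u v) ∈ NN a m S (k + 1) := by
  induction u with
  | nil => intro l v z _ h; exact absurd rfl h
  | cons x u ih =>
    intro l v z hl _ hx hv hz
    have hx0 : x < m := hx x (by simp)
    cases u with
    | nil =>
      have hlk : l = k := by simp at hl; omega
      subst hlk
      rw [walk, lin_sym_map hx0]
      have := NN_mul a m S hz hx0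
      rw [sub_mul] at this
      simpa using this
    | cons y u =>
      rw [walk, wd_cons, ← mul_assoc]
      have hlk : l < k := by simp at hl; omega
      obtain ⟨h1, h2⟩ := applyT_sound hx0 (hg l hlk) v hv
      refine ih (l + 1) _ (z * a x) (by simp at hl ⊢; omega) (by simp)
        (fun w hw => hx w (by simp [hw])) h2 ?_
      have h3 := NN_mul a m S hz hx0
      have h4 := Submodule.add_mem _ h3 h1
      have e : (z - lin (F a m D l) v) * a x + (lin (F a m D l) v * a x -
          lin (F a m D (l + 1)) (applyT (D l) x v)) =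
          z * a x - lin (F a m D (l + 1)) (applyT (D l) x v) := by
        rw [sub_mul]; abel
      rw [← e]; exact h4

lemma evalRel_sound {k l i : ℕ} (hg : ∀ l < k, GoodLevel a m S D l) (hi : i < (D l).n)
    (hlk : l ≤ k) (r : Poly)
    (hr : ∀ t ∈ r, t.2.length + l = k + 1 ∧ ∀ x ∈ t.2, x < m) :
    F a m D l i * ev a r - lin (sym a m D k) (evalRel m D l i r) ∈ NN a m S (k + 1) := by
  induction r with
  | nil => simp [evalRel]
  | cons t r ih =>
    obtain ⟨c, u⟩ := t
    have h1 := ih fun t ht => hr t (by simp [ht])
    obtain ⟨hu, hx⟩ := hr (c, u) (by simp)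
    have h2 := walk_sound (a := a) (S := S) hg u l [(i, 1)] (F a m D l i) hu
      (by rintro rfl; simp at hu; omega) hx (by simpa using hi) (by simp)
    have h3 := Submodule.add_mem _ (NN_zsmul a m S h2 c) h1
    have e : c • (F a m D l i * wd a u - lin (sym a m D k) (walk m D l u [(i, 1)])) +
        (F a m D l i * ev a r - lin (sym a m D k) (evalRel m D l i r)) =
        F a m D l i * ev a ((c, u) :: r) - lin (sym a m D k) (evalRel m D l i ((c, u) :: r)) := by
      rw [evalRel, lin_addTo, ev_cons, mul_add, smul_sub, mul_smul_comm]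
      abel
    rw [← e]; exact h3

lemma lin_subst {k : ℕ} (v : SV) :
    lin (sym a m D k) v - lin (F a m D (k + 1)) (subst m (D k) v) =
      lin (defect a m D k) v := by
  induction v with
  | nil => simp [subst]
  | cons t v ih =>
    obtain ⟨s, c⟩ := t
    rw [subst, lin_addTo, lin_cons, lin_cons, ← ih, defect, smul_sub]
    abel

lemma lin_split (g : ℕ → R) (s d : ℕ) (v : SV)
    (hv : ∀ t ∈ v, t.1 = s ∨ g t.1 ∈ NN a m S d) :
    lin g v - coef s v • g s ∈ NN a m S d := by
  induction v with
  | nil => simp [coef]
  | cons t v ih =>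
    obtain ⟨j, c⟩ := t
    have h1 := ih fun t ht => hv t (by simp [ht])
    rw [lin_cons, coef]
    split_ifs with h
    · subst h
      have e : c • g j + lin g v - (c + coef j v) • g j = lin g v - coef j v • g j := by
        rw [add_smul]; abel
      rw [e]; exact h1
    · have h2 := (hv (j, c) (by simp)).resolve_left h
      have h3 := Submodule.add_mem _ (NN_zsmul a m S h2 c) h1
      have e : c • g j + lin g v - coef s v • g s = c • g j + (lin g v - coef s v • g s) := by
        abel
      rw [e]; exact h3

lemma runSteps_sound {k : ℕ} (hrel : ∀ r ∈ rels, ev a r = 0)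
    (hg : ∀ l < k, GoodLevel a m S D l) (st : List (ℕ × ℕ × ℕ × ℕ)) :
    ∀ known : List ℕ, (∀ s ∈ known, defect a m D k s ∈ NN a m S (k + 1)) →
    runSteps m D rels k st known = true →
    ∀ s, s < m * (D k).n → defect a m D k s ∈ NN a m S (k + 1) := by
  induction st with
  | nil =>
    intro known hk h s hs
    rw [runSteps, List.all_eq_true] at h
    have := h s (List.mem_range.2 hs)
    exact hk s (by simpa using this)
  | cons q st ih =>
    obtain ⟨s, ri, l, i⟩ := q
    intro known hk h
    rw [runSteps] at h
    simp only [Bool.and_eq_true] at h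
    obtain ⟨⟨⟨⟨⟨⟨h1, h2⟩, h2'⟩, h3⟩, h4⟩, h5⟩, h6⟩ := h
    refine ih (s :: known) ?_ h6
    intro s' hs'
    rcases List.mem_cons.1 hs' with rfl | hs'
    · set r := rels.getD ri [] with hr
      have hr0 : ev a r = 0 := by
        rw [hr, List.getD_eq_getElem?_getD]
        rcases lt_or_ge ri rels.length with hlt | hge
        · rw [List.getElem?_eq_getElem hlt]
          exact hrel _ (List.getElem_mem hlt)
        · rw [List.getElem?_eq_none hge]; rfl
      have hrs : ∀ t ∈ r, t.2.length + l = k + 1 ∧ ∀ x ∈ t.2, x < m := by
        intro t ht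
        rw [List.all_eq_true] at h1
        have := h1 t ht
        rw [Bool.and_eq_true, beq_iff_eq, List.all_eq_true] at this
        refine ⟨this.1, fun x hx => ?_⟩
        have := this.2 x hx
        simpa [Nat.blt_eq] using this
      have hi : i < (D l).n := by simpa [Nat.blt_eq] using h2
      have hlk : l ≤ k := Nat.le_of_ble_eq_true h2'
      have e1 := evalRel_sound (a := a) (S := S) hg hi hlk r hrs
      rw [hr0, mul_zero, zero_sub, Submodule.neg_mem_iff] at e1
      have e2 := lin_subst (a := a) (m := m) (D := D) (k := k) (evalRel m D l i r)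
      rw [List.isEmpty_iff] at h5
      rw [h5, lin_nil, sub_zero] at e2
      rw [e2] at e1
      have e3 := lin_split (a := a) (m := m) (S := S) (defect a m D k) s' (k + 1)
        (evalRel m D l i r) (by
          intro t ht
          rw [List.all_eq_true] at h3
          have := h3 t ht
          rw [Bool.or_eq_true, beq_iff_eq] at this
          rcases this with h | h
          · exact Or.inl h
          · exact Or.inr (hk _ (by simpa using h)))
      have e4 : coef s' (evalRel m D l i r) • defect a m D k s' ∈ NN a m S (k + 1) := by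
        have := Submodule.sub_mem _ e1 e3
        simpa using this
      exact NN_of_zsmul a m S (by simpa using h4) e4
    · exact hk s' hs'

lemma checkBs_sound (k : ℕ) (bs : List ℕ) : ∀ l : ℕ, (∀ j, bs.getD j 0 = (D k).bs.getD (l + j) 0) →
    checkBs m (D k) l bs = true → ∀ s ∈ bs, defect a m D k s ∈ NN a m S (k + 1) := by
  induction bs with
  | nil => intro l _ _ s hs; simp at hs
  | cons s bs ih =>
    intro l hl h s' hs'
    rw [checkBs, Bool.and_eq_true, beq_iff_eq] at h
    rcases List.mem_cons.1 hs' with rfl | hs'
    · have h0 := hl 0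
      simp only [List.getD_cons_zero, add_zero] at h0
      have e : defect a m D k s' = 0 := by
        rw [defect, h.1, lin_cons, lin_nil, add_zero, one_smul, sym, F, ← h0, sub_self]
      rw [e]; exact Submodule.zero_mem _
    · refine ih (l + 1) ?_ h.2 s' hs'
      intro j
      have := hl (j + 1)
      rw [List.getD_cons_succ] at this
      rw [this]; congr 1; omega

lemma goodLevel_of_check {k : ℕ} (hrel : ∀ r ∈ rels, ev a r = 0)
    (hg : ∀ l < k, GoodLevel a m S D l) (h : checkLevel m S D rels k = true) :
    GoodLevel a m S D k := by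
  rw [checkLevel] at h
  simp only [Bool.and_eq_true] at h
  obtain ⟨⟨⟨h1, h2⟩, h3⟩, h4⟩ := h
  have hbs := checkBs_sound (a := a) (m := m) (S := S) (D := D) k (D k).bs 0 (by simp) h2
  refine ⟨?_, ?_⟩
  · by_cases hk : k = 0
    · subst hk
      rw [if_pos rfl, Bool.and_eq_true, Bool.and_eq_true] at h4
      obtain ⟨⟨h5, h6⟩, h7⟩ := h4
      refine runSteps_sound hrel hg _ _ ?_ h7
      intro s hs
      rcases List.mem_append.1 hs with hs | hs
      · rw [List.all_eq_true] at h6
        have := h6 s hs
        rw [Bool.and_eq_true, List.isEmpty_iff] at this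
        have hsm : s < m := by simpa [Nat.blt_eq] using this.1
        rw [defect, sym, Nat.div_eq_of_lt hsm, Nat.mod_eq_of_lt hsm, this.2, lin_nil, sub_zero, F,
          one_mul]
        exact Submodule.subset_span ⟨s, hs, [], by simp, by simp, by simp⟩
      · exact hbs s hs
    · rw [if_neg hk] at h4
      exact runSteps_sound hrel hg _ _ hbs h4
  · intro j x t ht
    rw [Level.T, List.getD_eq_getElem?_getD, List.getD_eq_getElem?_getD] at ht
    rw [List.all_eq_true] at h3
    rcases lt_or_ge j (D k).tab.length with hlt | hge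
    · rw [List.getElem?_eq_getElem hlt, Option.getD_some] at ht
      have h5 := h3 _ (List.getElem_mem hlt)
      rw [List.all_eq_true] at h5
      rcases lt_or_ge x ((D k).tab[j]).length with hlt' | hge'
      · rw [List.getElem?_eq_getElem hlt', Option.getD_some] at ht
        have h6 := h5 _ (List.getElem_mem hlt')
        rw [List.all_eq_true] at h6
        simpa [Nat.blt_eq] using h6 t ht
      · rw [List.getElem?_eq_none hge'] at ht
        simp at ht
    · rw [List.getElem?_eq_none hge] at ht
      simp at ht

/-- If all levels below `K` are checked and level `K` is empty, every word of length `K` lies in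
the right ideal generated by the letters of `S`. -/
theorem word_mem_NN (hrel : ∀ r ∈ rels, ev a r = 0) (K : ℕ)
    (h : ∀ k < K, checkLevel m S D rels k = true) (h0 : (D 0).n = 1) (hK : (D K).n = 0)
    (u : List ℕ) (hu : u.length = K) (hx : ∀ x ∈ u, x < m) : wd a u ∈ NN a m S K := by
  have hg : ∀ k, k < K → GoodLevel a m S D k := by
    intro k
    induction k using Nat.strong_induction_on with
    | _ k ih =>
      intro hk
      exact goodLevel_of_check hrel (fun l hl => ih l hl (by omega)) (h k hk)
  have main : ∀ u : List ℕ, (∀ x ∈ u, x < m) → u.length ≤ K →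
      ∃ v : SV, (∀ t ∈ v, t.1 < (D u.length).n) ∧
        wd a u - lin (F a m D u.length) v ∈ NN a m S u.length := by
    intro u
    induction u using List.reverseRecOn with
    | nil =>
      intro _ _
      exact ⟨[(0, 1)], by simp [h0], by simp [F]⟩
    | append_singleton u x ih =>
      intro hx hlen
      rw [List.length_append, List.length_singleton] at hlen ⊢
      obtain ⟨v, hv, hz⟩ := ih (fun y hy => hx y (by simp [hy])) (by omega)
      have hx0 : x < m := hx x (by simp)
      obtain ⟨h1, h2⟩ := applyT_sound hx0 (hg u.length (by omega)) v hv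
      refine ⟨_, h2, ?_⟩
      have h3 := NN_mul a m S hz hx0
      have h4 := Submodule.add_mem _ h3 h1
      have e : (wd a u - lin (F a m D u.length) v) * a x + (lin (F a m D u.length) v * a x -
          lin (F a m D (u.length + 1)) (applyT (D u.length) x v)) =
          wd a (u ++ [x]) - lin (F a m D (u.length + 1)) (applyT (D u.length) x v) := by
        rw [wd_append, sub_mul]; simp
      rw [← e]; exact h4
  obtain ⟨v, hv, hz⟩ := main u hx hu.le
  rw [hu] at hv hz
  have : v = [] := by
    rcases v with _ | ⟨t, v⟩
    · rfl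
    · have := hv t (by simp)
      rw [hK] at this
      omega
  rw [this, lin_nil, sub_zero] at hz
  exact hz

/-- Nilpotency passes from the letters of `S` to all letters. -/
theorem nil_of_NN {K L : ℕ}
    (h : ∀ u : List ℕ, u.length = K → (∀ x ∈ u, x < m) → wd a u ∈ NN a m S K)
    (hS : ∀ u : List ℕ, u.length = L → (∀ x ∈ u, x ∈ S) → wd a u = 0)
    (u : List ℕ) (hu : K + L ≤ u.length + 1) (hx : ∀ x ∈ u, x < m) : wd a u = 0 := by
  have main : ∀ t d : ℕ, ∀ u : List ℕ, u.length = d → (∀ x ∈ u, x < m) → K + t ≤ d + 1 →
      wd a u ∈ Submodule.span ℚ {z | ∃ σ v : List ℕ, σ.length = t ∧ v.length + t = d ∧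
        (∀ x ∈ σ, x ∈ S) ∧ (∀ x ∈ v, x < m) ∧ z = wd a σ * wd a v} := by
    intro t
    induction t with
    | zero =>
      intro d u hu hx _
      exact Submodule.subset_span ⟨[], u, rfl, by simpa using hu, by simp, hx, by simp⟩
    | succ t ih =>
      intro d u hu hx hd
      have h1 := ih d u hu hx (by omega)
      refine Submodule.span_le.2 ?_ h1
      rintro z ⟨σ, v, hσ, hv, hσS, hvx, rfl⟩
      have hKv : K ≤ v.length := by omega
      have hv2 := h (v.take K) (by simp [hKv]) (fun x hx => hvx x (List.mem_of_mem_take hx))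
      have e : wd a v = wd a (v.take K) * wd a (v.drop K) := by
        rw [← wd_append, List.take_append_drop]
      rw [SetLike.mem_coe, e]
      refine Submodule.span_induction (p := fun z _ => wd a σ * (z * wd a (v.drop K)) ∈ _)
        ?_ ?_ ?_ ?_ hv2
      · rintro z ⟨s, hs, w, hw, hwx, rfl⟩
        refine Submodule.subset_span ⟨σ ++ [s], w ++ v.drop K, by simp [hσ], ?_, ?_, ?_, ?_⟩
        · rw [List.length_append, List.length_drop]; omega
        · intro x hx
          rw [List.mem_append, List.mem_singleton] at hx
          rcases hx with hx | rfl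
          · exact hσS x hx
          · exact hs
        · intro x hx
          rcases List.mem_append.1 hx with hx | hx
          · exact hwx x hx
          · exact hvx x (List.mem_of_mem_drop hx)
        · rw [wd_append, wd_append]; simp [mul_assoc]
      · simp
      · intro y z _ _ hy hz
        rw [add_mul, mul_add]; exact Submodule.add_mem _ hy hz
      · intro c y _ hy
        rw [smul_mul_assoc, mul_smul_comm]; exact Submodule.smul_mem _ _ hy
  have h1 := main L u.length u rfl hx hu
  have h2 : {z | ∃ σ v : List ℕ, σ.length = L ∧ v.length + L = u.length ∧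
        (∀ x ∈ σ, x ∈ S) ∧ (∀ x ∈ v, x < m) ∧ z = wd a σ * wd a v} ⊆ ({0} : Set R) := by
    rintro z ⟨σ, v, hσ, hv, hσS, hvx, rfl⟩
    rw [hS σ hσ hσS, zero_mul]; rfl
  have h3 := Submodule.span_mono h2 h1
  simpa using h3

end sound

end Pool.Agent.Lib.FK640.FinC
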