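import Pool.Agent.Lib.FK640.Basic

/-!
# Nilpotent generating spaces and straightening
-/

set_option autoImplicit false

namespace Pool.Agent.Lib.FK640.FinC

open Submodule

section general

variable {R : Type} [Ring R] [Algebra ℚ R]

/-- The ordered words of total length `d`. -/
def WW (A Y : Submodule ℚ R) (d : ℕ) : Submodule ℚ R :=
  ⨆ x : {x : ℕ × ℕ // x.1 + x.2 = d}, A ^ x.1.1 * Y ^ x.1.2

lemma le_WW (A Y : Submodule ℚ R) (p q : ℕ) : A ^ p * Y ^ q ≤ WW A Y (p + q) :=
  le_iSup (fun x : {x : ℕ × ℕ // x.1 + x.2 = p + q} => A ^ x.1.1 * Y ^ x.1.2) ⟨(p, q), rfl⟩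

lemma A_mul_WW (A Y : Submodule ℚ R) (d : ℕ) : A * WW A Y d ≤ WW A Y (d + 1) := by
  rw [WW, Submodule.mul_iSup]
  refine iSup_le ?_
  rintro ⟨⟨p, q⟩, h⟩
  have h' : p + q = d := h
  have : A * (A ^ p * Y ^ q) = A ^ (p + 1) * Y ^ q := by rw [← mul_assoc, ← pow_succ']
  show A * (A ^ p * Y ^ q) ≤ _
  rw [this]
  have h2 := le_WW A Y (p + 1) q
  have e : p + 1 + q = d + 1 := by omega
  rwa [e] at h2

lemma Y_mul_WW (A Y : Submodule ℚ R) (hYA : Y * A ≤ A * (A ⊔ Y)) (d : ℕ) :
    Y * WW A Y d ≤ WW A Y (d + 1) := by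
  have main : ∀ p q : ℕ, Y * (A ^ p * Y ^ q) ≤ WW A Y (p + q + 1) := by
    intro p
    induction p with
    | zero =>
      intro q
      have h := le_WW A Y 0 (q + 1)
      rw [pow_zero, one_mul] at h ⊢
      rw [← pow_succ']
      have e : 0 + q + 1 = 0 + (q + 1) := by omega
      rw [e]; exact h
    | succ p ih =>
      intro q
      have e1 : Y * (A ^ (p + 1) * Y ^ q) = (Y * A) * (A ^ p * Y ^ q) := by
        rw [pow_succ', mul_assoc, mul_assoc]
      rw [e1]
      refine (mul_le_mul' hYA le_rfl).trans ?_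
      rw [mul_assoc, Submodule.sup_mul, Submodule.mul_sup]
      refine sup_le ?_ ?_
      · have h := le_WW A Y (p + 2) q
        have e2 : A * (A * (A ^ p * Y ^ q)) = A ^ (p + 2) * Y ^ q := by
          rw [pow_succ', pow_succ', mul_assoc, mul_assoc]
        rw [e2]
        have e3 : p + 1 + q + 1 = p + 2 + q := by omega
        rw [e3]; exact h
      · refine (mul_le_mul' le_rfl (ih q)).trans ?_
        refine (A_mul_WW A Y _).trans ?_
        have e3 : p + q + 1 + 1 = p + 1 + q + 1 := by omega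
        rw [e3]
  rw [WW, Submodule.mul_iSup]
  refine iSup_le ?_
  rintro ⟨⟨p, q⟩, h⟩
  have h' : p + q = d := h
  have := main p q
  rw [h'] at this
  exact this

lemma pow_sup_le (A Y : Submodule ℚ R) (hYA : Y * A ≤ A * (A ⊔ Y)) (d : ℕ) :
    (A ⊔ Y) ^ d ≤ WW A Y d := by
  induction d with
  | zero =>
    have h := le_WW A Y 0 0
    simpa using h
  | succ d ih =>
    rw [pow_succ']
    refine (mul_le_mul' le_rfl ih).trans ?_
    rw [Submodule.sup_mul]
    exact sup_le (A_mul_WW A Y d) (Y_mul_WW A Y hYA d)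

lemma pow_eq_bot_of_le {A : Submodule ℚ R} {p q : ℕ} (h : p ≤ q) (hp : A ^ p = ⊥) : A ^ q = ⊥ := by
  obtain ⟨r, rfl⟩ := Nat.exists_eq_add_of_le h
  rw [pow_add, hp, Submodule.bot_mul]

/-- Straightening: nilpotency of `A` and `Y` gives nilpotency of `A ⊔ Y`. -/
theorem nil_sup (A Y : Submodule ℚ R) (hYA : Y * A ≤ A * (A ⊔ Y)) {p q : ℕ}
    (hA : A ^ (p + 1) = ⊥) (hY : Y ^ (q + 1) = ⊥) : (A ⊔ Y) ^ (p + q + 1) = ⊥ := by
  rw [eq_bot_iff]
  refine (pow_sup_le A Y hYA _).trans ?_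
  refine iSup_le ?_
  rintro ⟨⟨s, t⟩, h⟩
  have h' : s + t = p + q + 1 := h
  show A ^ s * Y ^ t ≤ ⊥
  rcases le_or_gt (p + 1) s with h1 | h1
  · rw [pow_eq_bot_of_le h1 hA, Submodule.bot_mul]
  · rw [pow_eq_bot_of_le (show q + 1 ≤ t by omega) hY, Submodule.mul_bot]

lemma mem_pow_of_closure (A : Set R) {x : R} (hx : x ∈ Submonoid.closure A) :
    ∃ d : ℕ, x ∈ (span ℚ A) ^ d := by
  induction hx using Submonoid.closure_induction_left with
  | one => exact ⟨0, by rw [pow_zero]; exact Submodule.one_le.mp le_rfl⟩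
  | mul_left x hx y hy ih =>
    obtain ⟨d, hd⟩ := ih
    refine ⟨d + 1, ?_⟩
    rw [pow_succ']
    exact Submodule.mul_mem_mul (Submodule.subset_span hx) hd

/-- A finite generating set with nilpotent span generates a finite-dimensional algebra. -/
theorem finite_of_nil (A : Set R) (hA : A.Finite) {L : ℕ} (h : (span ℚ A) ^ L = ⊥) :
    FiniteDimensional ℚ (Algebra.adjoin ℚ A) := by
  have h1 : Subalgebra.toSubmodule (Algebra.adjoin ℚ A) ≤ ⨆ d : Fin L, (span ℚ A) ^ (d : ℕ) := by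
    rw [Algebra.adjoin_eq_span, Submodule.span_le]
    intro x hx
    obtain ⟨d, hd⟩ := mem_pow_of_closure A hx
    rcases lt_or_ge d L with hlt | hge
    · exact (le_iSup (fun d : Fin L => (span ℚ A) ^ (d : ℕ)) ⟨d, hlt⟩) hd
    · rw [pow_eq_bot_of_le hge h] at hd
      rw [(Submodule.mem_bot ℚ).1 hd]
      exact Submodule.zero_mem _
  have h2 : (⨆ d : Fin L, (span ℚ A) ^ (d : ℕ)).FG :=
    Submodule.fg_iSup _ fun d => (Submodule.fg_span hA).pow _
  have h3 : FiniteDimensional ℚ (⨆ d : Fin L, (span ℚ A) ^ (d : ℕ) : Submodule ℚ R) :=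
    Module.Finite.iff_fg.2 h2
  have h4 := Submodule.finiteDimensional_of_le h1
  exact h4

end general

variable {N : ℕ}

/-- The generators attached to a family of vertices. -/
def KK (v : ℕ → Fin N) (k : ℕ) : Set (FK N) :=
  {y | ∃ i j, i < k ∧ j < k ∧ y = X (v i, v j)}

/-- The generators of the star with centre `c` and leaves `v 0, ..., v (k - 1)`. -/
def SS (c : Fin N) (v : ℕ → Fin N) (k : ℕ) : Set (FK N) :=
  {y | ∃ i, i < k ∧ y = X (c, v i)}

lemma straight (c : Fin N) (v : ℕ → Fin N) (k : ℕ) (hv : ∀ i < k, ∀ j < k, v i = v j → i = j)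
    (hc : ∀ i < k, v i ≠ c) :
    span ℚ (KK v k) * span ℚ (SS c v k) ≤
      span ℚ (SS c v k) * (span ℚ (SS c v k) ⊔ span ℚ (KK v k)) := by
  rw [Submodule.span_mul_span, Submodule.span_le]
  rintro z ⟨y, ⟨i, j, hi, hj, rfl⟩, a, ⟨l, hl, rfl⟩, rfl⟩
  have hS : ∀ l < k, (X (c, v l) : FK N) ∈ span ℚ (SS c v k) := fun l hl =>
    Submodule.subset_span ⟨l, hl, rfl⟩
  have hK : ∀ i < k, ∀ j < k, (X (v i, v j) : FK N) ∈ span ℚ (SS c v k) ⊔ span ℚ (KK v k) :=
    fun i hi j hj => Submodule.mem_sup_right (Submodule.subset_span ⟨i, j, hi, hj, rfl⟩)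
  have hS' : ∀ l < k, (X (c, v l) : FK N) ∈ span ℚ (SS c v k) ⊔ span ℚ (KK v k) := fun l hl =>
    Submodule.mem_sup_left (hS l hl)
  show (X (v i, v j) : FK N) * X (c, v l) ∈ _
  by_cases hij : i = j
  · subst hij
    have : (X (v i, v i) : FK N) = 0 := by simp [X]
    rw [this, zero_mul]; exact Submodule.zero_mem _
  have hvij : v i ≠ v j := fun h => hij (hv i hi j hj h)
  by_cases hli : l = i
  · subst hli
    have h := X_tri c (v j) (v l) (hc j hj).symm hvij.symm (hc l hl)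
    have e : (X (v l, v j) : FK N) * X (c, v l) =
        X (c, v j) * X (v l, v j) + X (c, v l) * X (c, v j) := by
      rw [X_anti (v l) (v j), X_anti c (v l)] at h
      rw [← sub_eq_zero, ← h]
      noncomm_ring
    rw [e]
    exact Submodule.add_mem _ (Submodule.mul_mem_mul (hS j hj) (hK l hl j hj))
      (Submodule.mul_mem_mul (hS l hl) (hS' j hj))
  by_cases hlj : l = j
  · subst hlj
    have h := X_tri c (v i) (v l) (hc i hi).symm hvij (hc l hl)
    have e : (X (v i, v l) : FK N) * X (c, v l) =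
        X (c, v i) * X (v i, v l) - X (c, v l) * X (c, v i) := by
      rw [X_anti c (v l)] at h
      have h' : X (c, v i) * X (v i, v l) - (X (v i, v l) : FK N) * X (c, v l) -
          X (c, v l) * X (c, v i) = 0 := by
        rw [← h]; noncomm_ring
      rw [← neg_eq_zero] at h'
      rw [← sub_eq_zero, ← h']
      abel
    rw [e]
    exact Submodule.sub_mem _ (Submodule.mul_mem_mul (hS i hi) (hK i hi l hl))
      (Submodule.mul_mem_mul (hS l hl) (hS' i hi))
  · have hil : v i ≠ v l := fun h => hli (hv i hi l hl h).symm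
    have hjl : v j ≠ v l := fun h => hlj (hv j hj l hl h).symm
    rw [X_comm (v i) (v j) c (v l) hvij (hc l hl).symm (hc i hi) hil (hc j hj) hjl]
    exact Submodule.mul_mem_mul (hS l hl) (hK i hi j hj)

lemma KK_succ (v : ℕ → Fin N) (k : ℕ) :
    span ℚ (KK v (k + 1)) ≤ span ℚ (SS (v k) v k) ⊔ span ℚ (KK v k) := by
  rw [Submodule.span_le]
  rintro y ⟨i, j, hi, hj, rfl⟩
  rcases Nat.lt_succ_iff_lt_or_eq.1 hi with hi | rfl
  · rcases Nat.lt_succ_iff_lt_or_eq.1 hj with hj | rfl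
    · exact Submodule.mem_sup_right (Submodule.subset_span ⟨i, j, hi, hj, rfl⟩)
    · rw [X_anti (v j) (v i)]
      exact Submodule.mem_sup_left (Submodule.neg_mem _ (Submodule.subset_span ⟨i, hi, rfl⟩))
  · rcases Nat.lt_succ_iff_lt_or_eq.1 hj with hj | rfl
    · exact Submodule.mem_sup_left (Submodule.subset_span ⟨j, hj, rfl⟩)
    · have : (X (v j, v j) : FK N) = 0 := by simp [X]
      rw [this]; exact Submodule.zero_mem _

/-- Nilpotency for a complete graph from nilpotency of the star of the last vertex. -/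
lemma nil_KK_succ (v : ℕ → Fin N) (k : ℕ) (hv : ∀ i < k + 1, ∀ j < k + 1, v i = v j → i = j)
    {p q : ℕ} (hA : span ℚ (SS (v k) v k) ^ (p + 1) = ⊥) (hY : span ℚ (KK v k) ^ (q + 1) = ⊥) :
    span ℚ (KK v (k + 1)) ^ (p + q + 1) = ⊥ := by
  have h := nil_sup _ _ (straight (v k) v k (fun i hi j hj => hv i (by omega) j (by omega))
    (fun i hi h => by have := hv i (by omega) k (by omega) h; omega)) hA hY
  rw [eq_bot_iff] at h ⊢
  exact (pow_le_pow_left' (KK_succ v k) _).trans h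

end Pool.Agent.Lib.FK640.FinC
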