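import Pool.Agent.Lib.FK640.Basic
import Pool.Agent.Lib.FK640.FinCert

/-!
# Relations between the generators of a star

If a polynomial vanishes on all stars, so does its image under the twisted derivation
`p ↦ x_{ij} p - s_{ij}(p) x_{ij}`.
-/

set_option autoImplicit false

namespace Pool.Agent.Lib.FK640.FinC

/-- The transposition `(i j)` on letters. -/
def sw (i j l : ℕ) : ℕ := if l = i then j else if l = j then i else l

/-- The twisted derivation on words. -/
def nabW (i j : ℕ) : List ℕ → Poly
  | [] => []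
  | l :: w => (if l = i then [(1, i :: j :: w)] else if l = j then [(-1, j :: i :: w)] else []) ++
     (nabW i j w).map fun t => (t.1, sw i j l :: t.2)

/-- Multiplication of a polynomial by an integer. -/
def scP (c : ℤ) (p : Poly) : Poly := p.map fun t => (c * t.1, t.2)

/-- The twisted derivation on polynomials. -/
def nab (i j : ℕ) : Poly → Poly
  | [] => []
  | (c, w) :: p => scP c (nabW i j w) ++ nab i j p

/-- Renaming of letters. -/
def ren (σ : ℕ → ℕ) (p : Poly) : Poly := p.map fun t => (t.1, t.2.map σ)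

/-- Words without equal neighbours. -/
def cleanW : List ℕ → Bool
  | [] => true
  | [_] => true
  | x :: y :: w => x != y && cleanW (y :: w)

/-- Insert a word with a coefficient. -/
def insP (c : ℤ) (w : List ℕ) : Poly → Poly
  | [] => [(c, w)]
  | (d, u) :: p => if w = u then (if c + d = 0 then p else (c + d, u) :: p)
      else (d, u) :: insP c w p

/-- Normalisation modulo the squares of the letters. -/
def norm : Poly → Poly
  | [] => []
  | (c, w) :: p => if cleanW w then insP c w (norm p) else norm p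

section ev

variable {R : Type} [Ring R] (a : ℕ → R)

lemma ev_scP (c : ℤ) (p : Poly) : ev a (scP c p) = c • ev a p := by
  induction p with
  | nil => simp [scP]
  | cons t p ih =>
    have : scP c (t :: p) = (c * t.1, t.2) :: scP c p := rfl
    rw [this, ev_cons, ih, ev_cons, smul_add, mul_smul]

lemma ev_insP (c : ℤ) (w : List ℕ) (p : Poly) : ev a (insP c w p) = c • wd a w + ev a p := by
  induction p with
  | nil => simp [insP]
  | cons t p ih =>
    obtain ⟨d, u⟩ := t
    unfold insP
    split_ifs with h1 h2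
    · subst h1
      rw [ev_cons, ← add_assoc, ← add_smul, h2]
      simp
    · subst h1
      rw [ev_cons, ev_cons, ← add_assoc, ← add_smul]
    · rw [ev_cons, ih, ev_cons]
      abel

lemma wd_eq_zero_of_not_clean {n : ℕ} (hsq : ∀ x < n, a x * a x = 0) (w : List ℕ)
    (hx : ∀ x ∈ w, x < n) (h : cleanW w = false) : wd a w = 0 := by
  induction w with
  | nil => simp [cleanW] at h
  | cons x w ih =>
    cases w with
    | nil => simp [cleanW] at h
    | cons y w =>
      rw [cleanW, Bool.and_eq_false_iff] at h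
      rcases h with h | h
      · have : x = y := by simpa using h
        subst this
        rw [wd_cons, wd_cons, ← mul_assoc, hsq x (hx x (by simp)), zero_mul]
      · rw [wd_cons, ih (fun z hz => hx z (by simp [hz])) h, mul_zero]

lemma ev_norm {n : ℕ} (hsq : ∀ x < n, a x * a x = 0) (p : Poly)
    (hx : ∀ t ∈ p, ∀ x ∈ t.2, x < n) : ev a (norm p) = ev a p := by
  induction p with
  | nil => simp [norm]
  | cons t p ih =>
    obtain ⟨c, w⟩ := t
    have ih' := ih fun t ht => hx t (by simp [ht])
    unfold norm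
    split_ifs with h
    · rw [ev_insP, ih', ev_cons]
    · rw [ih', ev_cons, wd_eq_zero_of_not_clean a hsq w (hx (c, w) (by simp)) (by simpa using h)]
      simp

lemma ev_ren (σ : ℕ → ℕ) (p : Poly) : ev a (ren σ p) = ev (fun i => a (σ i)) p := by
  induction p with
  | nil => simp [ren]
  | cons t p ih =>
    have : ren σ (t :: p) = (t.1, t.2.map σ) :: ren σ p := rfl
    rw [this, ev_cons, ih, ev_cons]
    simp [wd, Function.comp_def]

lemma wd_congr {a b : ℕ → R} {n : ℕ} (h : ∀ i < n, a i = b i) (w : List ℕ) (hw : ∀ x ∈ w, x < n) :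
    wd a w = wd b w := by
  induction w with
  | nil => rfl
  | cons x w ih =>
    rw [wd_cons, wd_cons, ih (fun z hz => hw z (by simp [hz])), h x (hw x (by simp))]

lemma ev_congr {a b : ℕ → R} {n : ℕ} (h : ∀ i < n, a i = b i) (p : Poly)
    (hp : ∀ t ∈ p, ∀ x ∈ t.2, x < n) : ev a p = ev b p := by
  induction p with
  | nil => rfl
  | cons t p ih =>
    rw [ev_cons, ev_cons, ih (fun t ht => hp t (by simp [ht])), wd_congr h t.2 (hp t (by simp))]

/-- Abstract twisted Leibniz rule. -/
lemma nabW_spec (y : R) (i j n : ℕ) (h1 : y * a i = a j * y + a i * a j)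
    (h2 : y * a j = a i * y - a j * a i)
    (h3 : ∀ k < n, k ≠ i → k ≠ j → y * a k = a k * y) (w : List ℕ) (hw : ∀ x ∈ w, x < n) :
    y * wd a w = wd (fun l => a (sw i j l)) w * y + ev a (nabW i j w) := by
  induction w with
  | nil => simp [nabW]
  | cons l w ih =>
    have ih' := ih fun z hz => hw z (by simp [hz])
    have hmap : ∀ (x : ℕ) (p : Poly), ev a (p.map fun t => (t.1, x :: t.2)) = a x * ev a p := by
      intro x p
      induction p with
      | nil => simp
      | cons t p ih => rw [List.map_cons, ev_cons, ih, ev_cons, wd_cons, mul_add, mul_smul_comm]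
    rw [nabW, ev_append, hmap, wd_cons, wd_cons, ← mul_assoc]
    by_cases hi : l = i
    · subst hi
      rw [h1, add_mul, mul_assoc, ih']
      simp only [sw, if_true, ev_cons, ev_nil, wd_cons, one_smul]
      noncomm_ring
    · by_cases hj : l = j
      · subst hj
        rw [h2, sub_mul, mul_assoc, ih']
        simp only [sw, if_neg hi, if_true, ev_cons, ev_nil, wd_cons]
        noncomm_ring
      · rw [h3 l (hw l (by simp)) hi hj, mul_assoc, ih']
        simp only [sw, if_neg hi, if_neg hj, ev_nil]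
        noncomm_ring

lemma nab_spec (y : R) (i j n : ℕ) (h1 : y * a i = a j * y + a i * a j)
    (h2 : y * a j = a i * y - a j * a i)
    (h3 : ∀ k < n, k ≠ i → k ≠ j → y * a k = a k * y) (p : Poly)
    (hp : ∀ t ∈ p, ∀ x ∈ t.2, x < n) :
    y * ev a p = ev (fun l => a (sw i j l)) p * y + ev a (nab i j p) := by
  induction p with
  | nil => simp [nab]
  | cons t p ih =>
    obtain ⟨c, w⟩ := t
    rw [nab, ev_append, ev_scP, ev_cons, ev_cons, mul_add, ih fun t ht => hp t (by simp [ht]),
      mul_smul_comm, nabW_spec a y i j n h1 h2 h3 w (hp (c, w) (by simp))]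
    rw [smul_add, add_mul, smul_mul_assoc]
    abel

end ev

lemma sw_lt {i j l n : ℕ} (hi : i < n) (hj : j < n) (hl : l < n) : sw i j l < n := by
  unfold sw; split_ifs <;> assumption

lemma mem_nabW {i j n : ℕ} (hi : i < n) (hj : j < n) (w : List ℕ) (hw : ∀ x ∈ w, x < n) :
    ∀ t ∈ nabW i j w, ∀ x ∈ t.2, x < n := by
  induction w with
  | nil => intro t ht; simp [nabW] at ht
  | cons l w ih =>
    have hl : l < n := hw l (by simp)
    have hw' : ∀ x ∈ w, x < n := fun z hz => hw z (by simp [hz])
    have ih' := ih hw'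
    intro t ht
    rw [nabW, List.mem_append] at ht
    rcases ht with ht | ht
    · split_ifs at ht with h1 h2
      · rw [List.mem_singleton] at ht
        subst ht
        intro x hx
        simp only [List.mem_cons] at hx
        rcases hx with rfl | rfl | hx
        · exact hi
        · exact hj
        · exact hw' x hx
      · rw [List.mem_singleton] at ht
        subst ht
        intro x hx
        simp only [List.mem_cons] at hx
        rcases hx with rfl | rfl | hx
        · exact hj
        · exact hi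
        · exact hw' x hx
      · simp at ht
    · rw [List.mem_map] at ht
      obtain ⟨s, hs, rfl⟩ := ht
      intro x hx
      rcases List.mem_cons.1 hx with rfl | hx
      · exact sw_lt hi hj hl
      · exact ih' s hs x hx

lemma mem_nab {i j n : ℕ} (hi : i < n) (hj : j < n) (p : Poly)
    (hp : ∀ t ∈ p, ∀ x ∈ t.2, x < n) : ∀ t ∈ nab i j p, ∀ x ∈ t.2, x < n := by
  induction p with
  | nil => intro t ht; simp [nab] at ht
  | cons s p ih =>
    obtain ⟨c, w⟩ := s
    intro t ht
    rw [nab, List.mem_append] at ht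
    rcases ht with ht | ht
    · rw [scP, List.mem_map] at ht
      obtain ⟨s, hs, rfl⟩ := ht
      exact mem_nabW hi hj w (hp (c, w) (by simp)) s hs
    · exact ih (fun t ht => hp t (by simp [ht])) t ht

lemma mem_insP {c : ℤ} {w : List ℕ} {p : Poly} {n : ℕ} (hw : ∀ x ∈ w, x < n)
    (hp : ∀ t ∈ p, ∀ x ∈ t.2, x < n) : ∀ t ∈ insP c w p, ∀ x ∈ t.2, x < n := by
  induction p with
  | nil => intro t ht; rw [insP, List.mem_singleton] at ht; subst ht; exact hw
  | cons s p ih =>
    obtain ⟨d, u⟩ := s
    have hu : ∀ x ∈ u, x < n := hp (d, u) (by simp)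
    have hp' : ∀ t ∈ p, ∀ x ∈ t.2, x < n := fun t ht => hp t (by simp [ht])
    intro t ht
    unfold insP at ht
    split_ifs at ht
    · exact hp' t ht
    · rcases List.mem_cons.1 ht with rfl | ht
      · exact hu
      · exact hp' t ht
    · rcases List.mem_cons.1 ht with rfl | ht
      · exact hu
      · exact ih hp' t ht

lemma mem_norm {p : Poly} {n : ℕ} (hp : ∀ t ∈ p, ∀ x ∈ t.2, x < n) :
    ∀ t ∈ norm p, ∀ x ∈ t.2, x < n := by
  induction p with
  | nil => intro t ht; simp [norm] at ht
  | cons s p ih =>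
    obtain ⟨d, u⟩ := s
    have hu : ∀ x ∈ u, x < n := hp (d, u) (by simp)
    have ih' := ih fun t ht => hp t (by simp [ht])
    unfold norm
    split_ifs
    · exact mem_insP hu ih'
    · exact ih'

/-- A polynomial in `n` letters which vanishes on all stars with `n` leaves. -/
def Good (N n : ℕ) (p : Poly) : Prop :=
  (∀ t ∈ p, ∀ x ∈ t.2, x < n) ∧
  ∀ (c : Fin N) (ℓ : ℕ → Fin N), (∀ i < n, ∀ j < n, ℓ i = ℓ j → i = j) → (∀ i < n, ℓ i ≠ c) →
    ev (fun i => X (c, ℓ i)) p = 0

variable {N n : ℕ}

lemma good_sq {i : ℕ} (hi : i < n) : Good N n [(1, [i, i])] := by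
  refine ⟨?_, ?_⟩
  · intro t ht x hx
    rw [List.mem_singleton] at ht
    subst ht
    simp only [List.mem_cons, List.not_mem_nil, or_false, or_self] at hx
    rw [hx]; exact hi
  · intro c ℓ _ _
    rw [ev_cons, ev_nil, wd_cons, wd_cons, wd_nil, mul_one, X_sq]
    simp

lemma cross1 (c i j : Fin N) (hij : i ≠ j) (hi : i ≠ c) (hj : j ≠ c) :
    (X (i, j) : FK N) * X (c, i) = X (c, j) * X (i, j) + X (c, i) * X (c, j) := by
  have h := X_tri c j i hj.symm hij.symm hi
  rw [X_anti i j, X_anti c i] at h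
  have e : (X (i, j) : FK N) * X (c, i) - (X (c, j) * X (i, j) + X (c, i) * X (c, j)) =
      X (c, j) * -X (i, j) + -X (i, j) * -X (c, i) + -X (c, i) * X (c, j) := by
    noncomm_ring
  rw [← sub_eq_zero, e, h]

lemma cross2 (c i j : Fin N) (hij : i ≠ j) (hi : i ≠ c) (hj : j ≠ c) :
    (X (i, j) : FK N) * X (c, j) = X (c, i) * X (i, j) - X (c, j) * X (c, i) := by
  have h := cross1 c j i hij.symm hj hi
  rw [X_anti i j] at h
  have e : (X (i, j) : FK N) * X (c, j) - (X (c, i) * X (i, j) - X (c, j) * X (c, i)) =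
      -(-X (i, j) * X (c, j) - (X (c, i) * -X (i, j) + X (c, j) * X (c, i))) := by
    noncomm_ring
  rw [← sub_eq_zero, e, h, sub_self, neg_zero]

lemma cross3 (c i j k : Fin N) (hij : i ≠ j) (hi : i ≠ c) (hj : j ≠ c) (hk : k ≠ c) (hki : k ≠ i)
    (hkj : k ≠ j) : (X (i, j) : FK N) * X (c, k) = X (c, k) * X (i, j) :=
  X_comm i j c k hij hk.symm hi hki.symm hj hkj.symm

lemma good_nab {i j : ℕ} (hi : i < n) (hj : j < n) (hij : i ≠ j) {p : Poly} (hp : Good N n p) :
    Good N n (nab i j p) := by
  refine ⟨mem_nab hi hj p hp.1, ?_⟩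
  intro c ℓ hinj hc
  have hij' : ℓ i ≠ ℓ j := fun h => hij (hinj i hi j hj h)
  have h := nab_spec (fun i => (X (c, ℓ i) : FK N)) (X (ℓ i, ℓ j)) i j n
    (cross1 c (ℓ i) (ℓ j) hij' (hc i hi) (hc j hj)) (cross2 c (ℓ i) (ℓ j) hij' (hc i hi) (hc j hj))
    (fun k hk hki hkj => cross3 c (ℓ i) (ℓ j) (ℓ k) hij' (hc i hi) (hc j hj) (hc k hk)
      (fun h => hki (hinj k hk i hi h)) (fun h => hkj (hinj k hk j hj h))) p hp.1
  have h2 : ev (fun l => (X (c, ℓ (sw i j l)) : FK N)) p = 0 := by
    refine hp.2 c (fun l => ℓ (sw i j l)) ?_ ?_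
    · intro k hk l hl hkl
      have := hinj _ (sw_lt hi hj hk) _ (sw_lt hi hj hl) hkl
      unfold sw at this
      split_ifs at this <;> simp_all
    · intro k hk
      exact hc _ (sw_lt hi hj hk)
  rw [hp.2 c ℓ hinj hc, h2, mul_zero, zero_mul, zero_add] at h
  exact h.symm

lemma good_norm {p : Poly} (hp : Good N n p) : Good N n (norm p) := by
  refine ⟨mem_norm hp.1, ?_⟩
  intro c ℓ hinj hc
  rw [ev_norm _ (n := n) (fun x _ => X_sq _) p hp.1]
  exact hp.2 c ℓ hinj hc

lemma good_ren {p : Poly} (hp : Good N n p) (σ : ℕ → ℕ) (hσ : ∀ i < n, σ i < n)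
    (hinjσ : ∀ i < n, ∀ j < n, σ i = σ j → i = j) : Good N n (ren σ p) := by
  refine ⟨?_, ?_⟩
  · intro t ht x hx
    rw [ren, List.mem_map] at ht
    obtain ⟨s, hs, rfl⟩ := ht
    rw [List.mem_map] at hx
    obtain ⟨y, hy, rfl⟩ := hx
    exact hσ y (hp.1 s hs y hy)
  · intro c ℓ hinj hc
    rw [ev_ren]
    refine hp.2 c (fun i => ℓ (σ i)) ?_ fun i hi => hc _ (hσ i hi)
    intro i hi j hj h
    exact hinjσ i hi j hj (hinj _ (hσ i hi) _ (hσ j hj) h)

end Pool.Agent.Lib.FK640.FinC
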