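import Pool.Agent.Lib.FK640.FinData4
import Pool.Agent.Lib.FK640.FinStar
import Pool.Agent.Lib.FK640.FinNil

/-!
# Stars with at most four leaves and the complete graph on five vertices are nilpotent
-/

set_option autoImplicit false

namespace Pool.Agent.Lib.FK640.FinC

open Submodule

/-- Levels as a function. -/
def D4 (k : ℕ) : Level := lev4.getD k Level.zero
/-- Levels as a function. -/
def D3 (k : ℕ) : Level := lev3.getD k Level.zero
/-- Levels as a function. -/
def D2 (k : ℕ) : Level := lev2.getD k Level.zero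

theorem check4 : ((List.range 21).all fun k => checkLevel 4 [0, 1, 2] D4 rels4 k) = true := by
  decide +kernel

theorem check3 : ((List.range 6).all fun k => checkLevel 3 [0, 1] D3 rels3 k) = true := by
  decide +kernel

theorem check2 : ((List.range 3).all fun k => checkLevel 2 [0] D2 rels2 k) = true := by
  decide +kernel

/-- The base relations. -/
def bp : List Poly :=
  let p0 : Poly := [(1, [0, 0])]
  let p1 := norm (nab 0 1 p0)
  let p2 := norm (nab 0 2 p1)
  let p3 := norm (nab 0 3 p2)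
  let p4 := norm (nab 0 2 p3)
  [p0, p1, p2, p3, p4]

theorem base4_eq : base4 = bp := by decide +kernel

variable {N : ℕ}

lemma good_base (n : ℕ) (hn : 2 ≤ n) : ∀ b, (b < 2 ∨ 3 ≤ n ∧ b < 3 ∨ 4 ≤ n) →
    Good N n (base4.getD b []) := by
  have h0 : Good N n [(1, [0, 0])] := good_sq (by omega)
  have h1 := good_norm (good_nab (show 0 < n by omega) (show 1 < n by omega) (by decide) h0)
  have hnil : Good N n [] := ⟨by simp, by simp⟩
  rw [base4_eq]
  intro b hb
  rcases Nat.lt_or_ge b 2 with hb2 | hb2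
  · interval_cases b
    · exact h0
    · exact h1
  · have h2 := good_norm (good_nab (show 0 < n by omega) (show 2 < n by omega) (by decide) h1)
    rcases Nat.lt_or_ge b 3 with hb3 | hb3
    · have : b = 2 := by omega
      subst this
      exact h2
    · have hn4 : 4 ≤ n := by omega
      have h3 := good_norm (good_nab (show 0 < n by omega) (show 3 < n by omega) (by decide) h2)
      have h4 := good_norm (good_nab (show 0 < n by omega) (show 2 < n by omega) (by decide) h3)
      rcases Nat.lt_or_ge b 5 with hb5 | hb5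
      · interval_cases b
        · exact h3
        · exact h4
      · have : bp.getD b [] = [] := by
          rw [List.getD_eq_getElem?_getD, List.getElem?_eq_none (by simpa [bp] using hb5)]
          rfl
        rw [this]; exact hnil

/-- Renamings which are injections of `{0, ..., n - 1}`. -/
def okPerm (n : ℕ) (s : List ℕ) : Bool :=
  (List.range n).all fun i => Nat.blt (s.getD i 0) n &&
    (List.range n).all fun j => (s.getD i 0 != s.getD j 0 || i == j)

lemma good_spec (n : ℕ) (s : List ℕ) (hs : okPerm n s = true) {p : Poly} (hp : Good N n p) :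
    Good N n (ren (fun i => s.getD i 0) p) := by
  have h : ∀ i < n, s.getD i 0 < n ∧ ∀ j < n, s.getD i 0 = s.getD j 0 → i = j := by
    intro i hi
    rw [okPerm, List.all_eq_true] at hs
    have h1 := hs i (List.mem_range.2 hi)
    rw [Bool.and_eq_true, List.all_eq_true] at h1
    refine ⟨by simpa [Nat.blt_eq] using h1.1, fun j hj hij => ?_⟩
    have h2 := h1.2 j (List.mem_range.2 hj)
    rw [Bool.or_eq_true, bne_iff_ne, beq_iff_eq] at h2
    exact h2.resolve_left (not_not.2 hij)
  exact good_ren hp _ (fun i hi => (h i hi).1) fun i hi j hj hij => (h i hi).2 j hj hij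

theorem specs4_ok : (specs4.all fun s => okPerm 4 s.2) = true := by decide +kernel
theorem specs3_ok : (specs3.all fun s => okPerm 3 s.2 && Nat.blt s.1 3) = true := by
  decide +kernel
theorem specs2_ok : (specs2.all fun s => okPerm 2 s.2 && Nat.blt s.1 2) = true := by
  decide +kernel

theorem rels4_eq : rels4 = specs4.map fun s => ren (fun i => s.2.getD i 0) (base4.getD s.1 []) := by
  decide +kernel
theorem rels3_eq : rels3 = specs3.map fun s => ren (fun i => s.2.getD i 0) (base4.getD s.1 []) := by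
  decide +kernel
theorem rels2_eq : rels2 = specs2.map fun s => ren (fun i => s.2.getD i 0) (base4.getD s.1 []) := by
  decide +kernel

lemma good_rels4 : ∀ r ∈ rels4, Good N 4 r := by
  rw [rels4_eq]
  intro r hr
  rw [List.mem_map] at hr
  obtain ⟨s, hs, rfl⟩ := hr
  have := List.all_eq_true.1 specs4_ok s hs
  exact good_spec 4 s.2 this (good_base 4 (by norm_num) _ (Or.inr (Or.inr le_rfl)))

lemma good_rels3 : ∀ r ∈ rels3, Good N 3 r := by
  rw [rels3_eq]
  intro r hr
  rw [List.mem_map] at hr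
  obtain ⟨s, hs, rfl⟩ := hr
  have := List.all_eq_true.1 specs3_ok s hs
  rw [Bool.and_eq_true] at this
  exact good_spec 3 s.2 this.1 (good_base 3 (by norm_num) _
    (Or.inr (Or.inl ⟨le_rfl, by simpa [Nat.blt_eq] using this.2⟩)))

lemma good_rels2 : ∀ r ∈ rels2, Good N 2 r := by
  rw [rels2_eq]
  intro r hr
  rw [List.mem_map] at hr
  obtain ⟨s, hs, rfl⟩ := hr
  have := List.all_eq_true.1 specs2_ok s hs
  rw [Bool.and_eq_true] at this
  exact good_spec 2 s.2 this.1 (good_base 2 (by norm_num) _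
    (Or.inl (by simpa [Nat.blt_eq] using this.2)))

lemma check_all {m : ℕ} {S : List ℕ} {D : ℕ → Level} {rels : List Poly} {K : ℕ}
    (h : ((List.range K).all fun k => checkLevel m S D rels k) = true) :
    ∀ k < K, checkLevel m S D rels k = true := fun k hk =>
  List.all_eq_true.1 h k (List.mem_range.2 hk)

lemma words1 (c : Fin N) (v : ℕ → Fin N) (u : List ℕ) (hu : 2 ≤ u.length)
    (hx : ∀ x ∈ u, x < 1) : wd (fun i => (X (c, v i) : FK N)) u = 0 := by
  match u, hu, hx with
  | x :: y :: u, _, hx =>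
    have h1 : x = 0 := by have := hx x (by simp); omega
    have h2 : y = 0 := by have := hx y (by simp); omega
    subst h1; subst h2
    rw [wd_cons, wd_cons, ← mul_assoc, X_sq, zero_mul]

lemma words2 (c : Fin N) (v : ℕ → Fin N) (hv : ∀ i < 2, ∀ j < 2, v i = v j → i = j)
    (hc : ∀ i < 2, v i ≠ c) (u : List ℕ) (hu : 4 ≤ u.length)
    (hx : ∀ x ∈ u, x < 2) : wd (fun i => (X (c, v i) : FK N)) u = 0 := by
  refine nil_of_NN (K := 3) (L := 2) (m := 2) (S := [0]) ?_ ?_ u (by omega) hx
  · exact word_mem_NN (fun r hr => (good_rels2 r hr).2 c v hv hc) 3 (check_all check2)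
      (by decide) (by decide)
  · intro u hu hx
    exact words1 c v u hu.ge fun x h => by have := hx x h; simp at this; omega

lemma words3 (c : Fin N) (v : ℕ → Fin N) (hv : ∀ i < 3, ∀ j < 3, v i = v j → i = j)
    (hc : ∀ i < 3, v i ≠ c) (u : List ℕ) (hu : 9 ≤ u.length)
    (hx : ∀ x ∈ u, x < 3) : wd (fun i => (X (c, v i) : FK N)) u = 0 := by
  refine nil_of_NN (K := 6) (L := 4) (m := 3) (S := [0, 1]) ?_ ?_ u (by omega) hx
  · exact word_mem_NN (fun r hr => (good_rels3 r hr).2 c v hv hc) 6 (check_all check3)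
      (by decide) (by decide)
  · intro u hu hx
    exact words2 c v (fun i hi j hj => hv i (by omega) j (by omega)) (fun i hi => hc i (by omega))
      u hu.ge fun x h => by have := hx x h; simp at this; omega

lemma words4 (c : Fin N) (v : ℕ → Fin N) (hv : ∀ i < 4, ∀ j < 4, v i = v j → i = j)
    (hc : ∀ i < 4, v i ≠ c) (u : List ℕ) (hu : 29 ≤ u.length)
    (hx : ∀ x ∈ u, x < 4) : wd (fun i => (X (c, v i) : FK N)) u = 0 := by
  refine nil_of_NN (K := 21) (L := 9) (m := 4) (S := [0, 1, 2]) ?_ ?_ u (by omega) hx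
  · exact word_mem_NN (fun r hr => (good_rels4 r hr).2 c v hv hc) 21 (check_all check4)
      (by decide) (by decide)
  · intro u hu hx
    exact words3 c v (fun i hi j hj => hv i (by omega) j (by omega)) (fun i hi => hc i (by omega))
      u hu.ge fun x h => by have := hx x h; simp at this; omega

lemma pow_le_words {R : Type} [Ring R] [Algebra ℚ R] (a : ℕ → R) (k L : ℕ) :
    (span ℚ {y | ∃ i, i < k ∧ y = a i}) ^ L ≤
      span ℚ {y | ∃ u : List ℕ, u.length = L ∧ (∀ x ∈ u, x < k) ∧ y = wd a u} := by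
  induction L with
  | zero =>
    rw [pow_zero, Submodule.one_le]
    exact Submodule.subset_span ⟨[], rfl, by simp, rfl⟩
  | succ L ih =>
    rw [pow_succ']
    refine (mul_le_mul' le_rfl ih).trans ?_
    rw [Submodule.span_mul_span, Submodule.span_le]
    rintro z ⟨y, ⟨i, hi, rfl⟩, w, ⟨u, hu, hx, rfl⟩, rfl⟩
    refine Submodule.subset_span ⟨i :: u, by simp [hu], ?_, by simp⟩
    intro x hx'
    rcases List.mem_cons.1 hx' with rfl | hx'
    · exact hi
    · exact hx x hx'

lemma pow_eq_bot_of_words {R : Type} [Ring R] [Algebra ℚ R] (a : ℕ → R) (k L : ℕ)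
    (h : ∀ u : List ℕ, L ≤ u.length → (∀ x ∈ u, x < k) → wd a u = 0) :
    (span ℚ {y | ∃ i, i < k ∧ y = a i}) ^ L = ⊥ := by
  rw [eq_bot_iff]
  refine (pow_le_words a k L).trans ?_
  rw [Submodule.span_le]
  rintro y ⟨u, hu, hx, rfl⟩
  rw [h u hu.ge hx]
  exact Submodule.zero_mem _

theorem nil_star4 (c : Fin N) (v : ℕ → Fin N) (hv : ∀ i < 4, ∀ j < 4, v i = v j → i = j)
    (hc : ∀ i < 4, v i ≠ c) : span ℚ (SS c v 4) ^ 29 = ⊥ :=
  pow_eq_bot_of_words _ 4 29 (words4 c v hv hc)

theorem nil_star3 (c : Fin N) (v : ℕ → Fin N) (hv : ∀ i < 3, ∀ j < 3, v i = v j → i = j)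
    (hc : ∀ i < 3, v i ≠ c) : span ℚ (SS c v 3) ^ 9 = ⊥ :=
  pow_eq_bot_of_words _ 3 9 (words3 c v hv hc)

theorem nil_star2 (c : Fin N) (v : ℕ → Fin N) (hv : ∀ i < 2, ∀ j < 2, v i = v j → i = j)
    (hc : ∀ i < 2, v i ≠ c) : span ℚ (SS c v 2) ^ 4 = ⊥ :=
  pow_eq_bot_of_words _ 2 4 (words2 c v hv hc)

theorem nil_star1 (c : Fin N) (v : ℕ → Fin N) : span ℚ (SS c v 1) ^ 2 = ⊥ :=
  pow_eq_bot_of_words _ 1 2 (words1 c v)

theorem nil_KK1 (v : ℕ → Fin N) : span ℚ (KK v 1) ^ 1 = ⊥ := by
  rw [pow_one, Submodule.span_eq_bot]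
  rintro y ⟨i, j, hi, hj, rfl⟩
  have h1 : i = 0 := by omega
  have h2 : j = 0 := by omega
  subst h1; subst h2
  simp [X]

theorem nil_KK2 (v : ℕ → Fin N) (hv : ∀ i < 2, ∀ j < 2, v i = v j → i = j) :
    span ℚ (KK v 2) ^ 2 = ⊥ :=
  nil_KK_succ v 1 hv (p := 1) (q := 0) (nil_star1 _ v) (nil_KK1 v)

theorem nil_KK3 (v : ℕ → Fin N) (hv : ∀ i < 3, ∀ j < 3, v i = v j → i = j) :
    span ℚ (KK v 3) ^ 5 = ⊥ :=
  nil_KK_succ v 2 hv (p := 3) (q := 1)
    (nil_star2 _ v (fun i hi j hj => hv i (by omega) j (by omega))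
      (fun i hi h => by have := hv i (by omega) 2 (by omega) h; omega))
    (nil_KK2 v (fun i hi j hj => hv i (by omega) j (by omega)))

theorem nil_KK4 (v : ℕ → Fin N) (hv : ∀ i < 4, ∀ j < 4, v i = v j → i = j) :
    span ℚ (KK v 4) ^ 13 = ⊥ :=
  nil_KK_succ v 3 hv (p := 8) (q := 4)
    (nil_star3 _ v (fun i hi j hj => hv i (by omega) j (by omega))
      (fun i hi h => by have := hv i (by omega) 3 (by omega) h; omega))
    (nil_KK3 v (fun i hi j hj => hv i (by omega) j (by omega)))

/-- Every product of 41 generators of the complete graph on five vertices vanishes. -/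
theorem nil_KK5 (v : ℕ → Fin N) (hv : ∀ i < 5, ∀ j < 5, v i = v j → i = j) :
    span ℚ (KK v 5) ^ 41 = ⊥ :=
  nil_KK_succ v 4 hv (p := 28) (q := 12)
    (nil_star4 _ v (fun i hi j hj => hv i (by omega) j (by omega))
      (fun i hi h => by have := hv i (by omega) 4 (by omega) h; omega))
    (nil_KK4 v (fun i hi j hj => hv i (by omega) j (by omega)))

end Pool.Agent.Lib.FK640.FinC
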