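import Pool.Agent.Lib.FK640.FinCert

/-!
# Certificate data for stars with at most four leaves
-/

set_option autoImplicit false

namespace Pool.Agent.Lib.FK640.FinC

/-- Base relations. -/
def base4 : List Poly := [
  [(1, [0, 0])],
  [(1, [1, 0, 1]), (1, [0, 1, 0])],
  [(1, [2, 1, 0, 2]), (1, [0, 2, 1, 0]), (1, [1, 0, 2, 1])],
  [(1, [1, 0, 3, 2, 1]), (1, [3, 2, 1, 0, 3]), (1, [0, 3, 2, 1, 0]), (1, [2, 1, 0, 3, 2])],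
  [(-1, [0, 1, 2, 3, 2, 0]), (1, [0, 1, 0, 2, 3, 2]), (-1, [2, 0, 1, 0, 3, 2]), (1, [2, 3, 0, 1, 0, 2]), (-1, [2, 3, 2, 0, 1, 0]), (1, [0, 2, 3, 2, 1, 0]), (1, [3, 0, 1, 0, 2, 3]), (-1, [3, 2, 0, 1, 0, 3]), (-1, [1, 2, 3, 2, 0, 1]), (1, [1, 0, 2, 3, 2, 1])]]

/-- Indices and renamings of the relations. -/
def specs4 : List (ℕ × List ℕ) := [
  (0, [0, 1, 2, 3]),
  (0, [1, 0, 2, 3]),
  (0, [2, 0, 1, 3]),
  (0, [3, 0, 1, 2]),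
  (1, [0, 1, 2, 3]),
  (1, [0, 2, 1, 3]),
  (1, [0, 3, 1, 2]),
  (1, [1, 2, 0, 3]),
  (1, [1, 3, 0, 2]),
  (1, [2, 3, 0, 1]),
  (2, [0, 1, 2, 3]),
  (2, [0, 1, 3, 2]),
  (2, [0, 2, 1, 3]),
  (2, [0, 2, 3, 1]),
  (2, [0, 3, 1, 2]),
  (2, [0, 3, 2, 1]),
  (2, [1, 2, 3, 0]),
  (2, [1, 3, 2, 0]),
  (3, [0, 1, 2, 3]),
  (3, [0, 1, 3, 2]),
  (3, [0, 2, 1, 3]),
  (3, [0, 2, 3, 1]),
  (3, [0, 3, 1, 2]),
  (3, [0, 3, 2, 1]),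
  (4, [0, 1, 2, 3]),
  (4, [0, 1, 3, 2]),
  (4, [0, 2, 1, 3]),
  (4, [0, 2, 3, 1]),
  (4, [0, 3, 1, 2]),
  (4, [0, 3, 2, 1]),
  (4, [1, 0, 2, 3]),
  (4, [1, 0, 3, 2]),
  (4, [1, 2, 3, 0]),
  (4, [1, 3, 2, 0]),
  (4, [2, 0, 3, 1]),
  (4, [2, 1, 3, 0])]

/-- The relations. -/
def rels4 : List Poly := [
  [(1, [0, 0])],
  [(1, [1, 1])],
  [(1, [2, 2])],
  [(1, [3, 3])],
  [(1, [1, 0, 1]), (1, [0, 1, 0])],
  [(1, [2, 0, 2]), (1, [0, 2, 0])],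
  [(1, [3, 0, 3]), (1, [0, 3, 0])],
  [(1, [2, 1, 2]), (1, [1, 2, 1])],
  [(1, [3, 1, 3]), (1, [1, 3, 1])],
  [(1, [3, 2, 3]), (1, [2, 3, 2])],
  [(1, [2, 1, 0, 2]), (1, [0, 2, 1, 0]), (1, [1, 0, 2, 1])],
  [(1, [3, 1, 0, 3]), (1, [0, 3, 1, 0]), (1, [1, 0, 3, 1])],
  [(1, [1, 2, 0, 1]), (1, [0, 1, 2, 0]), (1, [2, 0, 1, 2])],
  [(1, [3, 2, 0, 3]), (1, [0, 3, 2, 0]), (1, [2, 0, 3, 2])],
  [(1, [1, 3, 0, 1]), (1, [0, 1, 3, 0]), (1, [3, 0, 1, 3])],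
  [(1, [2, 3, 0, 2]), (1, [0, 2, 3, 0]), (1, [3, 0, 2, 3])],
  [(1, [3, 2, 1, 3]), (1, [1, 3, 2, 1]), (1, [2, 1, 3, 2])],
  [(1, [2, 3, 1, 2]), (1, [1, 2, 3, 1]), (1, [3, 1, 2, 3])],
  [(1, [1, 0, 3, 2, 1]), (1, [3, 2, 1, 0, 3]), (1, [0, 3, 2, 1, 0]), (1, [2, 1, 0, 3, 2])],
  [(1, [1, 0, 2, 3, 1]), (1, [2, 3, 1, 0, 2]), (1, [0, 2, 3, 1, 0]), (1, [3, 1, 0, 2, 3])],
  [(1, [2, 0, 3, 1, 2]), (1, [3, 1, 2, 0, 3]), (1, [0, 3, 1, 2, 0]), (1, [1, 2, 0, 3, 1])],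
  [(1, [2, 0, 1, 3, 2]), (1, [1, 3, 2, 0, 1]), (1, [0, 1, 3, 2, 0]), (1, [3, 2, 0, 1, 3])],
  [(1, [3, 0, 2, 1, 3]), (1, [2, 1, 3, 0, 2]), (1, [0, 2, 1, 3, 0]), (1, [1, 3, 0, 2, 1])],
  [(1, [3, 0, 1, 2, 3]), (1, [1, 2, 3, 0, 1]), (1, [0, 1, 2, 3, 0]), (1, [2, 3, 0, 1, 2])],
  [(-1, [0, 1, 2, 3, 2, 0]), (1, [0, 1, 0, 2, 3, 2]), (-1, [2, 0, 1, 0, 3, 2]), (1, [2, 3, 0, 1, 0, 2]), (-1, [2, 3, 2, 0, 1, 0]), (1, [0, 2, 3, 2, 1, 0]), (1, [3, 0, 1, 0, 2, 3]), (-1, [3, 2, 0, 1, 0, 3]), (-1, [1, 2, 3, 2, 0, 1]), (1, [1, 0, 2, 3, 2, 1])],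
  [(-1, [0, 1, 3, 2, 3, 0]), (1, [0, 1, 0, 3, 2, 3]), (-1, [3, 0, 1, 0, 2, 3]), (1, [3, 2, 0, 1, 0, 3]), (-1, [3, 2, 3, 0, 1, 0]), (1, [0, 3, 2, 3, 1, 0]), (1, [2, 0, 1, 0, 3, 2]), (-1, [2, 3, 0, 1, 0, 2]), (-1, [1, 3, 2, 3, 0, 1]), (1, [1, 0, 3, 2, 3, 1])],
  [(-1, [0, 2, 1, 3, 1, 0]), (1, [0, 2, 0, 1, 3, 1]), (-1, [1, 0, 2, 0, 3, 1]), (1, [1, 3, 0, 2, 0, 1]), (-1, [1, 3, 1, 0, 2, 0]), (1, [0, 1, 3, 1, 2, 0]), (1, [3, 0, 2, 0, 1, 3]), (-1, [3, 1, 0, 2, 0, 3]), (-1, [2, 1, 3, 1, 0, 2]), (1, [2, 0, 1, 3, 1, 2])],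
  [(-1, [0, 2, 3, 1, 3, 0]), (1, [0, 2, 0, 3, 1, 3]), (-1, [3, 0, 2, 0, 1, 3]), (1, [3, 1, 0, 2, 0, 3]), (-1, [3, 1, 3, 0, 2, 0]), (1, [0, 3, 1, 3, 2, 0]), (1, [1, 0, 2, 0, 3, 1]), (-1, [1, 3, 0, 2, 0, 1]), (-1, [2, 3, 1, 3, 0, 2]), (1, [2, 0, 3, 1, 3, 2])],
  [(-1, [0, 3, 1, 2, 1, 0]), (1, [0, 3, 0, 1, 2, 1]), (-1, [1, 0, 3, 0, 2, 1]), (1, [1, 2, 0, 3, 0, 1]), (-1, [1, 2, 1, 0, 3, 0]), (1, [0, 1, 2, 1, 3, 0]), (1, [2, 0, 3, 0, 1, 2]), (-1, [2, 1, 0, 3, 0, 2]), (-1, [3, 1, 2, 1, 0, 3]), (1, [3, 0, 1, 2, 1, 3])],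
  [(-1, [0, 3, 2, 1, 2, 0]), (1, [0, 3, 0, 2, 1, 2]), (-1, [2, 0, 3, 0, 1, 2]), (1, [2, 1, 0, 3, 0, 2]), (-1, [2, 1, 2, 0, 3, 0]), (1, [0, 2, 1, 2, 3, 0]), (1, [1, 0, 3, 0, 2, 1]), (-1, [1, 2, 0, 3, 0, 1]), (-1, [3, 2, 1, 2, 0, 3]), (1, [3, 0, 2, 1, 2, 3])],
  [(-1, [1, 0, 2, 3, 2, 1]), (1, [1, 0, 1, 2, 3, 2]), (-1, [2, 1, 0, 1, 3, 2]), (1, [2, 3, 1, 0, 1, 2]), (-1, [2, 3, 2, 1, 0, 1]), (1, [1, 2, 3, 2, 0, 1]), (1, [3, 1, 0, 1, 2, 3]), (-1, [3, 2, 1, 0, 1, 3]), (-1, [0, 2, 3, 2, 1, 0]), (1, [0, 1, 2, 3, 2, 0])],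
  [(-1, [1, 0, 3, 2, 3, 1]), (1, [1, 0, 1, 3, 2, 3]), (-1, [3, 1, 0, 1, 2, 3]), (1, [3, 2, 1, 0, 1, 3]), (-1, [3, 2, 3, 1, 0, 1]), (1, [1, 3, 2, 3, 0, 1]), (1, [2, 1, 0, 1, 3, 2]), (-1, [2, 3, 1, 0, 1, 2]), (-1, [0, 3, 2, 3, 1, 0]), (1, [0, 1, 3, 2, 3, 0])],
  [(-1, [1, 2, 3, 0, 3, 1]), (1, [1, 2, 1, 3, 0, 3]), (-1, [3, 1, 2, 1, 0, 3]), (1, [3, 0, 1, 2, 1, 3]), (-1, [3, 0, 3, 1, 2, 1]), (1, [1, 3, 0, 3, 2, 1]), (1, [0, 1, 2, 1, 3, 0]), (-1, [0, 3, 1, 2, 1, 0]), (-1, [2, 3, 0, 3, 1, 2]), (1, [2, 1, 3, 0, 3, 2])],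
  [(-1, [1, 3, 2, 0, 2, 1]), (1, [1, 3, 1, 2, 0, 2]), (-1, [2, 1, 3, 1, 0, 2]), (1, [2, 0, 1, 3, 1, 2]), (-1, [2, 0, 2, 1, 3, 1]), (1, [1, 2, 0, 2, 3, 1]), (1, [0, 1, 3, 1, 2, 0]), (-1, [0, 2, 1, 3, 1, 0]), (-1, [3, 2, 0, 2, 1, 3]), (1, [3, 1, 2, 0, 2, 3])],
  [(-1, [2, 0, 3, 1, 3, 2]), (1, [2, 0, 2, 3, 1, 3]), (-1, [3, 2, 0, 2, 1, 3]), (1, [3, 1, 2, 0, 2, 3]), (-1, [3, 1, 3, 2, 0, 2]), (1, [2, 3, 1, 3, 0, 2]), (1, [1, 2, 0, 2, 3, 1]), (-1, [1, 3, 2, 0, 2, 1]), (-1, [0, 3, 1, 3, 2, 0]), (1, [0, 2, 3, 1, 3, 0])],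
  [(-1, [2, 1, 3, 0, 3, 2]), (1, [2, 1, 2, 3, 0, 3]), (-1, [3, 2, 1, 2, 0, 3]), (1, [3, 0, 2, 1, 2, 3]), (-1, [3, 0, 3, 2, 1, 2]), (1, [2, 3, 0, 3, 1, 2]), (1, [0, 2, 1, 2, 3, 0]), (-1, [0, 3, 2, 1, 2, 0]), (-1, [1, 3, 0, 3, 2, 1]), (1, [1, 2, 3, 0, 3, 1])]]

/-- Indices and renamings of the relations. -/
def specs3 : List (ℕ × List ℕ) := [
  (0, [0, 1, 2]),
  (0, [1, 0, 2]),
  (0, [2, 0, 1]),
  (1, [0, 1, 2]),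
  (1, [0, 2, 1]),
  (1, [1, 2, 0]),
  (2, [0, 1, 2]),
  (2, [0, 2, 1])]

/-- The relations. -/
def rels3 : List Poly := [
  [(1, [0, 0])],
  [(1, [1, 1])],
  [(1, [2, 2])],
  [(1, [1, 0, 1]), (1, [0, 1, 0])],
  [(1, [2, 0, 2]), (1, [0, 2, 0])],
  [(1, [2, 1, 2]), (1, [1, 2, 1])],
  [(1, [2, 1, 0, 2]), (1, [0, 2, 1, 0]), (1, [1, 0, 2, 1])],
  [(1, [1, 2, 0, 1]), (1, [0, 1, 2, 0]), (1, [2, 0, 1, 2])]]

/-- Indices and renamings of the relations. -/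
def specs2 : List (ℕ × List ℕ) := [
  (0, [0, 1]),
  (0, [1, 0]),
  (1, [0, 1])]

/-- The relations. -/
def rels2 : List Poly := [
  [(1, [0, 0])],
  [(1, [1, 1])],
  [(1, [1, 0, 1]), (1, [0, 1, 0])]]

/-- Levels. -/
def lev4 : List Level := [
  ⟨1,
    [[[], [], [], [(0, 1)]]],
    [3],
    []⟩,
  ⟨1,
    [[[(0, 1)], [(1, 1)], [(2, 1)], []]],
    [0, 1, 2],
    [(3, 3, 0, 0)]⟩,
  ⟨3,
    [[[], [(0, 1)], [(1, 1)], []],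
      [[(2, 1)], [], [(3, 1)], []],
      [[(4, 1)], [(5, 1)], [], []]],
    [1, 2, 4, 6, 8, 9],
    [(0, 0, 1, 0), (5, 1, 1, 0), (10, 2, 1, 0), (3, 6, 0, 0), (7, 8, 0, 0), (11, 9, 0, 0)]⟩,
  ⟨6,
    [[[(0, 1)], [], [(1, 1)], []],
      [[(2, 1)], [(3, 1)], [], []],
      [[], [(0, -1)], [(4, 1)], []],
      [[(5, 1)], [(6, 1)], [], []],
      [[], [(7, 1)], [(2, -1)], []],
      [[(8, 1)], [], [(6, -1)], []]],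
    [0, 2, 4, 5, 10, 12, 13, 17, 20],
    [(8, 0, 2, 1), (16, 0, 2, 2), (1, 1, 2, 0), (21, 1, 2, 2), (6, 2, 2, 0), (14, 2, 2, 1), (11, 11, 0, 0), (19, 13, 0, 0), (3, 14, 0, 0), (7, 15, 0, 0), (23, 16, 0, 0), (15, 17, 0, 0), (9, 4, 1, 0), (18, 5, 1, 0), (22, 7, 1, 0)]⟩,
  ⟨9,
    [[[], [], [(0, 1)], [(1, 1)]],
      [[(2, 1)], [(3, 1)], [], []],
      [[], [(4, 1)], [], [(5, 1)]],
      [[(6, 1)], [], [(3, -1)], []],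
      [[(7, 1)], [(8, 1)], [], []],
      [[], [(9, 1)], [(7, -1)], []],
      [[(10, 1)], [], [], [(11, 1)]],
      [[(12, 1)], [], [(2, -1), (9, -1)], []],
      [[], [(12, -1)], [(6, -1), (8, -1)], []]],
    [2, 3, 4, 5, 9, 11, 12, 16, 17, 21, 24, 27, 28],
    [(0, 0, 3, 0), (8, 0, 3, 1), (20, 0, 3, 3), (32, 0, 3, 5), (13, 1, 3, 1), (1, 1, 3, 2), (25, 1, 3, 3), (29, 1, 3, 4), (6, 2, 3, 0), (18, 2, 3, 2), (10, 2, 3, 4), (26, 2, 3, 5), (35, 18, 0, 0), (19, 19, 0, 0), (23, 20, 0, 0), (31, 21, 0, 0), (15, 22, 0, 0), (7, 23, 0, 0), (33, 4, 2, 2), (22, 5, 2, 1), (14, 7, 2, 0), (34, 10, 1, 0), (30, 12, 1, 0)]⟩,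
  ⟨13,
    [[[(0, 1)], [(1, 1)], [], [(2, 1)]],
      [[], [], [(3, 1)], []],
      [[], [(4, 1)], [(0, -1)], [(5, 1)]],
      [[(6, 1)], [], [], [(7, 1)]],
      [[(8, 1)], [], [(4, -1)], [(9, 1)]],
      [[], [(10, 1)], [], []],
      [[], [(8, -1)], [(1, -1)], [(11, 1)]],
      [[], [(12, 1)], [], [(9, 1)]],
      [[(13, 1)], [], [(1, 1)], [(14, 1)]],
      [[(15, 1)], [], [(0, 1)], [(16, 1)]],
      [[], [(15, -1)], [(13, -1)], [(7, 1)]],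
      [[(17, 1)], [], [], []],
      [[], [], [(18, 1)], [(2, 1)]]],
    [0, 1, 3, 6, 9, 11, 12, 15, 16, 19, 21, 27, 29, 32, 35, 36, 39, 44, 50],
    [(8, 0, 4, 1), (24, 0, 4, 3), (28, 0, 4, 4), (40, 0, 4, 6), (48, 0, 4, 7), (13, 1, 4, 1), (17, 1, 4, 2), (33, 1, 4, 4), (37, 1, 4, 5), (49, 1, 4, 8), (2, 2, 4, 0), (14, 2, 4, 3), (30, 2, 4, 5), (7, 3, 4, 0), (23, 3, 4, 2), (47, 3, 4, 6), (4, 6, 3, 0), (20, 6, 3, 1), (5, 8, 3, 2), (45, 8, 3, 3), (22, 9, 3, 4), (46, 9, 3, 5), (25, 4, 3, 1), (41, 4, 3, 3), (10, 5, 3, 0), (34, 7, 3, 2), (26, 10, 2, 0), (42, 10, 2, 1), (18, 12, 2, 0), (38, 12, 2, 1), (51, 24, 0, 0), (31, 26, 0, 0), (43, 28, 0, 0)]⟩,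
  ⟨19,
    [[[], [(0, 1)], [], [(1, 1)]],
      [[(2, 1)], [], [], [(3, 1)]],
      [[], [], [(4, 1)], []],
      [[(5, 1)], [(6, 1)], [], [(4, -1)]],
      [[(7, 1)], [], [], [(8, 1)]],
      [[], [(9, 1)], [(5, -1)], []],
      [[], [(7, -1)], [(2, -1)], [(10, 1)]],
      [[(11, 1)], [], [], []],
      [[], [], [(12, 1)], [(13, 1)]],
      [[], [(14, 1)], [], []],
      [[(15, 1)], [], [(9, -1)], [(14, -1)]],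
      [[], [(15, -1)], [(6, -1)], []],
      [[(16, 1)], [], [(0, 1)], [(17, 1)]],
      [[], [(16, -1)], [], [(18, 1)]],
      [[(19, 1)], [], [(6, 1)], []],
      [[], [], [(20, 1)], [(21, 1)]],
      [[(22, 1)], [], [(5, 1)], []],
      [[], [(22, -1)], [(19, -1)], [(11, -1)]],
      [[(20, 1)], [(12, 1)], [], [(23, 1)]]],
    [1, 3, 4, 7, 10, 12, 13, 16, 19, 21, 27, 28, 34, 35, 37, 40, 48, 51, 55, 56, 62, 63, 64, 75],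
    [(0, 0, 5, 0), (24, 0, 5, 3), (32, 0, 5, 4), (52, 0, 5, 8), (60, 0, 5, 9), (68, 0, 5, 11), (5, 1, 5, 0), (17, 1, 5, 2), (41, 1, 5, 5), (33, 1, 5, 6), (49, 1, 5, 7), (61, 1, 5, 10), (14, 2, 5, 1), (2, 2, 5, 2), (18, 2, 5, 4), (6, 2, 5, 6), (54, 2, 5, 10), (74, 2, 5, 12), (11, 3, 5, 0), (23, 3, 5, 2), (31, 3, 5, 3), (39, 3, 5, 4), (47, 3, 5, 6), (59, 3, 5, 8), (67, 3, 5, 9), (20, 6, 4, 1), (44, 6, 4, 3), (36, 6, 4, 4), (8, 6, 4, 7), (29, 8, 4, 1), (57, 8, 4, 4), (65, 8, 4, 5), (9, 8, 4, 8), (30, 9, 4, 3), (38, 9, 4, 5), (25, 4, 4, 1), (53, 4, 4, 4), (26, 5, 4, 3), (72, 5, 4, 7), (71, 6, 4, 6), (50, 7, 4, 5), (73, 7, 4, 8), (43, 8, 4, 2), (15, 9, 4, 0), (45, 11, 3, 1), (22, 13, 3, 0), (69, 14, 3, 3), (58, 16, 3, 2), (46, 18, 2, 0), (42, 20, 2, 0), (66, 21, 2, 1), (70, 22, 2, 1)]⟩,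
  ⟨24,
    [[[(0, 1)], [], [], [(1, 1)]],
      [[], [(2, 1)], [(3, 1)], []],
      [[], [(0, -1)], [], [(4, 1)]],
      [[(5, 1)], [], [(6, 1)], []],
      [[(7, 1)], [(8, 1)], [], []],
      [[], [(9, 1)], [], [(3, -1)]],
      [[(10, 1)], [], [], [(6, -1)]],
      [[], [], [(11, 1)], [(12, 1)]],
      [[(13, 1)], [(14, 1)], [], []],
      [[(15, 1)], [], [], [(14, -1)]],
      [[], [(15, -1)], [(10, -1)], []],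
      [[], [(13, -1)], [(5, -1)], []],
      [[(11, 1)], [], [], [(16, 1)]],
      [[], [(17, 1)], [(8, 1)], []],
      [[(18, 1)], [], [(2, 1)], []],
      [[], [], [(19, 1)], [(17, -1)]],
      [[], [], [(20, 1)], [(21, 1)]],
      [[(22, 1)], [], [(9, 1)], []],
      [[(23, 1)], [(18, -1)], [], []],
      [[], [(22, -1)], [], [(23, -1)]],
      [[], [(20, 1)], [], [(24, 1)]],
      [[(25, 1)], [], [(7, 1)], []],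
      [[], [], [(26, 1)], [(25, -1)]],
      [[(26, 1)], [(19, 1)], [], []]],
    [0, 3, 5, 6, 11, 12, 14, 16, 17, 21, 24, 30, 31, 32, 33, 36, 51, 53, 56, 62, 66, 67, 68, 72, 83, 84, 90],
    [(8, 0, 6, 1), (20, 0, 6, 3), (28, 0, 6, 4), (44, 0, 6, 7), (60, 0, 6, 10), (64, 0, 6, 12), (76, 0, 6, 14), (88, 0, 6, 16), (80, 0, 6, 18), (1, 1, 6, 0), (25, 1, 6, 3), (37, 1, 6, 5), (29, 1, 6, 6), (57, 1, 6, 9), (61, 1, 6, 11), (65, 1, 6, 13), (89, 1, 6, 17), (49, 1, 6, 18), (18, 2, 6, 2), (22, 2, 6, 5), (10, 2, 6, 6), (50, 2, 6, 8), (38, 2, 6, 10), (26, 2, 6, 11), (2, 2, 6, 12), (82, 2, 6, 15), (78, 2, 6, 17), (7, 3, 6, 0), (15, 3, 6, 1), (19, 3, 6, 3), (35, 3, 6, 4), (43, 3, 6, 6), (55, 3, 6, 8), (59, 3, 6, 10), (71, 3, 6, 12), (75, 3, 6, 13), (87, 3, 6, 15), (47, 3, 6, 17), (95, 3, 6, 18), (4, 6, 5, 0), (52, 6, 5, 4), (13,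 8, 5, 0), (85, 8, 5, 10), (34, 9, 5, 4), (74, 9, 5, 10), (94, 24, 2, 2), (69, 26, 2, 1), (40, 28, 2, 0), (9, 4, 5, 0), (48, 5, 5, 4), (79, 6, 5, 8), (91, 6, 5, 9), (81, 7, 5, 10), (39, 8, 5, 2), (63, 8, 5, 6), (23, 9, 5, 2), (27, 9, 5, 6), (41, 11, 4, 1), (73, 11, 4, 4), (42, 13, 4, 3), (86, 13, 4, 7), (45, 14, 4, 1), (77, 14, 4, 4), (46, 15, 4, 3), (92, 15, 4, 7), (70, 16, 4, 5), (54, 16, 4, 8), (58, 17, 4, 5), (93, 17, 4, 8)]⟩,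
  ⟨27,
    [[[], [], [(0, 1)], [(1, 1)]],
      [[(2, 1)], [(3, 1)], [(4, 1)], []],
      [[(5, 1)], [], [], [(3, -1)]],
      [[(6, 1)], [(7, 1)], [], []],
      [[(8, 1)], [(5, -1)], [(9, 1)], []],
      [[], [(2, -1)], [], [(8, -1)]],
      [[(10, 1)], [(11, 1)], [], []],
      [[], [(12, 1)], [], [(6, -1)]],
      [[(13, 1)], [], [], [(11, -1)]],
      [[(14, 1)], [], [], [(4, -1)]],
      [[], [(14, -1)], [], [(9, -1)]],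
      [[], [(0, 1)], [], [(15, 1)]],
      [[(16, 1)], [(17, 1)], [(13, 1)], []],
      [[], [], [(18, 1)], [(16, -1)]],
      [[(19, 1)], [], [(3, -1)], []],
      [[], [], [(20, 1)], [(17, -1)]],
      [[(18, 1)], [(21, 1)], [(11, 1)], []],
      [[(22, 1)], [], [(23, 1)], []],
      [[], [], [(24, 1)], [(22, -1)]],
      [[(20, 1)], [], [], [(21, -1)]],
      [[(0, -1)], [], [], [(25, 1)]],
      [[(26, 1)], [(22, 1)], [(12, 1)], []],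
      [[], [], [(27, 1)], [(26, -1)]],
      [[], [(28, 1)], [(8, 1)], []],
      [[(29, 1)], [(24, 1)], [(6, 1)], []],
      [[], [(16, 1)], [(30, 1)], []],
      [[], [(27, 1)], [], [(29, -1)]]],
    [2, 3, 4, 5, 6, 8, 12, 13, 16, 18, 24, 25, 29, 32, 36, 47, 48, 49, 54, 56, 62, 65, 68, 70, 74, 83, 84, 90, 93, 96, 102],
    [(0, 0, 7, 0), (20, 0, 7, 3), (28, 0, 7, 4), (40, 0, 7, 6), (52, 0, 7, 8), (60, 0, 7, 9), (44, 0, 7, 12), (72, 0, 7, 14), (88, 0, 7, 17), (92, 0, 7, 18), (100, 0, 7, 21), (104, 0, 7, 23), (9, 1, 7, 1), (1, 1, 7, 2), (33, 1, 7, 4), (37, 1, 7, 5), (57, 1, 7, 8), (61, 1, 7, 10), (53, 1, 7, 11), (69, 1, 7, 13), (73, 1, 7, 18), (89, 1, 7, 19), (81, 1, 7, 20), (77, 1, 7, 23), (14, 2, 7, 1), (26, 2, 7, 3), (46, 2, 7, 7), (42, 2, 7, 10), (22, 2, 7, 11), (34, 2, 7, 13), (10, 2, 7, 14), (78, 2, 7, 15),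 (82, 2, 7, 16), (38, 2, 7, 17), (30, 2, 7, 21), (106, 2, 7, 22), (7, 3, 7, 0), (19, 3, 7, 2), (15, 3, 7, 5), (27, 3, 7, 6), (51, 3, 7, 7), (59, 3, 7, 9), (67, 3, 7, 12), (71, 3, 7, 15), (87, 3, 7, 16), (95, 3, 7, 19), (99, 3, 7, 20), (103, 3, 7, 22), (41, 4, 6, 3), (76, 5, 6, 10), (80, 5, 6, 12), (23, 6, 6, 1), (31, 6, 6, 3), (55, 6, 6, 4), (75, 6, 6, 10), (91, 6, 6, 12), (107, 6, 6, 18), (45, 7, 6, 6), (105, 7, 6, 17), (11, 8, 6, 0), (35, 8, 6, 3), (63, 8, 6, 6), (85, 8, 6, 13), (101, 8, 6, 17), (79, 8, 6, 18), (43, 9, 6, 6), (66, 9, 6, 8), (58, 9, 6, 10), (39, 9, 6, 12), (98, 9, 6, 15), (94, 9, 6, 17), (17, 11, 5, 0), (50, 13, 5, 4), (21, 14, 5, 0), (64, 15, 5, 4), (86, 16, 5, 10), (97, 17, 5, 10)]⟩,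
  ⟨31,
    [[[], [], [], [(0, 1)]],
      [[(1, 1)], [(2, 1)], [(3, 1)], []],
      [[], [], [(4, 1)], [(1, -1)]],
      [[(5, 1)], [], [], []],
      [[(6, 1)], [(7, 1)], [], []],
      [[], [], [(8, 1)], [(2, -1)]],
      [[], [(9, 1)], [], []],
      [[(10, 1)], [], [], [(7, -1)]],
      [[], [(11, 1)], [], []],
      [[(12, 1)], [(13, 1)], [], []],
      [[], [(14, 1)], [], [(12, -1)]],
      [[(15, 1)], [], [], []],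
      [[(16, 1)], [], [], [(6, -1), (14, -1)]],
      [[], [(16, -1)], [], [(10, -1), (13, -1)]],
      [[], [], [(17, 1)], [(3, -1), (16, -1)]],
      [[(18, 1)], [(19, 1)], [(10, 1), (13, 1)], []],
      [[], [], [(20, 1)], []],
      [[(21, 1)], [], [(22, 1)], []],
      [[], [(4, 1)], [], [(18, -1)]],
      [[], [], [(23, 1)], [(21, -1)]],
      [[], [(17, 1)], [], [(8, 1), (19, -1)]],
      [[(24, 1)], [], [(25, 1)], []],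
      [[], [], [(26, 1)], []],
      [[(2, 1), (22, 1)], [], [], [(25, -1)]],
      [[(8, -1)], [], [], [(23, 1), (24, -1)]],
      [[(27, 1)], [(23, -1), (24, 1)], [(6, 1), (14, 1)], []],
      [[], [(28, 1)], [(29, 1)], []],
      [[(17, -1)], [], [], [(4, -1), (27, -1)]],
      [[], [], [(30, 1)], [(28, 1)]],
      [[], [(18, 1), (30, -1)], [(31, 1)], []],
      [[], [(1, -1), (29, 1)], [], [(31, -1)]]],
    [3, 4, 5, 6, 10, 12, 16, 17, 22, 25, 28, 33, 36, 37, 41, 44, 48, 58, 60, 61, 66, 68, 70, 78, 84, 86, 90, 100, 105, 106, 114, 118],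
    [(8, 0, 8, 1), (20, 0, 8, 2), (24, 0, 8, 3), (32, 0, 8, 4), (40, 0, 8, 6), (52, 0, 8, 8), (56, 0, 8, 9), (64, 0, 8, 12), (76, 0, 8, 14), (72, 0, 8, 16), (88, 0, 8, 17), (80, 0, 8, 19), (0, 0, 8, 20), (104, 0, 8, 21), (116, 0, 8, 24), (13, 1, 8, 1), (29, 1, 8, 3), (21, 1, 8, 4), (9, 1, 8, 5), (45, 1, 8, 6), (49, 1, 8, 7), (57, 1, 8, 10), (1, 1, 8, 11), (69, 1, 8, 12), (85, 1, 8, 16), (89, 1, 8, 21), (113, 1, 8, 23), (97, 1, 8, 24), (65, 1, 8, 25), (109, 1, 8, 26), (2, 2, 8, 0), (18, 2, 8, 1), (38, 2, 8, 4), (54, 2, 8, 12), (74, 2, 8, 13), (14, 2, 8, 14), (82, 2, 8, 15), (46, 2, 8, 16), (94, 2, 8, 17), (98, 2, 8, 18), (50, 2, 8, 21), (110, 2, 8, 22), (34, 2, 8, 23), (26, 2, 8, 24), (122, 2, 8, 25), (7, 3, 8, 0), (15, 3, 8, 2), (35, 3, 8, 5), (27, 3, 8, 7), (47, 3, 8, 8), (19, 3, 8, 9), (39, 3, 8, 10), (63, 3, 8,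 11), (67, 3, 8, 13), (71, 3, 8, 15), (91, 3, 8, 18), (87, 3, 8, 19), (103, 3, 8, 20), (107, 3, 8, 22), (119, 3, 8, 26), (77, 4, 7, 8), (112, 4, 7, 18), (42, 5, 7, 3), (120, 5, 7, 21), (30, 7, 7, 1), (93, 7, 7, 13), (53, 4, 7, 4), (96, 5, 7, 14), (108, 5, 7, 17), (11, 6, 7, 0), (43, 6, 7, 6), (79, 6, 7, 9), (75, 6, 7, 12), (81, 7, 7, 10), (73, 7, 7, 11), (23, 8, 7, 2), (31, 8, 7, 5), (115, 8, 7, 19), (95, 9, 7, 15), (123, 9, 7, 22), (55, 11, 6, 3), (83, 11, 6, 18), (92, 13, 6, 10), (59, 13, 6, 12), (51, 14, 6, 3), (111, 14, 6, 18), (99, 15, 6, 10), (121, 16, 6, 17), (117, 17, 6, 17), (62, 24, 4, 1), (102, 24, 4, 4), (101, 26, 4, 7)]⟩,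
  ⟨32,
    [[[(0, 1)], [(1, 1)], [(2, 1)], []],
      [[], [(3, 1)], [(4, 1)], []],
      [[(5, 1)], [], [(6, 1)], []],
      [[(7, 1)], [(8, 1)], [], [(2, -1)]],
      [[(9, 1)], [], [], [(0, -1)]],
      [[], [], [(10, 1)], [(5, -1)]],
      [[], [(11, 1)], [(9, -1)], [(7, -1)]],
      [[(12, 1)], [], [], []],
      [[], [(13, 1)], [], [(1, -1)]],
      [[(14, 1)], [], [], [(11, -1)]],
      [[], [(14, -1)], [(13, -1)], [(8, -1)]],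
      [[], [], [(15, 1)], [(3, 1)]],
      [[], [(16, 1)], [], []],
      [[(17, 1)], [], [(13, 1)], [(8, 1)]],
      [[(18, 1)], [], [(9, 1)], [(7, 1)]],
      [[], [(18, -1)], [], [(17, -1)]],
      [[], [], [(19, 1)], [(2, 1)]],
      [[], [], [], [(20, 1)]],
      [[], [(15, -1)], [(21, 1)], []],
      [[(22, 1)], [], [(23, 1)], [(1, -1)]],
      [[], [(4, 1)], [], [(21, -1)]],
      [[], [], [(24, 1)], []],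
      [[(5, -1)], [(19, 1)], [], [(23, -1)]],
      [[(10, 1)], [(9, -1)], [], [(22, -1)]],
      [[], [(9, -1)], [(25, 1)], [(22, -1)]],
      [[(26, 1)], [], [], []],
      [[(6, -1)], [], [], [(25, -1)]],
      [[], [(27, 1)], [(28, 1)], [(0, 1)]],
      [[], [], [(29, 1)], []],
      [[(19, -1)], [(3, 1)], [], [(28, -1)]],
      [[(13, -1)], [(15, -1)], [], [(27, 1)]],
      [[], [(30, 1)], [], []]],
    [0, 1, 2, 5, 6, 8, 10, 12, 13, 16, 22, 25, 28, 33, 36, 46, 49, 52, 56, 66, 71, 74, 76, 78, 86, 98, 100, 109, 110, 114, 125],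
    [(4, 0, 9, 1), (20, 0, 9, 3), (24, 0, 9, 4), (40, 0, 9, 7), (48, 0, 9, 9), (60, 0, 9, 11), (64, 0, 9, 12), (72, 0, 9, 15), (84, 0, 9, 17), (96, 0, 9, 21), (32, 0, 9, 24), (108, 0, 9, 25), (68, 0, 9, 27), (9, 1, 9, 1), (29, 1, 9, 4), (37, 1, 9, 6), (45, 1, 9, 8), (53, 1, 9, 9), (57, 1, 9, 10), (65, 1, 9, 13), (77, 1, 9, 15), (17, 1, 9, 18), (69, 1, 9, 20), (113, 1, 9, 26), (14, 2, 9, 1), (18, 2, 9, 2), (34, 2, 9, 5), (70, 2, 9, 14), (82, 2, 9, 16), (90, 2, 9, 17), (94, 2, 9, 19), (102, 2, 9, 21), (106, 2, 9, 22), (118, 2, 9, 26), (122, 2, 9, 28), (126, 2, 9, 29), (3, 3, 9, 0), (7, 3, 9, 2), (11, 3, 9, 5), (31, 3, 9, 7), (51, 3, 9, 10), (75, 3, 9, 18), (87, 3, 9, 19), (103, 3, 9, 23), (115, 3, 9, 28), (127, 3, 9, 30), (21, 4, 8, 1), (44, 4, 8, 4), (85, 4, 8, 12), (112, 4, 8, 21), (50, 5, 8, 4), (80, 5, 8, 12), (62,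 5, 8, 16), (124, 5, 8, 24), (30, 7, 8, 1), (101, 7, 8, 16), (105, 7, 8, 21), (38, 7, 8, 24), (88, 0, 9, 23), (117, 1, 9, 30), (41, 4, 8, 3), (61, 4, 8, 6), (97, 4, 8, 16), (26, 5, 8, 1), (92, 5, 8, 14), (116, 5, 8, 21), (23, 6, 8, 2), (111, 6, 8, 20), (54, 7, 8, 4), (89, 7, 8, 12), (121, 7, 8, 23), (47, 8, 8, 5), (79, 8, 8, 11), (93, 8, 8, 24), (15, 9, 8, 0), (42, 9, 8, 12), (83, 9, 8, 13), (58, 9, 8, 21), (63, 11, 7, 6), (99, 11, 7, 12), (35, 11, 7, 20), (120, 12, 7, 18), (27, 13, 7, 0), (104, 13, 7, 14), (67, 13, 7, 16), (39, 14, 7, 5), (19, 14, 7, 12), (107, 15, 7, 15), (119, 15, 7, 16), (55, 16, 7, 2), (81, 16, 7, 11), (91, 17, 7, 7), (73, 17, 7, 11), (43, 18, 6, 0), (95, 19, 6, 4), (59, 21, 6, 1), (123, 23, 6, 13)]⟩,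
  ⟨31,
    [[[], [(0, 1)], [(1, 1)], []],
      [[(2, 1)], [], [(3, 1)], []],
      [[(4, 1)], [(5, 1)], [], []],
      [[], [], [(6, 1)], []],
      [[(7, 1)], [], [], [(1, -1)]],
      [[], [], [(8, 1)], []],
      [[], [(9, 1)], [], [(3, -1)]],
      [[], [(10, 1)], [(7, -1)], []],
      [[(11, 1)], [], [(9, -1)], []],
      [[], [], [], [(12, 1)]],
      [[], [(13, 1)], [], [(2, -1)]],
      [[(14, 1)], [], [], []],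
      [[], [(14, -1)], [(13, -1)], [(11, -1)]],
      [[], [], [], [(15, 1)]],
      [[], [], [(16, 1)], [(5, 1)]],
      [[(17, 1)], [], [], [(0, 1)]],
      [[(18, 1)], [], [(17, -1)], [(10, 1)]],
      [[], [(18, -1)], [], []],
      [[], [], [(19, 1)], [(4, 1)]],
      [[], [], [], [(20, 1)]],
      [[(12, -1)], [(15, -1)], [(20, 1)], []],
      [[], [(21, 1)], [], []],
      [[], [(17, 1)], [(22, 1)], []],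
      [[(23, 1)], [(16, 1)], [], []],
      [[(8, 1)], [(7, -1)], [], [(22, -1)]],
      [[(24, 1)], [], [], []],
      [[], [(19, 1)], [(24, -1)], [(23, -1)]],
      [[(13, 1)], [], [(25, 1)], []],
      [[(19, -1)], [(26, 1)], [], []],
      [[(9, 1)], [(6, -1)], [], [(25, -1)]],
      [[(16, -1)], [], [(21, -1)], [(26, -1)]]],
    [1, 2, 4, 6, 8, 9, 14, 16, 22, 25, 29, 32, 39, 41, 44, 55, 58, 60, 64, 74, 79, 85, 90, 92, 100, 110, 113],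
    [(0, 0, 10, 0), (20, 0, 10, 2), (28, 0, 10, 3), (36, 0, 10, 4), (48, 0, 10, 7), (56, 0, 10, 9), (68, 0, 10, 13), (72, 0, 10, 14), (88, 0, 10, 19), (40, 0, 10, 23), (104, 0, 10, 25), (24, 0, 10, 26), (76, 0, 10, 29), (52, 0, 10, 30), (5, 1, 10, 0), (13, 1, 10, 1), (33, 1, 10, 3), (45, 1, 10, 6), (53, 1, 10, 8), (57, 1, 10, 10), (65, 1, 10, 12), (73, 1, 10, 15), (61, 1, 10, 18), (17, 1, 10, 20), (77, 1, 10, 22), (37, 1, 10, 23), (109, 1, 10, 27), (121, 1, 10, 31), (10, 2, 10, 0), (18, 2, 10, 1), (26, 2, 10, 2), (42, 2, 10, 5), (38, 2, 10, 6), (54, 2, 10, 10), (62, 2, 10, 11), (78, 2, 10, 16), (86, 2, 10, 18), (94, 2, 10, 19), (98, 2, 10, 21), (102, 2, 10, 24), (114, 2, 10, 27), (118, 2, 10, 28), (11, 3, 10, 3), (3, 3, 10, 4), (23, 3, 10, 5), (31, 3, 10, 6), (7, 3, 10, 8), (47, 3, 10, 9), (35, 3, 10, 10), (15, 3,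 10, 11), (71, 3, 10, 15), (83, 3, 10, 17), (87, 3, 10, 20), (95, 3, 10, 22), (91, 3, 10, 23), (103, 3, 10, 26), (115, 3, 10, 29), (111, 3, 10, 30), (70, 10, 8, 4), (101, 10, 8, 16), (12, 10, 8, 21), (46, 12, 8, 1), (21, 12, 8, 12), (84, 12, 8, 24), (49, 4, 9, 4), (69, 4, 9, 9), (89, 4, 9, 15), (108, 4, 9, 25), (30, 5, 9, 1), (96, 5, 9, 17), (106, 5, 9, 21), (112, 5, 9, 25), (51, 6, 9, 7), (75, 6, 9, 12), (107, 6, 9, 23), (43, 6, 9, 24), (80, 6, 9, 27), (34, 7, 9, 1), (93, 7, 9, 15), (117, 7, 9, 26), (122, 7, 9, 29), (67, 8, 9, 10), (59, 8, 9, 13), (63, 8, 9, 18), (81, 8, 9, 20), (123, 8, 9, 30), (19, 9, 9, 2), (27, 9, 9, 5), (82, 9, 9, 14), (99, 9, 9, 19), (119, 9, 9, 28), (50, 10, 8, 1), (97, 10, 8, 12), (120, 10, 8, 24), (66, 12, 8, 4), (105, 12, 8, 16), (116, 12, 8, 21)]⟩,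
  ⟨27,
    [[[(0, 1)], [], [(1, 1)], []],
      [[(2, 1)], [(3, 1)], [], []],
      [[], [(0, -1)], [(4, 1)], []],
      [[(5, 1)], [(6, 1)], [], []],
      [[], [(7, 1)], [(2, -1)], []],
      [[(8, 1)], [], [(6, -1)], []],
      [[(9, 1)], [], [], [(1, -1)]],
      [[], [], [], [(10, 1)]],
      [[], [(11, 1)], [], [(4, -1)]],
      [[], [], [], [(12, 1)]],
      [[(13, 1)], [], [(9, -1)], []],
      [[], [(13, -1)], [(11, -1)], []],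
      [[], [(14, 1)], [(10, 1)], []],
      [[], [], [], [(15, 1)]],
      [[], [], [(16, 1)], [(8, 1)]],
      [[(15, 1)], [], [(12, 1)], []],
      [[], [], [], [(17, 1)]],
      [[], [], [], [(14, -1)]],
      [[], [], [(18, 1)], [(7, 1)]],
      [[], [], [], [(19, 1)]],
      [[(19, 1)], [(17, 1)], [], []],
      [[(20, 1)], [], [], [(3, -1)]],
      [[(21, 1)], [(20, -1)], [], []],
      [[], [(18, 1)], [(21, -1)], []],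
      [[], [(22, 1)], [], [(5, 1)]],
      [[(22, -1)], [(23, 1)], [], []],
      [[(16, -1)], [], [(23, -1)], []]],
    [0, 2, 4, 5, 10, 12, 13, 17, 20, 24, 31, 33, 39, 40, 49, 55, 58, 67, 74, 79, 84, 88, 97, 101],
    [(8, 0, 11, 1), (16, 0, 11, 2), (28, 0, 11, 4), (44, 0, 11, 8), (56, 0, 11, 11), (68, 0, 11, 15), (72, 0, 11, 16), (48, 0, 11, 20), (92, 0, 11, 23), (32, 0, 11, 24), (96, 0, 11, 25), (52, 0, 11, 27), (76, 0, 11, 28), (36, 0, 11, 29), (64, 0, 11, 30), (1, 1, 11, 0), (21, 1, 11, 2), (37, 1, 11, 6), (41, 1, 11, 7), (53, 1, 11, 10), (57, 1, 11, 12), (73, 1, 11, 17), (61, 1, 11, 20), (85, 1, 11, 21), (69, 1, 11, 22), (65, 1, 11, 23), (29, 1, 11, 24), (77, 1, 11, 26), (105, 1, 11, 28), (25, 1, 11, 29), (6, 2, 11, 0), (14, 2, 11, 1), (26, 2, 11, 3), (34, 2, 11, 5), (30, 2, 11, 7), (38, 2, 11, 8), (54, 2,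 11, 12), (66, 2, 11, 14), (70, 2, 11, 16), (78, 2, 11, 18), (82, 2, 11, 20), (90, 2, 11, 22), (98, 2, 11, 26), (102, 2, 11, 27), (86, 2, 11, 30), (7, 3, 11, 4), (15, 3, 11, 6), (51, 3, 11, 9), (11, 3, 11, 10), (47, 3, 11, 12), (63, 3, 11, 13), (23, 3, 11, 14), (3, 3, 11, 15), (43, 3, 11, 16), (19, 3, 11, 18), (83, 3, 11, 19), (91, 3, 11, 24), (95, 3, 11, 26), (103, 3, 11, 29), (107, 3, 11, 30), (9, 4, 10, 0), (45, 4, 10, 3), (18, 5, 10, 0), (94, 5, 10, 19), (59, 6, 10, 9), (99, 6, 10, 26), (80, 6, 10, 29), (60, 6, 10, 30), (22, 7, 10, 0), (106, 7, 10, 27), (75, 8, 10, 15), (87, 8, 10, 20), (81, 8, 10, 22), (71, 8, 10, 23), (35, 9, 10, 5), (50, 9, 10, 6), (62, 9, 10, 10), (27, 9, 10, 11), (46, 10, 9, 1), (89, 10, 9, 15), (104, 10, 9, 25), (42, 12, 9, 1), (93, 12, 9, 15), (100, 12, 9, 25)]⟩,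
  ⟨24,
    [[[], [], [], [(0, 1)]],
      [[(1, 1)], [(2, 1)], [], []],
      [[], [], [], [(3, 1)]],
      [[(4, 1)], [], [(2, -1)], []],
      [[(5, 1)], [(6, 1)], [], []],
      [[], [(7, 1)], [(5, -1)], []],
      [[], [], [], [(8, 1)]],
      [[(9, 1)], [], [(1, -1), (7, -1)], []],
      [[], [(9, -1)], [(4, -1), (6, -1)], []],
      [[], [], [], [(10, 1)]],
      [[(3, 1)], [(11, 1)], [], []],
      [[], [], [], [(12, 1)]],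
      [[(13, 1)], [(8, 1)], [], []],
      [[], [], [(14, 1)], [(9, -1)]],
      [[(0, 1)], [], [(10, 1)], []],
      [[], [(0, -1)], [(12, 1)], []],
      [[], [], [], [(15, 1)]],
      [[(15, 1)], [], [(8, 1)], []],
      [[], [], [], [(16, 1)]],
      [[], [(16, 1)], [(3, 1)], []],
      [[], [], [], [(11, 1)]],
      [[], [(17, 1)], [], [(5, -1)]],
      [[], [], [], [(13, -1)]],
      [[(18, 1)], [], [], [(2, 1)]]],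
    [3, 4, 5, 11, 12, 16, 17, 21, 27, 28, 39, 41, 47, 48, 54, 67, 75, 85, 92],
    [(0, 0, 12, 0), (8, 0, 12, 1), (20, 0, 12, 3), (32, 0, 12, 5), (36, 0, 12, 6), (52, 0, 12, 10), (60, 0, 12, 15), (76, 0, 12, 20), (80, 0, 12, 21), (84, 0, 12, 22), (88, 0, 12, 25), (64, 0, 12, 26), (13, 1, 12, 1), (1, 1, 12, 2), (25, 1, 12, 3), (29, 1, 12, 4), (45, 1, 12, 8), (53, 1, 12, 11), (57, 1, 12, 12), (69, 1, 12, 20), (81, 1, 12, 22), (73, 1, 12, 23), (89, 1, 12, 24), (93, 1, 12, 25), (6, 2, 12, 0), (18, 2, 12, 2), (10, 2, 12, 4), (26, 2, 12, 5), (38, 2, 12, 10), (46, 2, 12, 11), (42, 2, 12, 12), (66, 2, 12, 14), (50, 2, 12, 15), (74, 2, 12, 18), (86, 2, 12, 23), (94, 2, 12, 26), (7, 3, 12, 6), (43, 3, 12, 7), (19, 3, 12, 8), (51, 3, 12, 9), (63, 3, 12, 13), (35, 3, 12, 14), (71, 3, 12, 16), (59, 3, 12, 17), (31, 3, 12, 18),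 (79, 3, 12, 19), (15, 3, 12, 21), (23, 3, 12, 24), (72, 4, 11, 23), (44, 4, 11, 24), (65, 4, 11, 28), (37, 4, 11, 29), (90, 5, 11, 27), (82, 5, 11, 30), (24, 11, 10, 26), (9, 14, 10, 20), (2, 15, 10, 11), (33, 4, 11, 2), (22, 5, 11, 1), (40, 6, 11, 4), (56, 6, 11, 15), (55, 6, 11, 16), (87, 6, 11, 24), (91, 6, 11, 29), (68, 6, 11, 30), (14, 7, 11, 0), (49, 8, 11, 6), (61, 8, 11, 10), (83, 8, 11, 24), (77, 8, 11, 26), (95, 8, 11, 29), (62, 9, 11, 12), (70, 9, 11, 14), (58, 9, 11, 16), (78, 9, 11, 18), (34, 10, 10, 0), (30, 12, 10, 0)]⟩,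
  ⟨19,
    [[[], [], [(0, 1)], []],
      [[], [], [], [(1, 1)]],
      [[(2, 1)], [], [], []],
      [[], [(3, 1)], [], []],
      [[], [], [], [(4, 1)]],
      [[], [(5, 1)], [], []],
      [[], [], [], [(6, 1)]],
      [[], [], [], [(7, 1)]],
      [[(8, 1)], [], [], []],
      [[], [], [(9, 1)], []],
      [[(1, 1)], [(10, 1)], [], []],
      [[(4, 1)], [], [(10, -1)], []],
      [[(11, 1)], [(6, 1)], [], []],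
      [[], [(7, 1)], [(11, -1)], []],
      [[], [], [], [(12, 1)]],
      [[], [(0, 1), (12, 1)], [(4, 1), (6, 1)], []],
      [[(0, -1), (12, -1)], [], [(1, 1), (7, 1)], []],
      [[], [], [], [(3, -1), (11, 1)]],
      [[], [], [], [(8, 1), (10, -1)]]],
    [2, 7, 8, 13, 19, 21, 27, 31, 32, 38, 41, 48, 59],
    [(4, 0, 13, 1), (16, 0, 13, 3), (20, 0, 13, 4), (36, 0, 13, 7), (12, 0, 13, 10), (52, 0, 13, 12), (0, 0, 13, 14), (60, 0, 13, 17), (72, 0, 13, 23), (9, 1, 13, 1), (25, 1, 13, 4), (29, 1, 13, 5), (37, 1, 13, 8), (45, 1, 13, 10), (33, 1, 13, 12), (1, 1, 13, 15), (65, 1, 13, 19), (69, 1, 13, 21), (10, 2, 13, 3), (22, 2, 13, 5), (58, 2, 13, 13), (42, 2, 13, 14), (50, 2, 13, 15), (34, 2, 13, 17), (14, 2, 13, 19), (3, 3, 13, 0), (15, 3, 13, 2), (35, 3, 13, 6), (43, 3, 13, 9), (51, 3, 13, 11), (39, 3, 13, 13),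 (63, 3, 13, 16), (67, 3, 13, 18), (47, 3, 13, 20), (23, 3, 13, 21), (55, 3, 13, 22), (11, 3, 13, 23), (17, 4, 12, 1), (28, 4, 12, 3), (68, 4, 12, 22), (73, 4, 12, 25), (6, 5, 12, 0), (56, 5, 12, 10), (74, 5, 12, 26), (26, 7, 12, 2), (57, 7, 12, 11), (70, 7, 12, 23), (18, 10, 11, 0), (24, 10, 11, 1), (5, 12, 11, 0), (30, 12, 11, 1), (54, 5, 12, 15), (40, 6, 12, 6), (44, 6, 12, 21), (46, 7, 12, 12), (49, 8, 12, 8), (53, 8, 12, 24), (62, 9, 12, 14), (66, 9, 12, 18), (75, 11, 11, 29), (71, 14, 11, 24), (64, 15, 11, 16), (61, 17, 11, 12)]⟩,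
  ⟨13,
    [[[(0, 1)], [(1, 1)], [], []],
      [[], [(2, 1)], [(0, -1)], []],
      [[], [], [], [(3, 1)]],
      [[(4, 1)], [], [(2, -1)], []],
      [[], [(4, -1)], [(1, -1)], []],
      [[], [], [], [(5, 1)]],
      [[(6, 1)], [], [(1, 1)], []],
      [[(7, 1)], [], [(0, 1)], []],
      [[], [(7, -1)], [(6, -1)], []],
      [[], [], [], [(8, 1)]],
      [[(3, 1)], [], [], []],
      [[], [(5, 1)], [], []],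
      [[(0, -1)], [(1, -1)], [(8, 1)], []]],
    [0, 1, 5, 11, 12, 23, 24, 28, 39],
    [(8, 0, 14, 2), (32, 0, 14, 8), (4, 0, 14, 10), (16, 0, 14, 11), (44, 0, 14, 12), (13, 1, 14, 3), (21, 1, 14, 5), (41, 1, 14, 10), (25, 1, 14, 12), (29, 1, 14, 13), (2, 2, 14, 0), (38, 2, 14, 9), (42, 2, 14, 11), (46, 2, 14, 13), (7, 3, 14, 1), (19, 3, 14, 4), (27, 3, 14, 6), (31, 3, 14, 7), (51, 3, 14, 14), (9, 4, 13, 1), (20, 4, 13, 4), (10, 5, 13, 3), (36, 5, 13, 7), (35, 6, 13, 6), (47, 6, 13, 11), (22, 7, 13, 5), (37, 7, 13, 8), (15, 8, 13, 2), (43, 8, 13, 9), (3, 9, 13, 0), (48, 0, 14, 16), (49, 1, 14, 15), (17, 4, 13, 10), (33, 4, 13, 12), (6, 5, 13, 14), (26, 7, 13, 15), (30, 9, 13, 7), (18, 9, 13, 8), (50, 9, 13, 13), (34, 10, 12, 15), (40, 11, 12, 6), (14, 12, 12, 12), (45, 14, 12, 8)]⟩,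
  ⟨9,
    [[[], [(0, 1)], [], []],
      [[(1, 1)], [], [], []],
      [[(2, 1)], [], [], []],
      [[], [(2, -1)], [(1, -1)], []],
      [[], [], [(3, 1)], []],
      [[(4, 1)], [], [(0, 1)], []],
      [[], [(4, -1)], [], []],
      [[], [], [(5, 1)], []],
      [[(5, 1)], [(3, 1)], [], []]],
    [1, 4, 8, 18, 20, 30],
    [(0, 0, 15, 0), (16, 0, 15, 3), (24, 0, 15, 6), (28, 0, 15, 7), (12, 0, 15, 10), (5, 1, 15, 0), (9, 1, 15, 1), (17, 1, 15, 4), (29, 1, 15, 8), (21, 1, 15, 11), (2, 2, 15, 1), (10, 2, 15, 3), (6, 2, 15, 4), (26, 2, 15, 8), (34, 2, 15, 12), (15, 3, 15, 2), (23, 3, 15, 5), (35, 3, 15, 9), (27, 6, 14, 6), (31, 6, 14, 7), (3, 6, 14, 14), (19, 6, 14, 17), (11, 8, 14, 1), (7, 8, 14, 14), (13, 4, 14, 10), (25, 4, 14, 12), (14, 5, 14, 11), (32, 5, 14, 16), (22, 7, 14, 13), (33, 7, 14, 15)]⟩,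
  ⟨6,
    [[[(0, 1)], [], [], []],
      [[], [(0, -1)], [], []],
      [[], [], [(1, 1)], []],
      [[(1, 1)], [], [], []],
      [[], [], [(2, 1)], []],
      [[], [(2, 1)], [], []]],
    [0, 10, 18],
    [(4, 0, 16, 1), (8, 0, 16, 2), (16, 0, 16, 5), (20, 0, 16, 8), (1, 1, 16, 0), (9, 1, 16, 3), (17, 1, 16, 6), (13, 1, 16, 8), (6, 2, 16, 3), (14, 2, 16, 4), (2, 2, 16, 5), (22, 2, 16, 7), (19, 6, 15, 5), (23, 6, 15, 9), (11, 8, 15, 2), (15, 8, 15, 9), (7, 9, 15, 2), (3, 9, 15, 5), (5, 4, 15, 0), (12, 5, 15, 3), (21, 7, 15, 8)]⟩,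
  ⟨3,
    [[[], [], [(0, 1)], []],
      [[], [(0, 1)], [], []],
      [[(0, -1)], [], [], []]],
    [2],
    [(0, 0, 17, 0), (4, 0, 17, 3), (1, 1, 17, 1), (9, 1, 17, 5), (6, 2, 17, 2), (10, 2, 17, 4), (7, 11, 15, 9), (3, 13, 15, 5), (11, 14, 15, 9), (8, 5, 16, 5), (5, 7, 16, 3)]⟩,
  ⟨1,
    [[[], [], [], [(0, 1)]]],
    [3],
    [(0, 0, 18, 2), (1, 1, 18, 1), (2, 2, 18, 0)]⟩,
  ⟨1,
    [[[], [], [], []]],
    [],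
    [(3, 3, 19, 0), (0, 6, 18, 2), (1, 8, 18, 1), (2, 9, 18, 0)]⟩,
  ⟨0, [], [], []⟩]

/-- Levels. -/
def lev3 : List Level := [
  ⟨1,
    [[[], [], [(0, 1)]]],
    [2],
    []⟩,
  ⟨1,
    [[[(0, 1)], [(1, 1)], []]],
    [0, 1],
    [(2, 2, 0, 0)]⟩,
  ⟨2,
    [[[], [(0, 1)], []],
      [[(1, 1)], [], []]],
    [1, 3],
    [(0, 0, 1, 0), (4, 1, 1, 0), (2, 4, 0, 0), (5, 5, 0, 0)]⟩,
  ⟨2,
    [[[(0, 1)], [], []],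
      [[], [(0, -1)], []]],
    [0],
    [(3, 0, 2, 1), (1, 1, 2, 0), (5, 6, 0, 0), (2, 7, 0, 0), (4, 3, 1, 0)]⟩,
  ⟨1,
    [[[], [], [(0, 1)]]],
    [2],
    [(0, 0, 3, 0), (1, 1, 3, 1)]⟩,
  ⟨1,
    [[[], [], []]],
    [],
    [(2, 2, 4, 0), (0, 4, 3, 0), (1, 5, 3, 1)]⟩,
  ⟨0, [], [], []⟩]

/-- Levels. -/
def lev2 : List Level := [
  ⟨1,
    [[[], [(0, 1)]]],
    [1],
    []⟩,
  ⟨1,
    [[[(0, 1)], []]],
    [0],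
    [(1, 1, 0, 0)]⟩,
  ⟨1,
    [[[], []]],
    [],
    [(0, 0, 1, 0), (1, 2, 0, 0)]⟩,
  ⟨0, [], [], []⟩]

end Pool.Agent.Lib.FK640.FinC
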