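import Pool.Agent.Lib.FK640.FinCheck4

/-!
# Finite-dimensionality for graphs on five vertices and consequences for the star with five leaves
-/

set_option autoImplicit false

namespace Pool.Agent.Lib.FK640.FinC

open Submodule

variable {N : ℕ}

/-- Adjacent pairs generate `EG`. -/
lemma EG_eq (G : SimpleGraph (Fin N)) :
    EG G = Algebra.adjoin ℚ {y | ∃ i j, G.Adj i j ∧ y = X (i, j)} := by
  rw [EG]
  congr 1
  ext y
  constructor
  · rintro ⟨i, j, h, rfl⟩
    exact ⟨i, j, h, (X_of_ne h.ne).symm⟩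
  · rintro ⟨i, j, h, rfl⟩
    exact ⟨i, j, h, X_of_ne h.ne⟩

lemma finite_gens (G : SimpleGraph (Fin N)) :
    {y : FK N | ∃ i j, G.Adj i j ∧ y = X (i, j)}.Finite := by
  refine (Set.finite_range fun p : Fin N × Fin N => (X p : FK N)).subset ?_
  rintro y ⟨i, j, _, rfl⟩
  exact ⟨(i, j), rfl⟩

/-- Nilpotency criterion for finite-dimensionality of `EG G`. -/
theorem finite_EG_of_nil (G : SimpleGraph (Fin N)) (A : Submodule ℚ (FK N)) {L : ℕ}
    (hA : ∀ i j, G.Adj i j → (X (i, j) : FK N) ∈ A) (h : A ^ L = ⊥) :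
    FiniteDimensional ℚ (EG G) := by
  rw [EG_eq]
  refine finite_of_nil _ (finite_gens G) (L := L) ?_
  rw [eq_bot_iff] at h ⊢
  refine (pow_le_pow_left' ?_ L).trans h
  rw [Submodule.span_le]
  rintro y ⟨i, j, hij, rfl⟩
  exact hA i j hij

/-- A graph all of whose edges lie inside five vertices has a finite-dimensional algebra. -/
theorem finite_of_five (G : SimpleGraph (Fin N)) (v : ℕ → Fin N)
    (hv : ∀ i < 5, ∀ j < 5, v i = v j → i = j)
    (hG : ∀ a b, G.Adj a b → ∃ i j, i < 5 ∧ j < 5 ∧ v i = a ∧ v j = b) :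
    FiniteDimensional ℚ (EG G) := by
  refine finite_EG_of_nil G (span ℚ (KK v 5)) (L := 41) ?_ (nil_KK5 v hv)
  intro a b hab
  obtain ⟨i, j, hi, hj, rfl, rfl⟩ := hG a b hab
  exact Submodule.subset_span ⟨i, j, hi, hj, rfl⟩

/-- The complete graph on the five vertices different from `5`. -/
def K5 : SimpleGraph (Fin 6) where
  Adj a b := a ≠ b ∧ a ≠ 5 ∧ b ≠ 5
  symm := ⟨fun _ _ h => ⟨h.1.symm, h.2.2, h.2.1⟩⟩
  loopless := ⟨fun _ h => h.1 rfl⟩

/-- The star with centre `5`. -/
def Star5 : SimpleGraph (Fin 6) where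
  Adj a b := a ≠ b ∧ (a = 5 ∨ b = 5)
  symm := ⟨fun _ _ h => ⟨h.1.symm, h.2.symm⟩⟩
  loopless := ⟨fun _ h => h.1 rfl⟩

/-- Vertices `0, ..., 4`. -/
def vv (i : ℕ) : Fin 6 := if h : i < 6 then ⟨i, h⟩ else 5

lemma vv_inj : ∀ i < 6, ∀ j < 6, vv i = vv j → i = j := by decide

lemma vv_five : vv 5 = 5 := by decide

lemma exists_vv (a : Fin 6) (ha : a ≠ 5) : ∃ i, i < 5 ∧ vv i = a := by
  revert a; decide

theorem finite_K5 : FiniteDimensional ℚ (EG K5) := by
  refine finite_of_five K5 vv (fun i hi j hj => vv_inj i (by omega) j (by omega)) ?_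
  rintro a b ⟨_, ha, hb⟩
  obtain ⟨i, hi, rfl⟩ := exists_vv a ha
  obtain ⟨j, hj, rfl⟩ := exists_vv b hb
  exact ⟨i, j, hi, hj, rfl, rfl⟩

/-- `E_6` is spanned by products of an element of the star algebra and one of `E_{K_5}`. -/
theorem top_le_mul : (⊤ : Submodule ℚ (FK 6)) ≤
    Subalgebra.toSubmodule (EG Star5) * Subalgebra.toSubmodule (EG K5) := by
  set A := span ℚ (SS (5 : Fin 6) vv 5) with hA
  set Y := span ℚ (KK vv 5) with hY
  have hYA : Y * A ≤ A * (A ⊔ Y) := straight 5 vv 5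
    (fun i hi j hj => vv_inj i (by omega) j (by omega))
    (fun i hi h => by rw [← vv_five] at h; have := vv_inj i (by omega) 5 (by omega) h; omega)
  have hA' : A ≤ Subalgebra.toSubmodule (EG Star5) := by
    rw [hA, Submodule.span_le, EG_eq]
    rintro y ⟨i, hi, rfl⟩
    refine Algebra.subset_adjoin ⟨5, vv i, ⟨?_, Or.inl rfl⟩, rfl⟩
    intro h
    rw [← vv_five] at h
    have := vv_inj 5 (by omega) i (by omega) h
    omega
  have hY' : Y ≤ Subalgebra.toSubmodule (EG K5) := by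
    rw [hY, Submodule.span_le, EG_eq]
    rintro y ⟨i, j, hi, hj, rfl⟩
    by_cases hij : i = j
    · subst hij
      have : (X (vv i, vv i) : FK 6) = 0 := by simp [X]
      rw [this]; exact Submodule.zero_mem _
    · refine Algebra.subset_adjoin ⟨vv i, vv j, ⟨?_, ?_, ?_⟩, rfl⟩
      · exact fun h => hij (vv_inj i (by omega) j (by omega) h)
      · intro h; rw [← vv_five] at h
        have := vv_inj i (by omega) 5 (by omega) h; omega
      · intro h; rw [← vv_five] at h
        have := vv_inj j (by omega) 5 (by omega) h; omega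
  have hpow : ∀ (B : Subalgebra ℚ (FK 6)) (M : Submodule ℚ (FK 6)),
      M ≤ Subalgebra.toSubmodule B → ∀ n : ℕ, M ^ n ≤ Subalgebra.toSubmodule B := by
    intro B M hM n
    induction n with
    | zero => rw [pow_zero, Submodule.one_le]; exact B.one_mem
    | succ n ih =>
      rw [pow_succ, Submodule.mul_le]
      intro x hx y hy
      exact B.mul_mem (ih hx) (hM hy)
  have hW : ∀ d, (A ⊔ Y) ^ d ≤
      Subalgebra.toSubmodule (EG Star5) * Subalgebra.toSubmodule (EG K5) := by
    intro d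
    refine (pow_sup_le A Y hYA d).trans ?_
    refine iSup_le ?_
    rintro ⟨⟨p, q⟩, _⟩
    exact mul_le_mul' (hpow _ _ hA' p) (hpow _ _ hY' q)
  intro z hz0
  clear hz0
  have hz : z ∈ Algebra.adjoin ℚ (Set.range fun p : Fin 6 × Fin 6 => (X p : FK 6)) := by
    obtain ⟨w, rfl⟩ := RingQuot.mkAlgHom_surjective ℚ (Rel 6) z
    change toFK 6 w ∈ _
    induction w using FreeAlgebra.induction with
    | grade0 r => rw [AlgHom.commutes]; exact Subalgebra.algebraMap_mem _ _
    | grade1 p =>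
      refine Algebra.subset_adjoin ⟨p.1, ?_⟩
      obtain ⟨⟨i, j⟩, h⟩ := p
      exact X_of_ne h
    | mul a b ha hb => rw [map_mul]; exact Subalgebra.mul_mem _ ha hb
    | add a b ha hb => rw [map_add]; exact Subalgebra.add_mem _ ha hb
  have hz2 : z ∈ Subalgebra.toSubmodule
      (Algebra.adjoin ℚ (Set.range fun p : Fin 6 × Fin 6 => (X p : FK 6))) := hz
  rw [Algebra.adjoin_eq_span] at hz2
  refine Submodule.span_le.2 ?_ hz2
  intro y hy
  obtain ⟨d, hd⟩ := mem_pow_of_closure _ hy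
  have hle : span ℚ (Set.range fun p : Fin 6 × Fin 6 => (X p : FK 6)) ≤ A ⊔ Y := by
    rw [Submodule.span_le]
    rintro _ ⟨⟨a, b⟩, rfl⟩
    have h6 : ∀ a : Fin 6, ∃ i, i < 6 ∧ vv i = a := by decide
    obtain ⟨i, hi, rfl⟩ := h6 a
    obtain ⟨j, hj, rfl⟩ := h6 b
    have h := KK_succ vv 5
    rw [vv_five] at h
    exact h (Submodule.subset_span ⟨i, j, hi, hj, rfl⟩)
  exact hW d (pow_le_pow_left' hle d hd)

/-- If `E_6` is infinite-dimensional, so is the algebra of the star with five leaves. -/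
theorem star_infinite (h : ¬ FiniteDimensional ℚ (FK 6)) :
    ¬ FiniteDimensional ℚ (EG Star5) := by
  intro hs
  apply h
  have h1 : (Subalgebra.toSubmodule (EG Star5)).FG := Module.Finite.iff_fg.1 hs
  have h2 : (Subalgebra.toSubmodule (EG K5)).FG := Module.Finite.iff_fg.1 finite_K5
  have h3 := h1.mul h2
  have h4 : (⊤ : Submodule ℚ (FK 6)).FG := by
    have : (⊤ : Submodule ℚ (FK 6)) =
        Subalgebra.toSubmodule (EG Star5) * Subalgebra.toSubmodule (EG K5) :=
      le_antisymm top_le_mul le_top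
    rw [this]; exact h3
  exact Module.Finite.of_fg_top h4

end Pool.Agent.Lib.FK640.FinC
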