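import Pool.Agent.Lib.FK640.FinM0Data
import Pool.Agent.Lib.FK640.FinK5

set_option autoImplicit false

/-! The graph with edges 14, 16, 23, 24, 25, 34, 35 and the disconnected graphs on six vertices. -/

namespace Pool.Agent.Lib.FK640.FinM

open FinC Submodule

section ring

variable {R : Type} [Ring R] (a : ℕ → R)

lemma ev_sq (p : ℕ) (h : a p * a p = 0) : ev a [(1, [p, p])] = 0 := by
  simp [h]

lemma ev_comm (p q : ℕ) (h : a p * a q = a q * a p) : ev a [(1, [p, q]), (-1, [q, p])] = 0 := by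
  simp [h]

lemma ev_braid (p q : ℕ) (h : a p * a q * a p + a q * a p * a q = 0) :
    ev a [(1, [p, q, p]), (1, [q, p, q])] = 0 := by
  simp only [ev_cons, ev_nil, wd_cons, wd_nil, mul_one, add_zero, one_smul]
  rw [← mul_assoc, ← mul_assoc]
  exact h

lemma ev_triA (p q r : ℕ) (h : a p * a q - a q * a r - a r * a p = 0) :
    ev a [(1, [p, q]), (-1, [q, r]), (-1, [r, p])] = 0 := by
  simp only [ev_cons, ev_nil, wd_cons, wd_nil, mul_one, add_zero, one_smul, neg_smul]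
  rw [← h]
  abel

lemma ev_triB (p q r : ℕ) (h : -(a r * a q) + a q * a p - a p * a r = 0) :
    ev a [(-1, [r, q]), (1, [q, p]), (-1, [p, r])] = 0 := by
  simp only [ev_cons, ev_nil, wd_cons, wd_nil, mul_one, add_zero, one_smul, neg_smul]
  rw [← h]
  abel

end ring

variable {N : ℕ}

lemma tri_A (i j k : Fin N) (hij : i ≠ j) (hjk : j ≠ k) (hki : k ≠ i) :
    (X (i, j) : FK N) * X (j, k) - X (j, k) * X (i, k) - X (i, k) * X (i, j) = 0 := by
  have h := X_tri i j k hij hjk hki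
  rw [X_anti i k] at h
  rw [← h]
  noncomm_ring

lemma tri_B (i j k : Fin N) (hij : i ≠ j) (hjk : j ≠ k) (hki : k ≠ i) :
    -((X (i, k) : FK N) * X (j, k)) + X (j, k) * X (i, j) - X (i, j) * X (i, k) = 0 := by
  have h := X_tri i k j hki.symm hjk.symm hij.symm
  rw [X_anti j k, X_anti i j] at h
  rw [← h]
  noncomm_ring

lemma braid_out (c i j : Fin N) (hij : i ≠ j) (hi : i ≠ c) (hj : j ≠ c) :
    (X (c, i) : FK N) * X (c, j) * X (c, i) + X (c, j) * X (c, i) * X (c, j) = 0 := by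
  have h := cross1 c i j hij hi hj
  have e1 : (X (i, j) : FK N) * X (c, i) * X (c, i) = 0 := by
    rw [mul_assoc, X_sq, mul_zero]
  have e2 : (X (c, j) : FK N) * X (c, j) = 0 := X_sq _
  have e3 : (X (c, j) : FK N) * (X (i, j) * X (c, i)) =
      X (c, j) * X (c, i) * X (c, j) := by
    rw [h, mul_add, ← mul_assoc, e2, zero_mul, zero_add, mul_assoc]
  have e4 : (X (i, j) : FK N) * X (c, i) * X (c, i) =
      X (c, j) * (X (i, j) * X (c, i)) + X (c, i) * X (c, j) * X (c, i) := by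
    rw [h, add_mul, mul_assoc (X (c, j)), ← h]
  rw [e3, e1] at e4
  rw [add_comm]
  exact e4.symm

lemma braid_in (c i j : Fin N) (hij : i ≠ j) (hi : i ≠ c) (hj : j ≠ c) :
    (X (i, c) : FK N) * X (j, c) * X (i, c) + X (j, c) * X (i, c) * X (j, c) = 0 := by
  have h := braid_out c i j hij hi hj
  rw [X_anti c i, X_anti c j]
  have e : -(X (c, i) : FK N) * -X (c, j) * -X (c, i) + -X (c, j) * -X (c, i) * -X (c, j) =
      -(X (c, i) * X (c, j) * X (c, i) + X (c, j) * X (c, i) * X (c, j)) := by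
    noncomm_ring
  rw [e, h, neg_zero]

/-- The letters. -/
noncomputable def a (f : Fin 6 → Fin N) : ℕ → FK N
  | 0 => X (f 1, f 2)
  | 1 => X (f 1, f 3)
  | 2 => X (f 2, f 3)
  | 3 => X (f 1, f 4)
  | 4 => X (f 2, f 4)
  | 5 => X (f 0, f 3)
  | 6 => X (f 0, f 5)
  | _ => 0

lemma ne (f : Fin 6 ↪ Fin N) (i j : Fin 6) (h : i ≠ j) : f i ≠ f j := fun h' => h (f.injective h')

/-- All relations. -/
def allRels : List Poly :=
  [[(1, [0, 0])], [(1, [1, 1])], [(1, [0, 1, 0]), (1, [1, 0, 1])], [(1, [2, 2])], [(1, [0, 2]), (-1, [2, 1]), (-1, [1, 0])], [(-1, [1, 2]), (1, [2, 0]), (-1, [0, 1])], [(1, [3, 3])], [(1, [2, 3]), (-1, [3, 2])], [(1, [0, 3, 0]), (1, [3, 0, 3])], [(1, [1, 3, 1]), (1, [3, 1, 3])], [(1, [4, 4])], [(1, [1, 4]), (-1, [4, 1])], [(1, [0, 4]), (-1, [4, 3]), (-1, [3, 0])], [(-1, [3, 4]), (1, [4, 0]), (-1, [0, 3])], [(1, [2, 4, 2]), (1, [4, 2, 4])], [(1, [5, 5])], [(1, [0, 5]), (-1, [5, 0])], [(1, [3, 5]), (-1, [5, 3])],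 [(1, [4, 5]), (-1, [5, 4])], [(1, [5, 1, 5]), (1, [1, 5, 1])], [(1, [5, 2, 5]), (1, [2, 5, 2])], [(1, [6, 6])], [(1, [0, 6]), (-1, [6, 0])], [(1, [1, 6]), (-1, [6, 1])], [(1, [2, 6]), (-1, [6, 2])], [(1, [3, 6]), (-1, [6, 3])], [(1, [4, 6]), (-1, [6, 4])], [(1, [5, 6, 5]), (1, [6, 5, 6])]]

lemma ev_allRels (f : Fin 6 ↪ Fin N) : ∀ r ∈ allRels, ev (a f) r = 0 := by
  intro r hr
  simp only [allRels, List.mem_cons, List.not_mem_nil, or_false] at hr
  rcases hr with rfl | rfl | rfl | rfl | rfl | rfl | rfl | rfl | rfl | rfl | rfl | rfl | rfl | rfl | rfl | rfl | rfl | rfl | rfl | rfl | rfl | rfl | rfl | rfl | rfl | rfl | rfl | rfl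
  · exact ev_sq (a f) 0 (X_sq _)
  · exact ev_sq (a f) 1 (X_sq _)
  · exact ev_braid (a f) 0 1 (braid_out (f 1) (f 2) (f 3) (ne f 2 3 (by decide)) (ne f 2 1 (by decide)) (ne f 3 1 (by decide)))
  · exact ev_sq (a f) 2 (X_sq _)
  · exact ev_triA (a f) 0 2 1 (tri_A (f 1) (f 2) (f 3) (ne f 1 2 (by decide)) (ne f 2 3 (by decide)) (ne f 3 1 (by decide)))
  · exact ev_triB (a f) 0 2 1 (tri_B (f 1) (f 2) (f 3) (ne f 1 2 (by decide)) (ne f 2 3 (by decide)) (ne f 3 1 (by decide)))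
  · exact ev_sq (a f) 3 (X_sq _)
  · exact ev_comm (a f) 2 3 (X_comm (f 2) (f 3) (f 1) (f 4) (ne f 2 3 (by decide)) (ne f 1 4 (by decide)) (ne f 2 1 (by decide)) (ne f 2 4 (by decide)) (ne f 3 1 (by decide)) (ne f 3 4 (by decide)))
  · exact ev_braid (a f) 0 3 (braid_out (f 1) (f 2) (f 4) (ne f 2 4 (by decide)) (ne f 2 1 (by decide)) (ne f 4 1 (by decide)))
  · exact ev_braid (a f) 1 3 (braid_out (f 1) (f 3) (f 4) (ne f 3 4 (by decide)) (ne f 3 1 (by decide)) (ne f 4 1 (by decide)))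
  · exact ev_sq (a f) 4 (X_sq _)
  · exact ev_comm (a f) 1 4 (X_comm (f 1) (f 3) (f 2) (f 4) (ne f 1 3 (by decide)) (ne f 2 4 (by decide)) (ne f 1 2 (by decide)) (ne f 1 4 (by decide)) (ne f 3 2 (by decide)) (ne f 3 4 (by decide)))
  · exact ev_triA (a f) 0 4 3 (tri_A (f 1) (f 2) (f 4) (ne f 1 2 (by decide)) (ne f 2 4 (by decide)) (ne f 4 1 (by decide)))
  · exact ev_triB (a f) 0 4 3 (tri_B (f 1) (f 2) (f 4) (ne f 1 2 (by decide)) (ne f 2 4 (by decide)) (ne f 4 1 (by decide)))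
  · exact ev_braid (a f) 2 4 (braid_out (f 2) (f 3) (f 4) (ne f 3 4 (by decide)) (ne f 3 2 (by decide)) (ne f 4 2 (by decide)))
  · exact ev_sq (a f) 5 (X_sq _)
  · exact ev_comm (a f) 0 5 (X_comm (f 1) (f 2) (f 0) (f 3) (ne f 1 2 (by decide)) (ne f 0 3 (by decide)) (ne f 1 0 (by decide)) (ne f 1 3 (by decide)) (ne f 2 0 (by decide)) (ne f 2 3 (by decide)))
  · exact ev_comm (a f) 3 5 (X_comm (f 1) (f 4) (f 0) (f 3) (ne f 1 4 (by decide)) (ne f 0 3 (by decide)) (ne f 1 0 (by decide)) (ne f 1 3 (by decide)) (ne f 4 0 (by decide)) (ne f 4 3 (by decide)))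
  · exact ev_comm (a f) 4 5 (X_comm (f 2) (f 4) (f 0) (f 3) (ne f 2 4 (by decide)) (ne f 0 3 (by decide)) (ne f 2 0 (by decide)) (ne f 2 3 (by decide)) (ne f 4 0 (by decide)) (ne f 4 3 (by decide)))
  · exact ev_braid (a f) 5 1 (braid_in (f 3) (f 0) (f 1) (ne f 0 1 (by decide)) (ne f 0 3 (by decide)) (ne f 1 3 (by decide)))
  · exact ev_braid (a f) 5 2 (braid_in (f 3) (f 0) (f 2) (ne f 0 2 (by decide)) (ne f 0 3 (by decide)) (ne f 2 3 (by decide)))
  · exact ev_sq (a f) 6 (X_sq _)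
  · exact ev_comm (a f) 0 6 (X_comm (f 1) (f 2) (f 0) (f 5) (ne f 1 2 (by decide)) (ne f 0 5 (by decide)) (ne f 1 0 (by decide)) (ne f 1 5 (by decide)) (ne f 2 0 (by decide)) (ne f 2 5 (by decide)))
  · exact ev_comm (a f) 1 6 (X_comm (f 1) (f 3) (f 0) (f 5) (ne f 1 3 (by decide)) (ne f 0 5 (by decide)) (ne f 1 0 (by decide)) (ne f 1 5 (by decide)) (ne f 3 0 (by decide)) (ne f 3 5 (by decide)))
  · exact ev_comm (a f) 2 6 (X_comm (f 2) (f 3) (f 0) (f 5) (ne f 2 3 (by decide)) (ne f 0 5 (by decide)) (ne f 2 0 (by decide)) (ne f 2 5 (by decide)) (ne f 3 0 (by decide)) (ne f 3 5 (by decide)))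
  · exact ev_comm (a f) 3 6 (X_comm (f 1) (f 4) (f 0) (f 5) (ne f 1 4 (by decide)) (ne f 0 5 (by decide)) (ne f 1 0 (by decide)) (ne f 1 5 (by decide)) (ne f 4 0 (by decide)) (ne f 4 5 (by decide)))
  · exact ev_comm (a f) 4 6 (X_comm (f 2) (f 4) (f 0) (f 5) (ne f 2 4 (by decide)) (ne f 0 5 (by decide)) (ne f 2 0 (by decide)) (ne f 2 5 (by decide)) (ne f 4 0 (by decide)) (ne f 4 5 (by decide)))
  · exact ev_braid (a f) 5 6 (braid_out (f 0) (f 3) (f 5) (ne f 3 5 (by decide)) (ne f 3 0 (by decide)) (ne f 5 0 (by decide)))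

lemma sub1 : ∀ r ∈ rels1, r ∈ allRels := by decide +kernel

lemma sub2 : ∀ r ∈ rels2, r ∈ allRels := by decide +kernel

lemma sub3 : ∀ r ∈ rels3, r ∈ allRels := by decide +kernel

lemma sub4 : ∀ r ∈ rels4, r ∈ allRels := by decide +kernel

lemma sub5 : ∀ r ∈ rels5, r ∈ allRels := by decide +kernel

lemma sub6 : ∀ r ∈ rels6, r ∈ allRels := by decide +kernel

lemma sub7 : ∀ r ∈ rels7, r ∈ allRels := by decide +kernel

lemma words1 (f : Fin 6 ↪ Fin N) (u : List ℕ) (hu : 2 ≤ u.length)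
    (hx : ∀ x ∈ u, x < 1) : wd (a f) u = 0 := by
  match u, hu, hx with
  | x :: y :: u, _, hx =>
    have h1 : x = 0 := by have := hx x (by simp); omega
    have h2 : y = 0 := by have := hx y (by simp); omega
    subst h1; subst h2
    rw [wd_cons, wd_cons, ← mul_assoc]
    have : a (f : Fin 6 → Fin N) 0 * a f 0 = 0 := X_sq _
    rw [this, zero_mul]

lemma words2 (f : Fin 6 ↪ Fin N) (u : List ℕ) (hu : 4 ≤ u.length)
    (hx : ∀ x ∈ u, x < 2) : wd (a f) u = 0 := by
  refine nil_of_NN (K := 3) (L := 2) (m := 2) (S := [0]) ?_ ?_ u (by omega) hx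
  · exact word_mem_NN (fun r hr => ev_allRels f r (sub2 r hr)) 3 (check_all check2)
      (by decide) (by decide)
  · intro u hu hx
    exact words1 f u hu.ge fun x h => by have := hx x h; simp at this; omega

lemma words3 (f : Fin 6 ↪ Fin N) (u : List ℕ) (hu : 5 ≤ u.length)
    (hx : ∀ x ∈ u, x < 3) : wd (a f) u = 0 := by
  refine nil_of_NN (K := 2) (L := 4) (m := 3) (S := [0, 1]) ?_ ?_ u (by omega) hx
  · exact word_mem_NN (fun r hr => ev_allRels f r (sub3 r hr)) 2 (check_all check3)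
      (by decide) (by decide)
  · intro u hu hx
    exact words2 f u hu.ge fun x h => by have := hx x h; simp at this; omega

lemma words4 (f : Fin 6 ↪ Fin N) (u : List ℕ) (hu : 10 ≤ u.length)
    (hx : ∀ x ∈ u, x < 4) : wd (a f) u = 0 := by
  refine nil_of_NN (K := 6) (L := 5) (m := 4) (S := [0, 1, 2]) ?_ ?_ u (by omega) hx
  · exact word_mem_NN (fun r hr => ev_allRels f r (sub4 r hr)) 6 (check_all check4)
      (by decide) (by decide)
  · intro u hu hx
    exact words3 f u hu.ge fun x h => by have := hx x h; simp at this; omega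

lemma words5 (f : Fin 6 ↪ Fin N) (u : List ℕ) (hu : 12 ≤ u.length)
    (hx : ∀ x ∈ u, x < 5) : wd (a f) u = 0 := by
  refine nil_of_NN (K := 3) (L := 10) (m := 5) (S := [0, 1, 2, 3]) ?_ ?_ u (by omega) hx
  · exact word_mem_NN (fun r hr => ev_allRels f r (sub5 r hr)) 3 (check_all check5)
      (by decide) (by decide)
  · intro u hu hx
    exact words4 f u hu.ge fun x h => by have := hx x h; simp at this; omega

lemma words6 (f : Fin 6 ↪ Fin N) (u : List ℕ) (hu : 26 ≤ u.length)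
    (hx : ∀ x ∈ u, x < 6) : wd (a f) u = 0 := by
  refine nil_of_NN (K := 15) (L := 12) (m := 6) (S := [0, 1, 2, 3, 4]) ?_ ?_ u (by omega) hx
  · exact word_mem_NN (fun r hr => ev_allRels f r (sub6 r hr)) 15 (check_all check6)
      (by decide) (by decide)
  · intro u hu hx
    exact words5 f u hu.ge fun x h => by have := hx x h; simp at this; omega

lemma words7 (f : Fin 6 ↪ Fin N) (u : List ℕ) (hu : 58 ≤ u.length)
    (hx : ∀ x ∈ u, x < 7) : wd (a f) u = 0 := by
  refine nil_of_NN (K := 33) (L := 26) (m := 7) (S := [0, 1, 2, 3, 4, 5]) ?_ ?_ u (by omega) hx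
  · exact word_mem_NN (fun r hr => ev_allRels f r (sub7 r hr)) 33 (check_all check7)
      (by decide) (by decide)
  · intro u hu hx
    exact words6 f u hu.ge fun x h => by have := hx x h; simp at this; omega

/-- Products of 58 letters vanish. -/
theorem nil_M0 (f : Fin 6 ↪ Fin N) :
    (span ℚ {y | ∃ i, i < 7 ∧ y = a (f : Fin 6 → Fin N) i}) ^ 58 = ⊥ :=
  pow_eq_bot_of_words _ 7 58 (words7 f)

/-- The graph with edges 14, 16, 23, 24, 25, 34, 35 (on the vertices 0, ..., 5). -/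
def M0 : SimpleGraph (Fin 6) := graphOf [(0, 3), (0, 5), (1, 2), (1, 3), (1, 4), (2, 3), (2, 4)]

lemma mem_of_adj (f : Fin 6 ↪ Fin N) (u v : Fin 6) (h : M0.Adj u v) :
    (X (f u, f v) : FK N) ∈ span ℚ {y | ∃ i, i < 7 ∧ y = a (f : Fin 6 → Fin N) i} := by
  have key : ∀ i < 7, (a (f : Fin 6 → Fin N) i) ∈
      span ℚ {y | ∃ i, i < 7 ∧ y = a (f : Fin 6 → Fin N) i} :=
    fun i hi => subset_span ⟨i, hi, rfl⟩
  have key2 : ∀ p q : Fin 6, (p, q) ∈ ([(0, 3), (0, 5), (1, 2), (1, 3), (1, 4), (2, 3), (2, 4)] :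
      List (Fin 6 × Fin 6)) → (X (f p, f q) : FK N) ∈
      span ℚ {y | ∃ i, i < 7 ∧ y = a (f : Fin 6 → Fin N) i} := by
    intro p q hpq
    simp only [List.mem_cons, List.not_mem_nil, or_false, Prod.mk.injEq] at hpq
    rcases hpq with ⟨rfl, rfl⟩ | ⟨rfl, rfl⟩ | ⟨rfl, rfl⟩ | ⟨rfl, rfl⟩ | ⟨rfl, rfl⟩ | ⟨rfl, rfl⟩ |
      ⟨rfl, rfl⟩
    · exact key 5 (by norm_num)
    · exact key 6 (by norm_num)
    · exact key 0 (by norm_num)
    · exact key 1 (by norm_num)
    · exact key 3 (by norm_num)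
    · exact key 2 (by norm_num)
    · exact key 4 (by norm_num)
  rw [M0, graphOf, SimpleGraph.fromRel_adj] at h
  rcases h.2 with h1 | h1
  · exact key2 u v h1
  · rw [X_anti]
    exact Submodule.neg_mem _ (key2 v u h1)

/-- Graphs contained in a copy of `M0` have finite-dimensional algebras. -/
theorem finite_of_M0 (G : SimpleGraph (Fin N)) (f : Fin 6 ↪ Fin N) (hG : G ≤ M0.map f) :
    FiniteDimensional ℚ (EG G) := by
  refine finite_EG_of_nil G (span ℚ {y | ∃ i, i < 7 ∧ y = a (f : Fin 6 → Fin N) i})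
    (L := 58) ?_ (nil_M0 f)
  intro i j hij
  obtain ⟨_, u, v, huv, rfl, rfl⟩ := hG hij
  exact mem_of_adj f u v huv

/-- The span of the generators inside a set of vertices. -/
noncomputable def KS (A : Set (Fin N)) : Submodule ℚ (FK N) :=
  span ℚ {y | ∃ i ∈ A, ∃ j ∈ A, y = X (i, j)}

lemma nil_KS (A : Finset (Fin N)) (hA : A.card ≤ 5) (hN : 5 ≤ N) :
    (KS (A : Set (Fin N))) ^ 41 = ⊥ := by
  classical
  obtain ⟨B, hAB, hB⟩ := Finset.exists_superset_card_eq hA (by simpa using hN)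
  let v : ℕ → Fin N := fun i => if h : i < 5 then B.orderEmbOfFin hB ⟨i, h⟩ else
    B.orderEmbOfFin hB ⟨0, by norm_num⟩
  have hv : ∀ i < 5, ∀ j < 5, v i = v j → i = j := by
    intro i hi j hj h
    simp only [v, dif_pos hi, dif_pos hj] at h
    have := (B.orderEmbOfFin hB).injective h
    exact congrArg Fin.val this
  have hle : KS (A : Set (Fin N)) ≤ span ℚ (KK v 5) := by
    unfold KS
    refine span_mono ?_
    rintro y ⟨i, hi, j, hj, rfl⟩
    have hex : ∀ w ∈ A, ∃ k, k < 5 ∧ v k = w := by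
      intro w hw
      have h1 : w ∈ Set.range (B.orderEmbOfFin hB) := by
        rw [Finset.range_orderEmbOfFin]
        exact hAB hw
      obtain ⟨k, hk⟩ := h1
      refine ⟨k.1, k.2, ?_⟩
      simp only [v, dif_pos k.2]
      exact hk
    obtain ⟨k, hk, rfl⟩ := hex i hi
    obtain ⟨l, hl, rfl⟩ := hex j hj
    exact ⟨k, l, hk, hl, rfl⟩
  have h := nil_KK5 v hv
  rw [eq_bot_iff] at h ⊢
  exact (pow_le_pow_left' hle 41).trans h

lemma comm_KS (A : Set (Fin N)) : KS Aᶜ * KS A ≤ KS A * (KS A ⊔ KS Aᶜ) := by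
  unfold KS
  rw [Submodule.span_mul_span, Submodule.span_le]
  rintro z ⟨y, ⟨i, hi, j, hj, rfl⟩, w, ⟨k, hk, l, hl, rfl⟩, rfl⟩
  have h1 : (X (k, l) : FK N) ∈ span ℚ {y : FK N | ∃ i ∈ A, ∃ j ∈ A, y = X (i, j)} :=
    subset_span ⟨k, hk, l, hl, rfl⟩
  have h2 : (X (i, j) : FK N) ∈ span ℚ {y : FK N | ∃ i ∈ A, ∃ j ∈ A, y = X (i, j)} ⊔
      span ℚ {y : FK N | ∃ i ∈ Aᶜ, ∃ j ∈ Aᶜ, y = X (i, j)} :=
    Submodule.mem_sup_right (subset_span ⟨i, hi, j, hj, rfl⟩)
  have hik : i ≠ k := fun h => hi (h ▸ hk)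
  have hil : i ≠ l := fun h => hi (h ▸ hl)
  have hjk : j ≠ k := fun h => hj (h ▸ hk)
  have hjl : j ≠ l := fun h => hj (h ▸ hl)
  have e : (X (i, j) : FK N) * X (k, l) = X (k, l) * X (i, j) := by
    by_cases hij : i = j
    · subst hij
      have : (X (i, i) : FK N) = 0 := by simp [X]
      rw [this, zero_mul, mul_zero]
    by_cases hkl : k = l
    · subst hkl
      have : (X (k, k) : FK N) = 0 := by simp [X]
      rw [this, zero_mul, mul_zero]
    exact X_comm i j k l hij hkl hik hil hjk hjl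
  change (X (i, j) : FK N) * X (k, l) ∈ _
  rw [e]
  exact Submodule.mul_mem_mul h1 h2

/-- A graph without edges between two complementary sets of at most five vertices. -/
theorem finite_of_split (G : SimpleGraph (Fin N)) (hN : 5 ≤ N) (A : Finset (Fin N))
    (h1 : A.card ≤ 5) (h2 : Aᶜ.card ≤ 5) (hG : ∀ i j, G.Adj i j → (i ∈ A ↔ j ∈ A)) :
    FiniteDimensional ℚ (EG G) := by
  classical
  have e1 := nil_KS A h1 hN
  have e2 := nil_KS Aᶜ h2 hN
  rw [Finset.coe_compl] at e2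
  have h := nil_sup (KS (A : Set (Fin N))) (KS (A : Set (Fin N))ᶜ) (comm_KS _) (p := 40)
    (q := 40) e1 e2
  refine finite_EG_of_nil G _ (L := 81) ?_ h
  intro i j hij
  by_cases hi : i ∈ A
  · exact Submodule.mem_sup_left (subset_span ⟨i, hi, j, (hG i j hij).1 hi, rfl⟩)
  · exact Submodule.mem_sup_right (subset_span ⟨i, hi, j, fun hj => hi ((hG i j hij).2 hj), rfl⟩)

/-- Disconnected graphs on six vertices. -/
theorem finite_of_not_preconnected (G : SimpleGraph (Fin 6)) (h : ¬ G.Preconnected) :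
    FiniteDimensional ℚ (EG G) := by
  classical
  unfold SimpleGraph.Preconnected at h
  push Not at h
  obtain ⟨u, v, huv⟩ := h
  refine finite_of_split G (by norm_num) (Finset.univ.filter fun w => G.Reachable u w) ?_ ?_ ?_
  · have h1 : (Finset.univ.filter fun w => G.Reachable u w) ⊆ Finset.univ.erase v := by
      intro w hw
      rw [Finset.mem_filter] at hw
      refine Finset.mem_erase.2 ⟨fun h => huv (h ▸ hw.2), Finset.mem_univ _⟩
    have h2 := Finset.card_le_card h1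
    rw [Finset.card_erase_of_mem (Finset.mem_univ _)] at h2
    simpa using h2
  · have h1 : (Finset.univ.filter fun w => G.Reachable u w)ᶜ ⊆ Finset.univ.erase u := by
      intro w hw
      rw [Finset.mem_compl, Finset.mem_filter] at hw
      refine Finset.mem_erase.2 ⟨fun h => hw ⟨Finset.mem_univ _, h ▸ SimpleGraph.Reachable.refl _⟩,
        Finset.mem_univ _⟩
    have h2 := Finset.card_le_card h1
    rw [Finset.card_erase_of_mem (Finset.mem_univ _)] at h2
    simpa using h2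
  · intro i j hij
    rw [Finset.mem_filter, Finset.mem_filter]
    refine ⟨fun h => ⟨Finset.mem_univ _, h.2.trans hij.reachable⟩,
      fun h => ⟨Finset.mem_univ _, h.2.trans hij.symm.reachable⟩⟩

/-- Graphs on six vertices which are contained in `M0`. -/
theorem finite_of_contained (G : SimpleGraph (Fin 6)) (h : G.IsContained M0) :
    FiniteDimensional ℚ (EG G) := by
  obtain ⟨g⟩ := h
  have hbij : Function.Bijective g := (Finite.injective_iff_bijective).1 g.injective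
  let e : Fin 6 ≃ Fin 6 := Equiv.ofBijective g hbij
  refine finite_of_M0 G e.symm.toEmbedding ?_
  intro i j hij
  refine ⟨hij.ne, g i, g j, g.toHom.map_adj hij, ?_, ?_⟩
  · exact e.symm_apply_apply i
  · exact e.symm_apply_apply j

end Pool.Agent.Lib.FK640.FinM
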