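import Pool.Agent.Lib.FK640.FinCert

set_option autoImplicit false

/-! Certificates for the graph with edges 14, 16, 23, 24, 25, 34, 35 and a chain of subgraphs. -/

namespace Pool.Agent.Lib.FK640.FinM

open FinC

/-- Relations of the first 1 letters. -/
def rels1 : List Poly := [[(1, [0, 0])]]

def lv1_0 : Level := ⟨1, [[[(0, 1)]]], [0], []⟩

def lv1_1 : Level := ⟨1, [[[]]], [], [(0, 0, 0, 0)]⟩

def lv1_2 : Level := ⟨0, [], [], []⟩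

/-- Levels. -/
def lev1 : List Level := [lv1_0, lv1_1, lv1_2]

/-- Levels as a function. -/
def D1 (k : ℕ) : Level := lev1.getD k Level.zero

theorem check1 : ((List.range 2).all fun k => checkLevel 1 [] D1 rels1 k) = true := by
  decide +kernel

/-- Relations of the first 2 letters. -/
def rels2 : List Poly := [[(1, [0, 0])], [(1, [1, 1])], [(1, [0, 1, 0]), (1, [1, 0, 1])]]

def lv2_0 : Level := ⟨1, [[[], [(0, 1)]]], [1], []⟩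

def lv2_1 : Level := ⟨1, [[[(0, 1)], []]], [0], [(1, 1, 0, 0)]⟩

def lv2_2 : Level := ⟨1, [[[], []]], [], [(0, 0, 1, 0), (1, 2, 0, 0)]⟩

def lv2_3 : Level := ⟨0, [], [], []⟩

/-- Levels. -/
def lev2 : List Level := [lv2_0, lv2_1, lv2_2, lv2_3]

/-- Levels as a function. -/
def D2 (k : ℕ) : Level := lev2.getD k Level.zero

theorem check2 : ((List.range 3).all fun k => checkLevel 2 [0] D2 rels2 k) = true := by
  decide +kernel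

/-- Relations of the first 3 letters. -/
def rels3 : List Poly := [[(1, [0, 0])], [(1, [1, 1])], [(1, [2, 2])], [(1, [0, 2]), (-1, [2, 1]), (-1, [1, 0])], [(-1, [1, 2]), (1, [2, 0]), (-1, [0, 1])]]

def lv3_0 : Level := ⟨1, [[[], [], [(0, 1)]]], [2], []⟩

def lv3_1 : Level := ⟨1, [[[], [], []]], [], [(2, 2, 0, 0), (1, 3, 0, 0), (0, 4, 0, 0)]⟩

def lv3_2 : Level := ⟨0, [], [], []⟩

/-- Levels. -/
def lev3 : List Level := [lv3_0, lv3_1, lv3_2]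

/-- Levels as a function. -/
def D3 (k : ℕ) : Level := lev3.getD k Level.zero

theorem check3 : ((List.range 2).all fun k => checkLevel 3 [0, 1] D3 rels3 k) = true := by
  decide +kernel

/-- Relations of the first 4 letters. -/
def rels4 : List Poly := [[(1, [0, 0])], [(1, [1, 1])], [(1, [2, 2])], [(1, [3, 3])], [(1, [2, 3]), (-1, [3, 2])], [(1, [0, 2]), (-1, [2, 1]), (-1, [1, 0])], [(-1, [1, 2]), (1, [2, 0]), (-1, [0, 1])], [(1, [0, 3, 0]), (1, [3, 0, 3])], [(1, [1, 3, 1]), (1, [3, 1, 3])]]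

def lv4_0 : Level := ⟨1, [[[], [], [], [(0, 1)]]], [3], []⟩

def lv4_1 : Level := ⟨1, [[[(0, 1)], [(1, 1)], [], []]], [0, 1], [(3, 3, 0, 0), (2, 4, 0, 0)]⟩

def lv4_2 : Level := ⟨2, [[[], [(0, 1)], [(1, 1)], []], [[(1, 1)], [], [(0, -1)], []]], [1, 2], [(0, 0, 1, 0), (5, 1, 1, 0), (3, 7, 0, 0), (7, 8, 0, 0), (6, 6, 1, 0), (4, 5, 1, 0)]⟩

def lv4_3 : Level := ⟨2, [[[(0, 1)], [], [], []], [[], [(0, -1)], [], []]], [0], [(4, 0, 2, 1), (1, 1, 2, 0), (6, 2, 2, 0), (2, 2, 2, 1), (7, 4, 2, 0), (3, 4, 2, 1), (5, 5, 2, 0)]⟩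

def lv4_4 : Level := ⟨1, [[[], [], [], [(0, 1)]]], [3], [(0, 0, 3, 0), (1, 1, 3, 1), (2, 5, 3, 0)]⟩

def lv4_5 : Level := ⟨1, [[[], [], [], []]], [], [(3, 3, 4, 0), (2, 4, 4, 0), (0, 7, 3, 0), (1, 8, 3, 1)]⟩

def lv4_6 : Level := ⟨0, [], [], []⟩

/-- Levels. -/
def lev4 : List Level := [lv4_0, lv4_1, lv4_2, lv4_3, lv4_4, lv4_5, lv4_6]

/-- Levels as a function. -/
def D4 (k : ℕ) : Level := lev4.getD k Level.zero

theorem check4 : ((List.range 6).all fun k => checkLevel 4 [0, 1, 2] D4 rels4 k) = true := by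
  decide +kernel

/-- Relations of the first 5 letters. -/
def rels5 : List Poly := [[(1, [0, 0])], [(1, [1, 1])], [(1, [2, 2])], [(1, [3, 3])], [(1, [4, 4])], [(1, [1, 4]), (-1, [4, 1])], [(1, [2, 3]), (-1, [3, 2])], [(1, [0, 2]), (-1, [2, 1]), (-1, [1, 0])], [(-1, [1, 2]), (1, [2, 0]), (-1, [0, 1])], [(1, [0, 4]), (-1, [4, 3]), (-1, [3, 0])], [(-1, [3, 4]), (1, [4, 0]), (-1, [0, 3])], [(1, [1, 3, 1]), (1, [3, 1, 3])], [(1, [2, 4, 2]), (1, [4, 2, 4])]]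

def lv5_0 : Level := ⟨1, [[[], [], [], [], [(0, 1)]]], [4], []⟩

def lv5_1 : Level := ⟨1, [[[], [], [(0, 1)], [], []]], [2], [(4, 4, 0, 0), (1, 5, 0, 0), (3, 9, 0, 0), (0, 10, 0, 0)]⟩

def lv5_2 : Level := ⟨1, [[[], [], [], [], []]], [], [(2, 2, 1, 0), (3, 6, 1, 0), (1, 7, 1, 0), (0, 8, 1, 0), (4, 12, 0, 0)]⟩

def lv5_3 : Level := ⟨0, [], [], []⟩

/-- Levels. -/
def lev5 : List Level := [lv5_0, lv5_1, lv5_2, lv5_3]

/-- Levels as a function. -/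
def D5 (k : ℕ) : Level := lev5.getD k Level.zero

theorem check5 : ((List.range 3).all fun k => checkLevel 5 [0, 1, 2, 3] D5 rels5 k) = true := by
  decide +kernel

/-- Relations of the first 6 letters. -/
def rels6 : List Poly := [[(1, [0, 0])], [(1, [1, 1])], [(1, [2, 2])], [(1, [3, 3])], [(1, [4, 4])], [(1, [5, 5])], [(1, [0, 5]), (-1, [5, 0])], [(1, [1, 4]), (-1, [4, 1])], [(1, [2, 3]), (-1, [3, 2])], [(1, [3, 5]), (-1, [5, 3])], [(1, [4, 5]), (-1, [5, 4])], [(1, [0, 2]), (-1, [2, 1]), (-1, [1, 0])], [(-1, [1, 2]), (1, [2, 0]), (-1, [0, 1])], [(1, [0, 4]), (-1, [4, 3]), (-1, [3, 0])], [(-1, [3, 4]), (1, [4, 0]), (-1, [0, 3])], [(1, [1, 3, 1]), (1, [3, 1, 3])], [(1, [2, 4, 2]), (1, [4, 2, 4])], [(1, [5, 1, 5]), (1, [1, 5, 1])], [(1, [5, 2, 5]), (1, [2, 5, 2])]]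

def lv6_0 : Level := ⟨1, [[[], [], [], [], [], [(0, 1)]]], [5], []⟩

def lv6_1 : Level := ⟨1, [[[], [(0, 1)], [(1, 1)], [], [], []]], [1, 2], [(5, 5, 0, 0), (0, 6, 0, 0), (3, 9, 0, 0), (4, 10, 0, 0)]⟩

def lv6_2 : Level := ⟨2, [[[(0, 1)], [], [(1, 1)], [(2, 1)], [], []], [[(1, 1)], [(0, -1)], [], [], [(3, 1)], []]], [0, 2, 3, 10], [(1, 1, 1, 0), (8, 2, 1, 0), (4, 7, 1, 0), (9, 8, 1, 0), (5, 17, 0, 0), (11, 18, 0, 0), (7, 11, 1, 0), (6, 12, 1, 0)]⟩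

def lv6_3 : Level := ⟨4, [[[], [], [(0, 1)], [(1, 1)], [(2, 1)], []], [[], [(0, 1)], [], [(3, 1)], [(4, 1)], []], [[(2, 1)], [], [(3, 1)], [], [(1, -1)], []], [[(3, 1)], [(2, -1)], [], [(4, 1)], [], []]], [2, 3, 4, 9, 10], [(0, 0, 2, 0), (6, 0, 2, 1), (1, 1, 2, 1), (8, 2, 2, 0), (15, 3, 2, 0), (22, 4, 2, 1), (5, 6, 2, 0), (11, 6, 2, 1), (17, 9, 2, 0), (23, 10, 2, 1), (13, 15, 1, 0), (20, 16, 1, 0), (7, 11, 2, 0), (16, 14, 2, 0), (19, 7, 2, 1), (12, 13, 2, 0), (14, 8, 2, 0), (18, 14, 2, 1), (21, 13, 2, 1)]⟩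

def lv6_4 : Level := ⟨5, [[[], [], [], [(0, 1)], [(1, 1)], [(2, 1)]], [[(3, 1)], [], [(0, 1)], [], [], []], [[], [], [(4, 1)], [(3, -1)], [], []], [[], [(4, 1)], [], [], [(5, 1)], []], [[(5, 1)], [(1, 1)], [], [], [], []]], [3, 4, 5, 6, 14, 22], [(12, 0, 3, 2), (18, 0, 3, 3), (1, 1, 3, 1), (13, 1, 3, 3), (2, 2, 3, 0), (20, 2, 3, 2), (9, 3, 3, 0), (21, 3, 3, 1), (27, 3, 3, 3), (16, 4, 3, 0), (28, 4, 3, 1), (10, 4, 3, 2), (17, 6, 3, 2), (23, 6, 3, 3), (7, 7, 3, 2), (26, 8, 3, 3), (11, 9, 3, 0), (29, 9, 3, 3), (0, 11, 3, 1), (8, 8, 3, 0), (25, 7, 3, 1), (15, 13, 3, 0), (19, 11, 3, 2), (24, 13, 3, 3)]⟩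

def lv6_5 : Level := ⟨6, [[[(0, 1)], [(1, 1)], [], [], [(2, 1)], [(3, 1)]], [[(2, 1)], [], [(4, 1)], [(0, -1)], [], [(5, 1)]], [[], [], [], [(3, 1)], [(5, 1)], []], [[], [(0, 1)], [(1, 1)], [], [], []], [[], [], [], [(1, -1)], [(4, -1)], [(6, 1)]], [[], [(4, -1)], [(2, 1)], [], [], []]], [0, 1, 4, 5, 8, 11, 29], [(18, 0, 4, 1), (30, 0, 4, 4), (25, 1, 4, 3), (7, 1, 4, 4), (2, 2, 4, 1), (26, 2, 4, 2), (3, 3, 4, 0), (21, 3, 4, 2), (10, 4, 4, 0), (34, 4, 4, 3), (17, 5, 4, 0), (12, 6, 4, 0), (23, 6, 4, 1), (35, 6, 4, 4), (24, 11, 4, 3), (22, 13, 4, 1), (33, 13, 4, 3), (13, 17, 3, 1), (14, 18, 3, 0), (19, 12, 4, 1), (9, 13, 4, 0), (20, 11, 4, 1), (27, 15, 3, 1), (6, 14, 4, 0), (32, 16, 3, 2), (15, 9, 4, 0), (31, 12, 4, 4), (28, 16, 3, 0), (16, 10, 4, 0)]⟩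

def lv6_6 : Level := ⟨7, [[[], [], [(0, 1)], [], [], [(1, 1)]], [[(0, 1)], [], [], [], [(2, 1)], [(3, 1)]], [[], [(2, 1)], [], [], [], [(4, 1)]], [[(1, 1)], [(5, 1)], [], [], [(4, 1)], []], [[(2, 1)], [], [], [(0, -1)], [], [(6, 1)]], [[(4, 1)], [], [(7, 1)], [(1, -1)], [], []], [[], [], [], [(3, -1)], [(6, -1)], []]], [2, 5, 10, 11, 17, 19, 29, 32], [(0, 0, 5, 0), (12, 0, 5, 1), (7, 1, 5, 0), (1, 1, 5, 3), (25, 1, 5, 5), (26, 2, 5, 1), (8, 2, 5, 3), (14, 2, 5, 5), (3, 3, 5, 1), (21, 3, 5, 2), (9, 3, 5, 4), (16, 4, 5, 0), (34, 4, 5, 2), (28, 4, 5, 4), (23, 5, 5, 0), (35, 5, 5, 1), (41, 5, 5, 4), (36, 6, 5, 4), (31, 7, 5, 2), (4, 7, 5, 3), (20, 8, 5, 2), (15, 8, 5, 5), (37, 17, 4, 3), (38, 18, 4, 2), (27, 8, 5, 1), (6, 11, 5, 0), (18, 6, 5, 0), (33, 9, 5, 1), (13, 7, 5, 0), (24, 14, 5, 4), (39, 9, 5, 4), (30, 6, 5, 1), (22, 10, 5, 0), (40,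 10, 5, 4)]⟩

def lv6_7 : Level := ⟨8, [[[], [], [], [], [(0, 1)], [(1, 1)]], [[], [], [(2, 1)], [], [], []], [[], [], [], [(0, 1)], [], [(3, 1)]], [[(1, 1)], [(4, 1)], [], [], [(3, 1)], []], [[], [(5, 1)], [], [], [], []], [[(2, 1)], [], [], [], [(5, 1)], [(4, -1)]], [[(3, 1)], [], [(6, 1)], [(1, -1)], [], []], [[(5, 1)], [], [], [(2, -1)], [], [(6, -1)]]], [4, 5, 8, 17, 19, 25, 38], [(0, 0, 6, 1), (6, 0, 6, 3), (12, 0, 6, 4), (24, 0, 6, 5), (13, 1, 6, 2), (31, 1, 6, 3), (2, 2, 6, 0), (44, 2, 6, 5), (3, 3, 6, 4), (9, 3, 6, 5), (21, 3, 6, 6), (16, 4, 6, 1), (28, 4, 6, 3), (40, 4, 6, 6), (11, 5, 6, 0), (23, 5, 6, 1), (29, 5, 6, 2), (41, 5, 6, 4), (37, 7, 6, 6), (20, 8, 6, 6), (27, 9, 6, 2), (10, 10, 6, 0), (1, 11, 6, 0), (14, 11, 6, 4), (33, 15, 5, 2), (46, 16, 5, 2), (7, 17, 5, 3), (26, 18, 5, 5), (32, 12, 6, 3), (43, 11, 6, 5), (15, 13, 6,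 1), (18, 6, 6, 1), (39, 9, 6, 4), (45, 8, 6, 5), (30, 11, 6, 3), (36, 6, 6, 4), (22, 10, 6, 1), (35, 17, 5, 0), (34, 7, 6, 3), (42, 12, 6, 5), (47, 18, 5, 1)]⟩

def lv6_8 : Level := ⟨7, [[[], [], [], [], [], [(0, 1)]], [[], [(1, 1)], [(2, 1)], [], [(0, 1)], []], [[], [], [], [], [(3, 1)], [(2, -1)]], [[], [(4, 1)], [(5, 1)], [(0, 1)], [], []], [[(2, 1)], [], [(1, -1)], [], [(4, 1)], []], [[], [], [], [(3, 1)], [], [(4, -1)]], [[(4, 1)], [(5, 1)], [], [(2, -1)], [], []]], [5, 7, 8, 16, 19, 20], [(6, 0, 7, 3), (12, 0, 7, 5), (18, 0, 7, 6), (30, 0, 7, 7), (25, 1, 7, 3), (31, 1, 7, 4), (14, 2, 7, 1), (38, 2, 7, 6), (3, 3, 7, 2), (9, 3, 7, 6), (15, 3, 7, 7), (4, 4, 7, 0), (22, 4, 7, 3), (34, 4, 7, 5), (11, 5, 7, 0), (23, 5, 7, 2), (29, 5, 7, 5), (41, 5, 7, 7), (1, 7, 7, 0), (2, 8, 7, 2), (27, 9, 7, 5), (40, 10, 7, 7), (13, 11, 7, 1), (32, 11, 7,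 7), (0, 13, 7, 2), (21, 9, 7, 2), (10, 10, 7, 0), (26, 12, 7, 3), (39, 8, 7, 6), (24, 11, 7, 3), (17, 18, 6, 0), (33, 13, 7, 5), (28, 7, 7, 3), (36, 12, 7, 6), (35, 17, 6, 2), (37, 11, 7, 6)]⟩

def lv6_9 : Level := ⟨6, [[[], [(0, 1)], [(1, 1)], [], [], []], [[(2, 1)], [], [], [], [(0, 1)], []], [[], [(2, -1)], [], [], [(3, 1)], []], [[], [], [], [], [], [(3, -1)]], [[], [], [(4, 1)], [(3, 1)], [], []], [[(4, 1)], [], [], [(1, 1)], [], []]], [1, 2, 6, 16, 26], [(12, 0, 8, 4), (24, 0, 8, 6), (7, 1, 8, 1), (25, 1, 8, 3), (31, 1, 8, 6), (14, 2, 8, 1), (32, 2, 8, 3), (8, 2, 8, 4), (3, 3, 8, 3), (21, 3, 8, 5), (15, 3, 8, 6), (4, 4, 8, 1), (22, 4, 8, 2), (28, 4, 8, 4), (5, 5, 8, 0), (17, 5, 8, 2), (29, 5, 8, 5), (0, 6, 8, 0), (19, 7, 8, 2), (34, 7, 8, 6), (9, 8, 8, 4), (20, 8, 8, 5), (18, 13, 8, 5), (11, 17, 7, 0), (35, 17, 7, 7), (10, 7, 8, 1),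 (33, 8, 8, 3), (13, 11, 8, 1), (23, 10, 8, 2), (27, 13, 8, 4), (30, 11, 8, 6)]⟩

def lv6_10 : Level := ⟨5, [[[(0, 1)], [], [(1, 1)], [(2, 1)], [], []], [[(1, 1)], [(0, -1)], [], [], [(3, 1)], []], [[], [], [], [(0, 1)], [(2, 1)], []], [[], [(2, -1)], [(3, -1)], [], [], []], [[], [], [], [(3, -1)], [(1, 1)], []]], [0, 2, 3, 10], [(12, 0, 9, 1), (24, 0, 9, 5), (1, 1, 9, 0), (13, 1, 9, 2), (8, 2, 9, 0), (26, 2, 9, 4), (21, 3, 9, 4), (9, 3, 9, 5), (4, 4, 9, 1), (22, 4, 9, 2), (23, 5, 9, 3), (17, 6, 9, 1), (18, 6, 9, 3), (29, 6, 9, 5), (11, 9, 9, 5), (5, 10, 9, 1), (14, 11, 9, 1), (25, 11, 9, 4), (7, 11, 9, 0), (15, 14, 9, 1), (6, 12, 9, 0), (28, 16, 8, 4), (16, 13, 9, 1), (19, 15, 8, 3), (27, 14, 9, 5), (20, 16, 8, 1)]⟩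

def lv6_11 : Level := ⟨4, [[[], [], [], [], [(0, 1)], []], [[], [], [], [(1, 1)], [], []], [[(0, 1)], [], [(1, 1)], [], [], []], [[(1, 1)], [(0, -1)], [], [], [], []]], [4, 9], [(0, 0, 10, 0), (6, 0, 10, 1), (1, 1, 10, 1), (13, 1, 10, 3), (8, 2, 10, 0), (20, 2, 10, 3), (15, 3, 10, 0), (3, 3, 10, 2), (21, 3, 10, 4), (22, 4, 10, 1), (16, 4, 10, 2), (10, 4, 10, 4), (5, 6, 10, 0), (11, 6, 10, 1), (7, 7, 10, 4), (2, 8, 10, 2), (17, 9, 10, 0), (23, 9, 10, 4), (19, 7, 10, 1), (12, 13, 10, 0), (14, 8, 10, 0), (18, 13, 10, 4)]⟩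

def lv6_12 : Level := ⟨2, [[[], [], [(0, 1)], [], [], []], [[], [(0, 1)], [], [], [], []]], [2], [(0, 0, 11, 2), (6, 0, 11, 3), (1, 1, 11, 3), (8, 2, 11, 2), (9, 3, 11, 1), (4, 4, 11, 0), (5, 6, 11, 2), (11, 6, 11, 3), (3, 13, 11, 0), (10, 13, 11, 3), (7, 11, 11, 2)]⟩

def lv6_13 : Level := ⟨1, [[[], [], [], [], [], [(0, 1)]]], [5], [(1, 1, 12, 1), (2, 2, 12, 0), (4, 7, 12, 1), (3, 8, 12, 0), (0, 11, 12, 1)]⟩

def lv6_14 : Level := ⟨1, [[[], [], [], [], [], []]], [], [(5, 5, 13, 0), (0, 6, 13, 0), (3, 9, 13, 0), (4, 10, 13, 0), (1, 17, 12, 1), (2, 18, 12, 0)]⟩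

def lv6_15 : Level := ⟨0, [], [], []⟩

/-- Levels. -/
def lev6 : List Level := [lv6_0, lv6_1, lv6_2, lv6_3, lv6_4, lv6_5, lv6_6, lv6_7, lv6_8, lv6_9, lv6_10, lv6_11, lv6_12, lv6_13, lv6_14, lv6_15]

/-- Levels as a function. -/
def D6 (k : ℕ) : Level := lev6.getD k Level.zero

theorem check6 : ((List.range 15).all fun k => checkLevel 6 [0, 1, 2, 3, 4] D6 rels6 k) = true := by
  decide +kernel

/-- Relations of the first 7 letters. -/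
def rels7 : List Poly := [[(1, [0, 0])], [(1, [1, 1])], [(1, [2, 2])], [(1, [3, 3])], [(1, [4, 4])], [(1, [5, 5])], [(1, [6, 6])], [(1, [0, 5]), (-1, [5, 0])], [(1, [0, 6]), (-1, [6, 0])], [(1, [1, 4]), (-1, [4, 1])], [(1, [1, 6]), (-1, [6, 1])], [(1, [2, 3]), (-1, [3, 2])], [(1, [2, 6]), (-1, [6, 2])], [(1, [3, 5]), (-1, [5, 3])], [(1, [3, 6]), (-1, [6, 3])], [(1, [4, 5]), (-1, [5, 4])], [(1, [4, 6]), (-1, [6, 4])], [(1, [0, 2]), (-1, [2, 1]), (-1, [1, 0])], [(-1, [1, 2]), (1, [2, 0]), (-1, [0, 1])], [(1, [0, 4]), (-1, [4, 3]), (-1, [3, 0])], [(-1, [3, 4]), (1, [4, 0]), (-1, [0, 3])], [(1, [5, 6, 5]), (1, [6, 5, 6])], [(1, [1, 3, 1]), (1, [3, 1, 3])], [(1, [2, 4, 2]), (1, [4, 2, 4])], [(1, [5, 1, 5]), (1, [1, 5, 1])], [(1, [5, 2, 5]), (1, [2, 5, 2])]]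

def lv7_0 : Level := ⟨1, [[[], [], [], [], [], [], [(0, 1)]]], [6], []⟩

def lv7_1 : Level := ⟨1, [[[], [], [], [], [], [(0, 1)], []]], [5], [(6, 6, 0, 0), (0, 8, 0, 0), (1, 10, 0, 0), (2, 12, 0, 0), (3, 14, 0, 0), (4, 16, 0, 0)]⟩

def lv7_2 : Level := ⟨1, [[[], [(0, 1)], [(1, 1)], [], [], [], []]], [1, 2], [(5, 5, 1, 0), (0, 7, 1, 0), (3, 13, 1, 0), (4, 15, 1, 0), (6, 21, 0, 0)]⟩

def lv7_3 : Level := ⟨2, [[[(0, 1)], [], [(1, 1)], [(2, 1)], [], [], []], [[(1, 1)], [(0, -1)], [], [], [(3, 1)], [], []]], [0, 2, 3, 11], [(1, 1, 2, 0), (9, 2, 2, 0), (4, 9, 2, 0), (6, 10, 2, 0), (10, 11, 2, 0), (13, 12, 2, 0), (5, 24, 1, 0), (12, 25, 1, 0), (8, 17, 2, 0), (7, 18, 2, 0)]⟩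

def lv7_4 : Level := ⟨4, [[[], [], [(0, 1)], [(1, 1)], [(2, 1)], [], []], [[], [(0, 1)], [], [(3, 1)], [(4, 1)], [], []], [[(2, 1)], [], [(3, 1)], [], [(1, -1)], [], []], [[(3, 1)], [(2, -1)], [], [(4, 1)], [], [], []]], [2, 3, 4, 10, 11], [(0, 0, 3, 0), (7, 0, 3, 1), (1, 1, 3, 1), (9, 2, 3, 0), (17, 3, 3, 0), (25, 4, 3, 1), (5, 7, 3, 0), (12, 7, 3, 1), (6, 8, 3, 0), (13, 8, 3, 1), (19, 13, 3, 0), (20, 14, 3, 0), (26, 15, 3, 1), (27, 16, 3, 1), (15, 22, 2, 0), (23, 23, 2, 0), (8, 17, 3, 0), (18, 20, 3, 0), (22, 9, 3, 1), (14, 19, 3, 0), (16, 11, 3, 0), (21, 20, 3, 1), (24, 19, 3, 1)]⟩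

def lv7_5 : Level := ⟨5, [[[], [], [], [(0, 1)], [(1, 1)], [(2, 1)], []], [[(3, 1)], [], [(0, 1)], [], [], [], []], [[], [], [(4, 1)], [(3, -1)], [], [], []], [[], [(4, 1)], [], [], [(5, 1)], [], []], [[(5, 1)], [(1, 1)], [], [], [], [], []]], [3, 4, 5, 7, 16, 25], [(14, 0, 4, 2), (21, 0, 4, 3), (1, 1, 4, 1), (15, 1, 4, 3), (2, 2, 4, 0), (23, 2, 4, 2), (10, 3, 4, 0), (24, 3, 4, 1), (31, 3, 4, 3), (18, 4, 4, 0), (32, 4, 4, 1), (11, 4, 4, 2), (19, 7, 4, 2), (26, 7, 4, 3), (20, 8, 4, 2), (27, 8, 4, 3), (8, 9, 4, 2), (6, 10, 4, 1), (30, 11, 4, 3), (12, 13, 4, 0), (33, 13, 4, 3), (13, 14, 4, 0), (34, 14, 4, 3), (0, 17, 4, 1), (9, 11, 4, 0), (29, 9, 4, 1), (17, 19, 4, 0), (22, 17, 4, 2), (28, 19, 4, 3)]⟩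

def lv7_6 : Level := ⟨6, [[[(0, 1)], [(1, 1)], [], [], [(2, 1)], [(3, 1)], []], [[(2, 1)], [], [(4, 1)], [(0, -1)], [], [(5, 1)], []], [[], [], [], [(3, 1)], [(5, 1)], [], [(6, 1)]], [[], [(0, 1)], [(1, 1)], [], [], [], []], [[], [], [], [(1, -1)], [(4, -1)], [(7, 1)], []], [[], [(4, -1)], [(2, 1)], [], [], [], []]], [0, 1, 4, 5, 9, 12, 20, 33], [(21, 0, 5, 1), (35, 0, 5, 4), (29, 1, 5, 3), (8, 1, 5, 4), (2, 2, 5, 1), (30, 2, 5, 2), (3, 3, 5, 0), (24, 3, 5, 2), (11, 4, 5, 0), (39, 4, 5, 3), (19, 5, 5, 0), (14, 7, 5, 0), (26, 7, 5, 1), (40, 7, 5, 4), (27, 8, 5, 1), (41, 8, 5, 4), (34, 10, 5, 3), (13, 10, 5, 4), (6, 12, 5, 1), (28, 17, 5, 3), (25, 19, 5, 1), (38, 19, 5, 3), (15, 24, 4, 1), (16, 25, 4, 0), (22, 18, 5, 1), (10, 19, 5, 0), (23, 17, 5, 1), (31, 22, 4, 1), (7, 20, 5, 0), (37, 23, 4, 2), (17, 13, 5, 0), (36, 18, 5, 4), (32, 23, 4,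 0), (18, 15, 5, 0)]⟩

def lv7_7 : Level := ⟨8, [[[], [], [(0, 1)], [], [], [(1, 1)], []], [[(0, 1)], [], [], [], [(2, 1)], [(3, 1)], []], [[], [(2, 1)], [], [], [], [(4, 1)], []], [[(1, 1)], [(5, 1)], [], [], [(4, 1)], [], [(6, 1)]], [[(2, 1)], [], [], [(0, -1)], [], [(7, 1)], []], [[(4, 1)], [], [(8, 1)], [(1, -1)], [], [], [(9, 1)]], [[], [], [], [(6, 1)], [(9, 1)], [], []], [[], [], [], [(3, -1)], [(7, -1)], [], [(10, 1)]]], [2, 5, 11, 12, 19, 22, 27, 33, 37, 41, 55], [(0, 0, 6, 0), (14, 0, 6, 1), (8, 1, 6, 0), (1, 1, 6, 3), (29, 1, 6, 5), (30, 2, 6, 1), (9, 2, 6, 3), (16, 2, 6, 5), (3, 3, 6, 1), (24, 3, 6, 2), (10, 3, 6, 4), (18, 4, 6, 0), (39, 4, 6, 2), (32, 4, 6, 4), (26, 5, 6, 0), (40, 5, 6, 1), (54, 5, 6, 4), (48, 6, 6, 2), (49, 7, 6, 4), (6, 8, 6, 0), (20, 8, 6, 1), (42, 8, 6, 2), (36, 9, 6, 2), (4, 9, 6, 3), (13, 10, 6, 0), (43,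 10, 6, 2), (34, 10, 6, 5), (23, 11, 6, 2), (17, 11, 6, 5), (44, 12, 6, 2), (47, 21, 5, 0), (50, 24, 5, 3), (51, 25, 5, 2), (31, 11, 6, 1), (7, 17, 6, 0), (21, 7, 6, 0), (38, 13, 6, 1), (15, 9, 6, 0), (28, 20, 6, 4), (52, 13, 6, 4), (35, 7, 6, 1), (25, 15, 6, 0), (45, 14, 6, 2), (53, 15, 6, 4), (46, 16, 6, 2)]⟩

def lv7_8 : Level := ⟨11, [[[], [], [], [], [(0, 1)], [(1, 1)], []], [[], [], [(2, 1)], [], [], [], [(3, 1)]], [[], [], [], [(0, 1)], [], [(4, 1)], []], [[(1, 1)], [(5, 1)], [], [], [(4, 1)], [], [(6, 1)]], [[], [(7, 1)], [], [], [], [], [(8, 1)]], [[(2, 1)], [], [], [], [(7, 1)], [(5, -1)], [(9, 1)]], [[(3, 1)], [(9, 1)], [], [], [(8, 1)], [], []], [[(4, 1)], [], [(10, 1)], [(1, -1)], [], [], [(11, 1)]], [[(7, 1)], [], [], [(2, -1)], [], [(10, -1)], [(12, 1)]], [[(8, 1)], [], [(12, 1)], [(3, -1)], [], [], []], [[], [], [], [(6, -1)],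 [(11, -1)], [], []]], [4, 5, 9, 13, 19, 22, 27, 29, 34, 41, 51, 55, 62], [(0, 0, 7, 1), (7, 0, 7, 3), (14, 0, 7, 4), (28, 0, 7, 5), (15, 1, 7, 2), (36, 1, 7, 3), (2, 2, 7, 0), (58, 2, 7, 5), (3, 3, 7, 4), (10, 3, 7, 5), (45, 3, 7, 6), (24, 3, 7, 7), (18, 4, 7, 1), (32, 4, 7, 3), (67, 4, 7, 6), (53, 4, 7, 7), (12, 5, 7, 0), (26, 5, 7, 1), (33, 5, 7, 2), (54, 5, 7, 4), (48, 6, 7, 3), (69, 6, 7, 5), (76, 6, 7, 7), (6, 8, 7, 1), (20, 8, 7, 4), (70, 8, 7, 7), (64, 9, 7, 6), (50, 9, 7, 7), (71, 10, 7, 7), (44, 11, 7, 6), (23, 11, 7, 7), (72, 12, 7, 7), (31, 13, 7, 2), (47, 13, 7, 6), (11, 15, 7, 0), (68, 15, 7, 6), (1, 17, 7, 0), (16, 17, 7, 4), (75, 21, 6, 4), (38, 22, 6, 2), (60, 23, 6, 2), (8, 24, 6, 3), (30, 25, 6, 5), (37, 18, 7, 3), (57, 17, 7, 5), (17, 19, 7, 1), (21, 7, 7, 1), (52, 13, 7, 4), (59, 11, 7, 5), (35, 17, 7, 3), (42, 8, 7, 3),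 (66, 14, 7, 5), (49, 7, 7, 4), (25, 15, 7, 1), (40, 24, 6, 0), (73, 14, 7, 7), (39, 9, 7, 3), (56, 18, 7, 5), (63, 8, 7, 5), (46, 16, 7, 3), (43, 10, 7, 3), (61, 25, 6, 1), (74, 16, 7, 7), (65, 12, 7, 5)]⟩

def lv7_9 : Level := ⟨13, [[[], [], [], [], [], [(0, 1)], []], [[], [(1, 1)], [(2, 1)], [], [(0, 1)], [], [(3, 1)]], [[], [], [], [], [(4, 1)], [(2, -1)], [(5, 1)]], [[], [], [(5, 1)], [], [], [], []], [[], [(6, 1)], [(7, 1)], [(0, 1)], [], [], [(8, 1)]], [[(2, 1)], [], [(1, -1)], [], [(6, 1)], [], [(9, 1)]], [[(3, 1)], [(9, 1)], [], [], [(8, 1)], [], []], [[], [], [], [(4, 1)], [], [(6, -1)], [(10, 1)]], [[], [(10, 1)], [], [], [], [], []], [[(5, 1)], [], [], [], [(10, 1)], [(11, 1)], []], [[(6, 1)], [(7, 1)], [], [(2, -1)], [], [], [(12, 1)]], [[(8, 1)], [], [(12, 1)], [(3, -1)], [], [], []], [[(10, 1)], [], [], [(5, -1)], [], [(13, 1)],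 []]], [5, 8, 9, 13, 18, 20, 29, 30, 34, 41, 55, 68, 76, 89], [(7, 0, 8, 3), (14, 0, 8, 5), (21, 0, 8, 6), (28, 0, 8, 7), (49, 0, 8, 8), (56, 0, 8, 9), (36, 1, 8, 3), (50, 1, 8, 4), (64, 1, 8, 6), (16, 2, 8, 1), (72, 2, 8, 7), (86, 2, 8, 9), (3, 3, 8, 2), (10, 3, 8, 7), (17, 3, 8, 8), (24, 3, 8, 9), (45, 3, 8, 10), (4, 4, 8, 0), (32, 4, 8, 3), (53, 4, 8, 5), (60, 4, 8, 6), (81, 4, 8, 10), (12, 5, 8, 0), (33, 5, 8, 2), (40, 5, 8, 5), (75, 5, 8, 8), (27, 6, 8, 1), (48, 6, 8, 3), (62, 6, 8, 4), (69, 6, 8, 5), (83, 6, 8, 7), (90, 6, 8, 8), (26, 7, 8, 6), (61, 7, 8, 9), (1, 9, 8, 0), (78, 9, 8, 10), (22, 10, 8, 1), (85, 10, 8, 8), (2, 11, 8, 2), (44, 11, 8, 10), (58, 12, 8, 4), (65, 12, 8, 5), (38, 13, 8, 5), (47, 13, 8, 10), (6, 14, 8, 2), (59, 14, 8, 4), (66, 14, 8, 5), (74, 15, 8, 8), (82, 15, 8, 10), (25, 16, 8, 1), (88, 16, 8, 8), (15, 17,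 8, 1), (51, 17, 8, 8), (0, 19, 8, 2), (31, 13, 8, 2), (11, 15, 8, 0), (37, 18, 8, 3), (73, 11, 8, 7), (35, 17, 8, 3), (19, 25, 7, 0), (42, 8, 8, 3), (80, 14, 8, 7), (52, 19, 8, 5), (63, 8, 8, 5), (23, 12, 8, 1), (87, 14, 8, 8), (39, 9, 8, 3), (70, 18, 8, 7), (54, 24, 7, 2), (71, 17, 8, 7), (77, 8, 8, 7), (46, 16, 8, 3), (43, 10, 8, 3), (84, 8, 8, 8), (57, 10, 8, 4), (67, 16, 8, 5), (79, 12, 8, 7)]⟩

def lv7_10 : Level := ⟨14, [[[], [(0, 1)], [(1, 1)], [], [], [], [(2, 1)]], [[(3, 1)], [], [], [], [(0, 1)], [], [(4, 1)]], [[], [(3, -1)], [], [], [(5, 1)], [], [(6, 1)]], [[], [(4, 1)], [(6, 1)], [], [(2, 1)], [], []], [[], [], [], [], [], [(5, -1)], [(7, 1)]], [[], [], [], [], [(7, 1)], [(8, 1)], []], [[], [], [(9, 1)], [(5, 1)], [], [], [(10, 1)]], [[(9, 1)], [], [], [(1, 1)], [], [], [(11, 1)]], [[], [(10, 1)], [(11, 1)], [(2, 1)], [], [],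 []], [[(6, 1)], [], [(4, -1)], [], [(10, 1)], [(12, 1)], []], [[], [], [], [(7, 1)], [], [(13, 1)], []], [[(8, 1)], [], [(14, 1)], [], [(13, 1)], [], [(12, 1)]], [[(10, 1)], [(11, 1)], [], [(6, -1)], [], [(15, 1)], []], [[(13, 1)], [(16, 1)], [], [(8, -1)], [], [], [(15, 1)]]], [1, 2, 6, 7, 13, 18, 20, 34, 40, 44, 48, 55, 68, 75, 79, 89, 92], [(14, 0, 9, 5), (21, 0, 9, 6), (35, 0, 9, 9), (42, 0, 9, 10), (56, 0, 9, 11), (70, 0, 9, 12), (8, 1, 9, 1), (43, 1, 9, 4), (64, 1, 9, 6), (71, 1, 9, 8), (50, 1, 9, 10), (16, 2, 9, 1), (37, 2, 9, 3), (51, 2, 9, 4), (9, 2, 9, 5), (86, 2, 9, 11), (3, 3, 9, 4), (31, 3, 9, 7), (17, 3, 9, 10), (24, 3, 9, 11), (38, 3, 9, 12), (4, 4, 9, 1), (32, 4, 9, 2), (46, 4, 9, 5), (60, 4, 9, 6), (74, 4, 9, 9), (5, 5, 9, 0), (19, 5, 9, 2), (47, 5, 9, 7), (82, 5, 9, 9), (96, 5, 9, 12), (27, 6, 9, 1), (41, 6, 9, 2), (62, 6,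 9, 4), (69, 6, 9, 5), (76, 6, 9, 7), (90, 6, 9, 10), (0, 7, 9, 0), (26, 7, 9, 6), (61, 7, 9, 11), (29, 9, 9, 2), (53, 9, 9, 10), (36, 10, 9, 2), (10, 11, 9, 5), (30, 11, 9, 7), (72, 12, 9, 7), (80, 13, 9, 9), (66, 14, 9, 5), (95, 15, 9, 12), (88, 16, 9, 10), (28, 19, 9, 7), (12, 24, 8, 0), (78, 24, 8, 6), (54, 24, 8, 8), (93, 25, 8, 9), (11, 9, 9, 1), (52, 11, 9, 4), (59, 14, 9, 4), (25, 16, 9, 1), (15, 17, 9, 1), (22, 10, 9, 1), (65, 12, 9, 5), (33, 15, 9, 2), (45, 19, 9, 5), (63, 8, 9, 5), (23, 12, 9, 1), (87, 14, 9, 10), (73, 14, 9, 7), (39, 16, 9, 2), (77, 7, 9, 9), (94, 13, 9, 12), (49, 17, 9, 10), (84, 8, 9, 10), (57, 10, 9, 4), (67, 16, 9, 5), (85, 10, 9, 10), (58, 12, 9, 4), (83, 21, 8, 5), (91, 7, 9, 12), (81, 15, 9, 9), (97, 21, 8, 8)]⟩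

def lv7_11 : Level := ⟨17, [[[(0, 1)], [], [(1, 1)], [(2, 1)], [], [], [(3, 1)]], [[(1, 1)], [(0, -1)], [], [], [(4, 1)], [], [(5, 1)]], [[], [(3, 1)], [(5, 1)], [], [], [], []], [[], [], [], [(0, 1)], [(2, 1)], [], [(6, 1)]], [[(6, 1)], [], [], [], [(3, 1)], [(7, 1)], []], [[], [(2, -1)], [(4, -1)], [], [], [], [(8, 1)]], [[], [(6, -1)], [], [], [(8, 1)], [(9, 1)], []], [[], [], [], [], [], [(10, 1)], []], [[], [(11, 1)], [], [], [(10, 1)], [], [(9, 1)]], [[], [], [], [(4, -1)], [(1, 1)], [], [(12, 1)]], [[], [], [(12, 1)], [(8, 1)], [], [(13, 1)], []], [[(12, 1)], [], [], [(5, 1)], [], [(14, 1)], []], [[(9, 1)], [], [(15, 1)], [], [(13, 1)], [], []], [[], [], [(16, 1)], [(10, 1)], [], [], [(13, 1)]], [[(11, 1)], [], [], [], [(17, 1)], [], [(15, 1)]], [[(13, 1)], [(18, 1)], [], [(9, -1)], [], [], []], [[(16, 1)], [], [], [(19, 1)], [], [],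 [(18, 1)]]], [0, 2, 3, 6, 11, 13, 27, 33, 41, 47, 54, 57, 69, 75, 82, 86, 93, 102, 106, 115], [(21, 0, 10, 1), (63, 0, 10, 7), (42, 0, 10, 9), (56, 0, 10, 11), (70, 0, 10, 12), (91, 0, 10, 13), (1, 1, 10, 0), (22, 1, 10, 2), (29, 1, 10, 3), (71, 1, 10, 8), (78, 1, 10, 12), (113, 1, 10, 13), (9, 2, 10, 0), (44, 2, 10, 3), (65, 2, 10, 6), (79, 2, 10, 8), (30, 2, 10, 9), (100, 2, 10, 11), (38, 3, 10, 6), (10, 3, 10, 7), (17, 3, 10, 8), (52, 3, 10, 10), (45, 3, 10, 12), (59, 3, 10, 13), (4, 4, 10, 1), (39, 4, 10, 2), (18, 4, 10, 3), (53, 4, 10, 5), (74, 4, 10, 9), (95, 4, 10, 11), (40, 5, 10, 4), (61, 5, 10, 5), (89, 5, 10, 9), (96, 5, 10, 10), (110, 5, 10, 12), (20, 6, 10, 0), (34, 6, 10, 1), (48, 6, 10, 2), (55, 6, 10, 4), (76, 6, 10, 6), (83, 6, 10, 7), (90, 6, 10, 11), (111, 6, 10, 13), (26, 7, 10, 1), (35, 7, 10, 4), (68, 7, 10, 7), (14,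 8, 10, 0), (49, 8, 10, 4), (50, 9, 10, 5), (92, 9, 10, 11), (81, 9, 10, 12), (116, 9, 10, 13), (85, 10, 10, 11), (31, 11, 10, 9), (51, 11, 10, 10), (101, 11, 10, 11), (58, 11, 10, 13), (107, 12, 10, 13), (12, 13, 10, 7), (19, 13, 10, 8), (87, 13, 10, 9), (5, 15, 10, 1), (109, 15, 10, 12), (23, 17, 10, 1), (64, 17, 10, 6), (117, 24, 9, 12), (103, 25, 9, 9), (114, 18, 10, 13), (99, 17, 10, 11), (8, 17, 10, 0), (24, 20, 10, 1), (7, 18, 10, 0), (67, 23, 9, 5), (25, 19, 10, 1), (36, 22, 9, 4), (15, 10, 10, 0), (32, 16, 10, 1), (66, 20, 10, 7), (37, 23, 9, 1), (16, 12, 10, 0), (80, 14, 10, 7), (28, 8, 10, 1), (43, 10, 10, 2), (73, 14, 10, 6), (46, 16, 10, 2), (84, 7, 10, 9), (108, 13, 10, 12), (62, 21, 9, 2), (94, 13, 10, 10), (60, 15, 10, 5), (98, 18, 10, 11), (77, 8, 10, 7), (72, 12, 10, 6), (105, 7, 10, 12), (88, 15, 10, 9), (97, 21, 9, 7), (104,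 12, 10, 11), (112, 17, 10, 13), (118, 10, 10, 13)]⟩

def lv7_12 : Level := ⟨20, [[[], [], [], [], [(0, 1)], [], [(1, 1)]], [[], [], [], [(2, 1)], [], [], [(3, 1)]], [[(0, 1)], [], [(2, 1)], [], [], [], [(4, 1)]], [[(1, 1)], [], [(3, 1)], [(4, 1)], [], [(5, 1)], []], [[(2, 1)], [(0, -1)], [], [], [], [], [(6, 1)]], [[(3, 1)], [(1, -1)], [], [], [(6, 1)], [(7, 1)], []], [[], [], [], [(1, 1)], [(4, 1)], [(8, 1)], []], [[(8, 1)], [], [(9, 1)], [], [(5, 1)], [], []], [[], [(4, -1)], [(6, -1)], [], [], [(10, 1)], []], [[], [(11, 1)], [], [], [(10, 1)], [], []], [[], [(12, 1)], [(13, 1)], [], [], [], [(10, 1)]], [[], [], [], [(14, 1)], [(12, 1)], [], [(11, 1)]], [[], [], [], [(6, -1)], [(3, 1)], [(15, 1)], []], [[], [], [(16, 1)], [(10, 1)], [], [], []], [[(15, 1)], [(17, 1)], [], [(7, 1)], [], [], []], [[(11, 1)], [], [], [], [(18, 1)], [(9, 1)],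 []], [[], [], [], [(13, 1)], [(19, 1)], [], [(16, 1)]], [[(14, 1)], [], [(19, -1)], [(12, 1)], [], [], [(18, 1)]], [[(16, 1)], [], [], [(20, 1)], [], [(17, -1)], []], [[(19, 1)], [(14, 1)], [], [], [(13, -1)], [], [(20, 1)]]], [4, 6, 10, 13, 20, 26, 34, 40, 47, 51, 61, 64, 71, 72, 80, 89, 93, 99, 109, 116, 129], [(0, 0, 11, 0), (7, 0, 11, 1), (42, 0, 11, 4), (84, 0, 11, 11), (63, 0, 11, 12), (77, 0, 11, 14), (91, 0, 11, 15), (112, 0, 11, 16), (1, 1, 11, 1), (22, 1, 11, 2), (15, 1, 11, 5), (43, 1, 11, 6), (78, 1, 11, 8), (127, 1, 11, 15), (9, 2, 11, 0), (37, 2, 11, 2), (30, 2, 11, 5), (86, 2, 11, 10), (107, 2, 11, 12), (114, 2, 11, 13), (17, 3, 11, 0), (3, 3, 11, 3), (31, 3, 11, 9), (59, 3, 11, 10), (38, 3, 11, 11), (73, 3, 11, 13), (66, 3, 11, 15), (136, 3, 11, 16), (32, 4, 11, 1), (18, 4, 11, 3), (25, 4, 11, 4), (60, 4, 11, 6), (74, 4, 11,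 8), (11, 4, 11, 9), (95, 4, 11, 12), (123, 4, 11, 14), (54, 5, 11, 4), (68, 5, 11, 6), (75, 5, 11, 7), (96, 5, 11, 10), (103, 5, 11, 11), (27, 6, 11, 0), (41, 6, 11, 1), (48, 6, 11, 3), (62, 6, 11, 5), (69, 6, 11, 8), (90, 6, 11, 9), (97, 6, 11, 13), (111, 6, 11, 14), (132, 6, 11, 16), (5, 7, 11, 0), (12, 7, 11, 1), (70, 7, 11, 7), (82, 7, 11, 14), (117, 7, 11, 16), (56, 8, 11, 5), (8, 9, 11, 9), (92, 9, 11, 12), (120, 9, 11, 14), (130, 9, 11, 15), (85, 10, 11, 9), (106, 10, 11, 14), (2, 11, 11, 3), (108, 11, 11, 12), (65, 11, 11, 15), (135, 11, 11, 16), (44, 12, 11, 3), (128, 12, 11, 16), (19, 13, 11, 0), (52, 13, 11, 4), (33, 13, 11, 9), (138, 13, 11, 16), (102, 15, 11, 11), (124, 15, 11, 14), (113, 17, 11, 13), (79, 17, 11, 14), (55, 21, 10, 1), (104, 21, 10, 7), (50, 24, 10, 3), (100, 25, 10, 8), (29, 9, 11, 1), (14, 19, 11, 0), (21, 8,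 11, 0), (36, 10, 11, 1), (45, 14, 11, 3), (16, 11, 11, 0), (28, 19, 11, 9), (35, 8, 11, 1), (23, 12, 11, 0), (88, 16, 11, 9), (57, 10, 11, 5), (24, 14, 11, 0), (46, 16, 11, 3), (53, 15, 11, 4), (58, 12, 11, 5), (87, 14, 11, 9), (39, 16, 11, 1), (101, 13, 11, 11), (49, 7, 11, 4), (110, 25, 10, 9), (94, 13, 11, 10), (67, 15, 11, 6), (76, 21, 10, 4), (83, 10, 11, 8), (105, 18, 11, 12), (81, 9, 11, 8), (122, 19, 11, 14), (115, 11, 11, 13), (137, 20, 11, 16), (119, 20, 11, 14), (134, 22, 10, 13), (98, 7, 11, 11), (118, 12, 11, 13), (126, 17, 11, 15), (131, 24, 10, 12), (125, 16, 11, 14), (133, 19, 11, 16), (121, 23, 10, 11), (139, 14, 11, 16)]⟩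

def lv7_13 : Level := ⟨21, [[[], [], [(0, 1)], [], [], [], [(1, 1)]], [[], [], [], [], [(1, 1)], [(2, 1)], []], [[], [(0, 1)], [], [], [], [], [(3, 1)]], [[], [], [], [(3, 1)], [], [(4, 1)], []], [[(1, 1)], [], [(3, 1)], [], [], [(5, 1)], []], [[(2, 1)], [], [(6, 1)], [(5, 1)], [], [], []], [[(3, 1)], [(1, -1)], [], [], [], [(7, 1)], []], [[(4, 1)], [(8, 1)], [], [], [(7, 1)], [], []], [[], [(9, 1)], [(10, 1)], [(2, 1)], [(5, 1)], [], []], [[(9, 1)], [(10, 1)], [], [], [(11, 1)], [], []], [[], [(12, 1)], [(13, 1)], [], [], [], []], [[], [], [], [(14, 1)], [(12, 1)], [(9, 1)], []], [[(15, 1)], [], [(16, 1)], [], [], [], [(12, 1)]], [[(16, 1)], [(15, -1)], [], [], [], [], [(13, 1)]], [[], [], [], [], [(15, 1)], [], [(14, 1)]], [[], [(17, 1)], [(18, 1)], [(7, -1)], [(4, 1)], [], []], [[], [], [], [(13, 1)], [(19, 1)], [(18, -1)], []], [[(18,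 1)], [], [(17, -1)], [(20, 1)], [], [], []], [[(14, 1)], [], [(19, -1)], [(12, 1)], [], [(11, 1)], []], [[], [], [], [(16, -1)], [], [], [(19, 1)]], [[(19, 1)], [(14, 1)], [], [], [(13, -1)], [(20, -1)], []]], [2, 6, 12, 20, 26, 33, 37, 47, 50, 57, 58, 67, 71, 72, 80, 84, 86, 106, 107, 116, 122], [(0, 0, 12, 2), (7, 0, 12, 3), (14, 0, 12, 4), (21, 0, 12, 5), (56, 0, 12, 7), (105, 0, 12, 14), (77, 0, 12, 15), (98, 0, 12, 17), (112, 0, 12, 18), (133, 0, 12, 19), (1, 1, 12, 4), (8, 1, 12, 5), (29, 1, 12, 8), (78, 1, 12, 9), (85, 1, 12, 10), (120, 1, 12, 14), (99, 1, 12, 19), (16, 2, 12, 2), (23, 2, 12, 3), (65, 2, 12, 7), (44, 2, 12, 8), (93, 2, 12, 10), (114, 2, 12, 13), (135, 2, 12, 17), (17, 3, 12, 1), (31, 3, 12, 3), (10, 3, 12, 6), (101, 3, 12, 11), (45, 3, 12, 12), (73, 3, 12, 13), (52, 3, 12, 14), (94, 3, 12, 16), (87, 3, 12, 17), (143,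 3, 12, 18), (4, 4, 12, 0), (46, 4, 12, 5), (32, 4, 12, 6), (39, 4, 12, 7), (74, 4, 12, 9), (88, 4, 12, 11), (25, 4, 12, 12), (130, 4, 12, 15), (137, 4, 12, 16), (95, 4, 12, 19), (40, 5, 12, 3), (54, 5, 12, 5), (61, 5, 12, 6), (75, 5, 12, 8), (110, 5, 12, 12), (68, 5, 12, 15), (124, 5, 12, 18), (13, 6, 12, 0), (27, 6, 12, 1), (34, 6, 12, 2), (48, 6, 12, 4), (76, 6, 12, 10), (83, 6, 12, 11), (118, 6, 12, 16), (132, 6, 12, 17), (146, 6, 12, 19), (5, 7, 12, 2), (19, 7, 12, 4), (70, 7, 12, 8), (103, 7, 12, 17), (138, 7, 12, 19), (62, 8, 12, 7), (111, 8, 12, 14), (36, 9, 12, 7), (22, 9, 12, 12), (123, 9, 12, 14), (127, 9, 12, 15), (134, 9, 12, 16), (125, 10, 12, 14), (113, 10, 12, 16), (9, 11, 12, 6), (66, 11, 12, 7), (100, 11, 12, 11), (51, 11, 12, 14), (142, 11, 12, 18), (69, 12, 12, 7), (79, 12, 12, 11), (96, 13, 12, 16), (89, 13, 12, 17), (55,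 14, 12, 14), (41, 16, 12, 7), (3, 19, 12, 0), (18, 19, 12, 4), (15, 17, 12, 2), (28, 8, 12, 2), (43, 10, 12, 4), (11, 16, 12, 0), (35, 7, 12, 3), (59, 13, 12, 6), (42, 8, 12, 4), (30, 12, 12, 2), (24, 14, 12, 1), (49, 7, 12, 5), (109, 15, 12, 12), (38, 13, 12, 3), (60, 15, 12, 6), (108, 13, 12, 12), (53, 15, 12, 5), (63, 18, 12, 7), (82, 24, 11, 6), (64, 17, 12, 7), (131, 15, 12, 15), (81, 9, 12, 9), (90, 10, 12, 10), (129, 19, 12, 15), (115, 11, 12, 13), (97, 12, 12, 10), (144, 20, 12, 18), (104, 14, 12, 11), (126, 20, 12, 15), (141, 22, 11, 15), (92, 17, 12, 10), (102, 19, 12, 17), (136, 11, 12, 17), (91, 18, 12, 10), (121, 18, 12, 14), (119, 17, 12, 14), (117, 25, 11, 10), (139, 16, 12, 16), (140, 19, 12, 18), (128, 23, 11, 12), (145, 13, 12, 18)]⟩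

def lv7_14 : Level := ⟨21, [[[], [], [], [], [], [(0, 1)], [(1, 1)]], [[], [], [(1, 1)], [], [], [(2, 1)], []], [[], [(3, 1)], [(4, 1)], [], [(2, 1)], [], []], [[], [(1, 1)], [], [], [], [(5, 1)], []], [[], [(6, 1)], [(7, 1)], [(5, 1)], [], [], []], [[(2, 1)], [(8, 1)], [(9, 1)], [], [], [], []], [[(3, 1)], [(4, 1)], [], [(9, 1)], [(10, 1)], [(7, -1)], []], [[(5, 1)], [(11, 1)], [(12, 1)], [], [], [], []], [[(7, 1)], [], [(6, -1)], [(13, 1)], [(11, 1)], [(3, 1)], []], [[], [], [(14, 1)], [(15, 1)], [(8, 1)], [], []], [[(14, 1)], [], [], [(4, 1)], [(16, 1)], [], []], [[(15, 1)], [(16, 1)], [(10, -1)], [(8, 1)], [], [], []], [[(17, 1)], [], [(18, 1)], [], [], [(8, 1)], []], [[(18, 1)], [(17, -1)], [], [], [], [(12, 1)], []], [[], [], [], [], [(17, 1)], [(15, 1)], []], [[], [], [(19, 1)], [], [], [], [(17, 1)]], [[], [(19, 1)], [], [], [], [],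 [(18, 1)]], [[(20, 1)], [], [], [(21, 1)], [(6, 1)], [], []], [[], [(20, -1)], [], [(12, -1)], [(22, 1)], [], []], [[], [], [], [(18, -1)], [], [(22, -1)], []], [[(22, 1)], [(13, -1)], [(21, -1)], [], [(12, 1)], [], []]], [5, 6, 12, 15, 16, 26, 29, 30, 36, 37, 46, 50, 51, 59, 65, 66, 74, 84, 86, 107, 119, 122, 130], [(7, 0, 13, 4), (14, 0, 13, 5), (21, 0, 13, 6), (28, 0, 13, 7), (63, 0, 13, 9), (105, 0, 13, 12), (112, 0, 13, 13), (126, 0, 13, 17), (98, 0, 13, 18), (133, 0, 13, 20), (1, 1, 13, 2), (8, 1, 13, 6), (57, 1, 13, 7), (64, 1, 13, 8), (71, 1, 13, 9), (85, 1, 13, 10), (106, 1, 13, 13), (120, 1, 13, 15), (99, 1, 13, 20), (2, 2, 13, 0), (23, 2, 13, 4), (44, 2, 13, 5), (72, 2, 13, 8), (93, 2, 13, 10), (114, 2, 13, 12), (128, 2, 13, 15), (121, 2, 13, 17), (135, 2, 13, 18), (24, 3, 13, 3), (38, 3, 13, 5), (17, 3, 13, 8), (101, 3, 13, 11),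 (52, 3, 13, 15), (94, 3, 13, 16), (143, 3, 13, 17), (87, 3, 13, 18), (115, 3, 13, 19), (11, 4, 13, 1), (53, 4, 13, 7), (39, 4, 13, 8), (81, 4, 13, 9), (88, 4, 13, 11), (109, 4, 13, 14), (32, 4, 13, 15), (137, 4, 13, 16), (95, 4, 13, 20), (19, 5, 13, 1), (33, 5, 13, 3), (40, 5, 13, 4), (54, 5, 13, 6), (68, 5, 13, 11), (131, 5, 13, 16), (82, 5, 13, 18), (145, 5, 13, 20), (13, 6, 13, 0), (27, 6, 13, 2), (90, 6, 13, 12), (97, 6, 13, 13), (104, 6, 13, 14), (139, 6, 13, 19), (110, 7, 13, 12), (117, 7, 13, 13), (20, 8, 13, 5), (34, 8, 13, 7), (69, 8, 13, 9), (132, 8, 13, 17), (4, 9, 13, 2), (134, 9, 13, 16), (62, 10, 13, 7), (76, 10, 13, 9), (125, 10, 13, 15), (3, 11, 13, 0), (100, 11, 13, 11), (48, 12, 13, 5), (10, 14, 13, 0), (41, 14, 13, 5), (55, 14, 13, 15), (146, 14, 13, 17), (25, 16, 13, 2), (83, 16, 13, 9), (0, 17, 13, 2), (116, 19, 13, 13),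 (108, 19, 13, 14), (124, 24, 12, 12), (75, 24, 12, 15), (22, 10, 13, 2), (9, 12, 13, 0), (35, 7, 13, 4), (18, 15, 13, 1), (42, 18, 13, 5), (61, 24, 12, 5), (73, 11, 13, 8), (43, 17, 13, 5), (49, 7, 13, 6), (31, 13, 13, 3), (123, 9, 13, 15), (58, 18, 13, 7), (56, 17, 13, 7), (47, 25, 12, 3), (67, 9, 13, 8), (89, 24, 12, 8), (80, 19, 13, 9), (45, 11, 13, 5), (79, 23, 12, 7), (60, 9, 13, 7), (129, 11, 13, 15), (96, 25, 12, 8), (144, 20, 13, 17), (141, 22, 12, 14), (70, 17, 13, 9), (103, 13, 13, 11), (77, 20, 13, 9), (78, 9, 13, 9), (111, 8, 13, 12), (92, 17, 13, 10), (102, 19, 13, 18), (136, 11, 13, 18), (118, 12, 13, 12), (91, 18, 13, 10), (113, 17, 13, 12), (127, 17, 13, 15), (142, 11, 13, 17), (138, 15, 13, 16), (140, 19, 13, 17)]⟩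

def lv7_15 : Level := ⟨23, [[[], [], [], [], [], [], [(0, 1)]], [[], [], [], [], [], [(1, 1)], []], [[], [(2, 1)], [(3, 1)], [], [], [], []], [[], [], [(4, 1)], [(5, 1)], [(2, 1)], [], []], [[(4, 1)], [], [], [], [(6, 1)], [], []], [[], [(7, 1)], [(8, 1)], [], [], [], []], [[(9, 1)], [], [], [(10, 1)], [], [], []], [[], [(9, -1)], [], [(8, 1)], [(11, 1)], [], []], [[(12, 1)], [], [(13, 1)], [], [], [], []], [[(2, 1), (13, 1)], [(3, 1), (12, -1)], [], [], [(14, 1)], [(8, -1)], []], [[(5, 1), (14, 1)], [(6, 1)], [], [(13, -1)], [], [(11, -1)], []], [[(15, 1)], [], [(16, 1)], [(17, 1)], [], [(2, 1)], []], [[(7, 1), (16, 1)], [(8, 1), (15, -1)], [], [], [], [], []], [[(11, 1), (17, -1)], [], [(10, -1)], [], [(8, -1), (15, 1)], [(5, 1)], []], [[], [], [], [(18, 1)], [(19, 1)], [], []], [[], [(5, -1)], [(18, 1)], [], [(12, 1)], [], []], [[(6, 1),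 (18, 1)], [], [(14, -1)], [(4, -1), (19, 1)], [], [], []], [[], [], [(20, 1)], [], [], [(12, 1)], []], [[], [(20, 1)], [], [], [], [(7, 1), (16, 1)], []], [[], [], [], [], [], [(21, 1)], [(20, 1)]], [[], [], [], [(22, 1)], [(23, 1)], [], []], [[(10, -1), (23, 1)], [(17, 1)], [], [], [(9, 1), (22, -1)], [], []], [[], [(23, -1)], [(11, -1)], [(7, 1), (16, 1)], [], [], []]], [6, 12, 15, 16, 23, 24, 32, 36, 37, 42, 45, 53, 56, 58, 67, 77, 79, 80, 101, 102, 121, 138, 143, 144], [(14, 0, 14, 5), (21, 0, 14, 6), (35, 0, 14, 7), (49, 0, 14, 8), (98, 0, 14, 10), (105, 0, 14, 11), (119, 0, 14, 12), (126, 0, 14, 13), (140, 0, 14, 17), (154, 0, 14, 20), (22, 1, 14, 2), (8, 1, 14, 3), (43, 1, 14, 4), (57, 1, 14, 5), (29, 1, 14, 6), (78, 1, 14, 7), (113, 1, 14, 11), (120, 1, 14, 13), (134, 1, 14, 16), (141, 1, 14, 18), (92, 1, 14, 20), (9, 2, 14, 1), (30,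 2, 14, 2), (51, 2, 14, 4), (65, 2, 14, 5), (86, 2, 14, 7), (44, 2, 14, 8), (100, 2, 14, 9), (72, 2, 14, 11), (128, 2, 14, 12), (135, 2, 14, 15), (149, 2, 14, 20), (38, 3, 14, 4), (66, 3, 14, 6), (94, 3, 14, 8), (108, 3, 14, 9), (31, 3, 14, 10), (59, 3, 14, 11), (150, 3, 14, 17), (87, 3, 14, 18), (129, 3, 14, 19), (18, 4, 14, 2), (74, 4, 14, 6), (81, 4, 14, 8), (60, 4, 14, 9), (116, 4, 14, 10), (123, 4, 14, 14), (46, 4, 14, 17), (158, 4, 14, 18), (88, 4, 14, 20), (5, 5, 14, 0), (19, 5, 14, 1), (40, 5, 14, 3), (54, 5, 14, 6), (26, 5, 14, 8), (61, 5, 14, 12), (89, 5, 14, 13), (110, 5, 14, 14), (159, 5, 14, 19), (13, 6, 14, 0), (125, 6, 14, 15), (132, 6, 14, 16), (0, 7, 14, 0), (103, 7, 14, 10), (145, 7, 14, 17), (7, 8, 14, 0), (20, 8, 14, 5), (27, 8, 14, 6), (41, 8, 14, 7), (55, 8, 14, 8), (104, 8, 14, 10), (111, 8, 14, 11), (146, 8, 14, 17),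 (160, 8, 14, 20), (11, 9, 14, 3), (137, 9, 14, 16), (48, 10, 14, 4), (62, 10, 14, 5), (34, 10, 14, 6), (83, 10, 14, 7), (118, 10, 14, 11), (97, 10, 14, 20), (10, 11, 14, 1), (136, 11, 14, 15), (69, 12, 14, 5), (90, 12, 14, 7), (76, 12, 14, 11), (153, 12, 14, 20), (3, 13, 14, 0), (17, 13, 14, 1), (33, 13, 14, 10), (152, 13, 14, 17), (122, 14, 14, 15), (4, 15, 14, 0), (39, 15, 14, 3), (117, 15, 14, 10), (47, 15, 14, 17), (130, 16, 14, 16), (99, 17, 14, 9), (133, 17, 14, 16), (142, 17, 14, 17), (1, 24, 13, 2), (2, 25, 13, 0), (25, 9, 14, 2), (82, 24, 13, 6), (28, 17, 14, 6), (96, 13, 14, 8), (106, 22, 13, 8), (71, 9, 14, 6), (52, 11, 14, 4), (68, 25, 13, 4), (50, 17, 14, 4), (93, 11, 14, 8), (75, 15, 14, 6), (156, 23, 13, 15), (124, 7, 14, 12), (64, 17, 14, 5), (109, 19, 14, 11), (73, 11, 14, 11), (63, 18, 14, 5), (70, 20, 14, 6), (114, 23, 13,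 8), (85, 17, 14, 7), (95, 20, 14, 8), (84, 18, 14, 7), (131, 7, 14, 13), (157, 19, 14, 18), (91, 19, 14, 8), (148, 22, 13, 15), (107, 11, 14, 9), (112, 20, 14, 10), (115, 19, 14, 10), (139, 12, 14, 15), (127, 17, 14, 12), (151, 20, 14, 17), (155, 9, 14, 18), (147, 19, 14, 17)]⟩

def lv7_16 : Level := ⟨24, [[[], [], [], [], [], [(0, 1)], []], [[], [(1, 1)], [(2, 1)], [], [], [], [(0, -1)]], [[(3, 1)], [], [(4, 1)], [(5, 1)], [], [], []], [[(4, 1)], [(3, -1)], [], [], [(6, 1)], [(2, -1)], []], [[], [], [], [(7, 1)], [(8, 1)], [], []], [[(5, -1)], [], [(7, 1)], [], [(3, 1)], [], []], [[(7, 1)], [], [(6, -1)], [(8, 1)], [], [], []], [[(9, 1)], [], [(10, 1)], [(11, 1)], [], [(1, -1)], []], [[(10, 1)], [(9, -1)], [], [], [(12, 1)], [], []], [[], [], [], [(13, 1)], [(14, 1)], [], []], [[(14, 1)], [(11, -1)], [], [], [(13, -1)], [], []], [[(12, 1)],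 [(14, -1)], [], [(10, -1)], [], [], []], [[], [(3, -1)], [(15, 1)], [], [], [], []], [[(3, -1)], [(15, 1)], [], [], [(16, 1)], [(10, -1)], []], [[(5, 1)], [(6, 1)], [], [(16, 1)], [], [(12, -1)], []], [[], [(9, -1)], [(17, 1)], [(18, 1)], [(12, 1)], [(3, 1)], []], [[(9, -1)], [(17, 1)], [], [(11, -1)], [], [(1, 1)], []], [[(12, 1)], [], [(11, -1)], [], [(18, -1)], [(5, 1)], []], [[(7, -1)], [(5, -1)], [], [], [(19, 1)], [], []], [[(19, 1)], [], [(16, -1)], [(7, 1)], [], [], []], [[], [], [], [], [], [(20, 1)], []], [[], [], [], [], [], [], [(21, 1)]], [[(22, 1)], [(18, 1)], [], [], [(14, 1)], [], []], [[(14, 1)], [], [(12, 1)], [(22, -1)], [], [], []]], [5, 8, 9, 14, 16, 17, 25, 31, 32, 49, 51, 52, 60, 66, 67, 86, 95, 107, 108, 130, 145, 153, 154], [(28, 0, 15, 4), (63, 0, 15, 6), (84, 0, 15, 8), (105, 0, 15, 11), (15, 1, 15, 2), (50, 1, 15,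 5), (64, 1, 15, 7), (43, 1, 15, 10), (36, 1, 15, 15), (141, 1, 15, 18), (120, 1, 15, 21), (162, 1, 15, 22), (23, 2, 15, 2), (30, 2, 15, 3), (58, 2, 15, 5), (93, 2, 15, 8), (114, 2, 15, 11), (72, 2, 15, 13), (128, 2, 15, 15), (100, 2, 15, 16), (142, 2, 15, 17), (79, 2, 15, 22), (38, 3, 15, 3), (73, 3, 15, 6), (59, 3, 15, 7), (94, 3, 15, 10), (122, 3, 15, 11), (129, 3, 15, 14), (157, 3, 15, 20), (18, 4, 15, 3), (46, 4, 15, 4), (81, 4, 15, 7), (102, 4, 15, 9), (137, 4, 15, 14), (88, 4, 15, 15), (165, 4, 15, 20), (12, 5, 15, 1), (61, 5, 15, 9), (82, 5, 15, 10), (19, 5, 15, 11), (40, 5, 15, 13), (89, 5, 15, 17), (152, 5, 15, 19), (6, 6, 15, 0), (146, 6, 15, 19), (7, 7, 15, 1), (33, 7, 15, 4), (68, 7, 15, 6), (147, 7, 15, 19), (0, 8, 15, 0), (34, 8, 15, 4), (69, 8, 15, 6), (90, 8, 15, 8), (111, 8, 15, 11), (140, 8, 15, 19), (53, 9, 15, 5), (134,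 9, 15, 14), (144, 9, 15, 18), (1, 10, 15, 0), (20, 10, 15, 2), (55, 10, 15, 5), (48, 10, 15, 10), (41, 10, 15, 15), (125, 10, 15, 21), (167, 10, 15, 22), (24, 11, 15, 2), (143, 11, 15, 17), (156, 11, 15, 20), (2, 12, 15, 0), (27, 12, 15, 2), (62, 12, 15, 5), (97, 12, 15, 8), (118, 12, 15, 11), (76, 12, 15, 13), (132, 12, 15, 15), (104, 12, 15, 16), (83, 12, 15, 22), (10, 13, 15, 1), (75, 13, 15, 6), (131, 13, 15, 14), (87, 13, 15, 17), (150, 13, 15, 19), (159, 13, 15, 20), (3, 14, 15, 0), (160, 14, 15, 20), (11, 15, 15, 1), (47, 15, 15, 4), (138, 15, 15, 14), (151, 15, 15, 19), (166, 15, 15, 20), (4, 16, 15, 0), (139, 16, 15, 14), (29, 17, 15, 3), (65, 17, 15, 6), (116, 23, 14, 8), (148, 24, 14, 16), (149, 25, 14, 15), (13, 21, 14, 0), (54, 24, 14, 3), (117, 5, 15, 18), (26, 25, 14, 1), (91, 0, 15, 9), (110, 7, 15, 11), (22, 17, 15, 2), (39,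 20, 15, 3), (85, 18, 15, 8), (21, 17, 15, 9), (124, 13, 15, 11), (35, 19, 15, 3), (98, 20, 15, 9), (127, 17, 15, 15), (99, 9, 15, 9), (44, 23, 14, 2), (136, 3, 15, 16), (37, 11, 15, 3), (42, 20, 15, 4), (126, 19, 15, 14), (45, 19, 15, 4), (112, 0, 15, 12), (57, 17, 15, 5), (106, 18, 15, 11), (80, 11, 15, 22), (56, 17, 15, 12), (96, 25, 14, 12), (115, 3, 15, 22), (71, 22, 14, 4), (121, 11, 15, 11), (109, 4, 15, 13), (103, 15, 15, 9), (77, 20, 15, 7), (119, 19, 15, 11), (163, 18, 15, 22), (74, 19, 15, 21), (158, 4, 15, 21), (78, 9, 15, 7), (70, 19, 15, 6), (161, 20, 15, 20), (92, 17, 15, 8), (101, 19, 15, 9), (135, 23, 14, 9), (113, 17, 15, 11), (123, 19, 15, 13), (155, 22, 14, 18), (133, 19, 15, 16), (164, 19, 15, 20)]⟩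

def lv7_17 : Level := ⟨23, [[[], [(0, 1)], [(1, 1)], [], [], [], []], [[(2, 1)], [], [(3, 1)], [(4, 1)], [], [], [(0, -1)]], [[(3, 1)], [(2, -1)], [], [], [(5, 1)], [], [(1, -1)]], [[], [], [(6, 1)], [(7, 1)], [], [], []], [[], [(6, 1)], [], [(8, 1)], [(9, 1)], [(3, -1)], []], [[], [], [(8, 1)], [], [(7, -1)], [], []], [[(8, 1)], [], [], [(9, 1)], [], [(5, -1)], []], [[], [(8, -1)], [], [], [(10, 1)], [], []], [[(10, 1)], [], [(9, -1)], [], [], [], []], [[], [], [(11, 1)], [(12, 1)], [(13, 1)], [(2, -1)], []], [[], [(11, 1)], [], [], [(14, 1)], [], []], [[(13, 1)], [], [], [], [(12, -1)], [(4, -1)], []], [[], [(13, -1)], [], [(14, 1)], [], [], []], [[(15, 1)], [(12, -1)], [], [], [], [], []], [[], [], [(13, -1)], [(15, -1)], [], [], []], [[(6, -1)], [], [], [], [(16, 1)], [(17, 1)], []], [[(7, -1)], [(16, 1)], [], [], [], [(14, -1)], []],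 [[(11, -1)], [], [], [(18, 1)], [], [(19, 1)], []], [[(14, -1)], [], [(18, 1)], [], [], [(7, 1)], []], [[], [(7, 1)], [(16, -1)], [(10, -1)], [], [], []], [[], [(19, -1)], [(17, -1)], [], [], [], [(20, 1)]], [[], [], [], [], [], [(20, -1)], []], [[], [(18, -1)], [(14, -1)], [], [(15, -1)], [], []]], [1, 2, 7, 9, 10, 18, 23, 24, 31, 32, 53, 65, 66, 67, 74, 91, 109, 110, 122, 124, 146], [(21, 0, 16, 2), (28, 0, 16, 3), (35, 0, 16, 5), (49, 0, 16, 6), (63, 0, 16, 7), (70, 0, 16, 8), (98, 0, 16, 10), (84, 0, 16, 11), (133, 0, 16, 19), (154, 0, 16, 22), (8, 1, 16, 1), (22, 1, 16, 3), (64, 1, 16, 8), (78, 1, 16, 10), (99, 1, 16, 11), (106, 1, 16, 13), (43, 1, 16, 14), (120, 1, 16, 16), (36, 1, 16, 18), (127, 1, 16, 22), (16, 2, 16, 1), (30, 2, 16, 2), (51, 2, 16, 5), (44, 2, 16, 6), (72, 2, 16, 7), (107, 2, 16, 12), (121, 2, 16, 15), (79, 2, 16,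 17), (114, 2, 16, 19), (86, 2, 16, 23), (38, 3, 16, 2), (52, 3, 16, 4), (59, 3, 16, 6), (80, 3, 16, 7), (94, 3, 16, 9), (73, 3, 16, 11), (115, 3, 16, 14), (129, 3, 16, 15), (157, 3, 16, 23), (46, 4, 16, 3), (60, 4, 16, 4), (25, 4, 16, 5), (88, 4, 16, 8), (102, 4, 16, 9), (95, 4, 16, 10), (116, 4, 16, 13), (130, 4, 16, 17), (137, 4, 16, 18), (5, 5, 16, 0), (19, 5, 16, 3), (12, 5, 16, 7), (75, 5, 16, 13), (89, 5, 16, 14), (26, 5, 16, 15), (40, 5, 16, 17), (145, 5, 16, 20), (6, 6, 16, 1), (153, 6, 16, 21), (0, 7, 16, 0), (54, 7, 16, 6), (103, 7, 16, 10), (138, 7, 16, 19), (140, 7, 16, 20), (159, 7, 16, 22), (27, 8, 16, 2), (34, 8, 16, 3), (41, 8, 16, 5), (55, 8, 16, 6), (69, 8, 16, 7), (76, 8, 16, 8), (104, 8, 16, 10), (90, 8, 16, 11), (139, 8, 16, 19), (147, 8, 16, 21), (160, 8, 16, 22), (11, 9, 16, 1), (57, 9, 16, 4), (123, 9, 16, 16), (83,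 10, 16, 10), (111, 10, 16, 13), (48, 10, 16, 14), (125, 10, 16, 16), (148, 10, 16, 21), (132, 10, 16, 22), (17, 11, 16, 1), (93, 11, 16, 9), (108, 11, 16, 12), (118, 12, 16, 19), (149, 12, 16, 21), (3, 13, 16, 0), (61, 13, 16, 6), (96, 13, 16, 9), (143, 13, 16, 20), (62, 14, 16, 6), (97, 14, 16, 9), (150, 14, 16, 21), (4, 15, 16, 0), (144, 15, 16, 20), (151, 16, 16, 21), (13, 10, 16, 1), (20, 12, 16, 1), (68, 7, 16, 7), (15, 17, 16, 1), (14, 18, 16, 1), (33, 25, 15, 11), (82, 13, 16, 7), (47, 15, 16, 3), (29, 17, 16, 2), (105, 17, 16, 13), (131, 13, 16, 15), (39, 19, 16, 5), (112, 20, 16, 13), (134, 9, 16, 18), (37, 11, 16, 2), (42, 20, 16, 3), (50, 17, 16, 5), (45, 19, 16, 3), (58, 23, 15, 3), (56, 19, 16, 6), (136, 19, 16, 18), (71, 17, 16, 7), (119, 17, 16, 16), (81, 20, 16, 7), (92, 22, 15, 7), (85, 9, 16, 8), (77, 19, 16, 7), (100, 17,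 16, 23), (117, 15, 16, 13), (87, 19, 16, 8), (156, 11, 16, 23), (126, 19, 16, 15), (101, 19, 16, 9), (158, 19, 16, 22), (113, 9, 16, 13), (135, 23, 15, 15), (142, 25, 15, 17), (128, 11, 16, 15), (155, 22, 15, 22), (141, 24, 15, 18), (152, 21, 15, 19)]⟩

def lv7_18 : Level := ⟨21, [[[(0, 1)], [], [(1, 1)], [(2, 1)], [], [], []], [[(1, 1)], [(0, -1)], [], [], [(3, 1)], [], []], [[], [], [(4, 1)], [(5, 1)], [(6, 1)], [], [(0, -1)]], [[], [(4, 1)], [], [(7, 1)], [(8, 1)], [], [(1, -1)]], [[(6, 1)], [], [(7, 1)], [], [(5, -1)], [], [(2, -1)]], [[(7, 1)], [(6, -1)], [], [(8, 1)], [], [], [(3, -1)]], [[], [], [], [(9, 1)], [(10, 1)], [(11, 1)], []], [[], [], [(9, 1)], [], [], [], []], [[], [], [], [], [(12, 1)], [(7, -1)], []], [[(12, 1)], [(10, 1)], [], [], [], [(8, -1)], []], [[], [(12, -1)], [(10, -1)], [], [], [], []], [[], [], [], [(13, 1)],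 [(14, 1)], [(15, 1)], []], [[(16, 1)], [], [(13, 1)], [], [], [(5, -1)], []], [[], [], [], [(16, -1)], [], [(6, -1)], []], [[], [(14, 1)], [], [], [], [], []], [[], [(13, 1)], [(16, -1)], [], [], [], []], [[(9, -1)], [], [], [(10, -1)], [], [(17, 1)], []], [[(11, -1)], [(15, 1)], [], [], [(17, 1)], [], [(18, 1)]], [[(14, -1)], [], [], [], [(13, 1)], [(19, 1)], []], [[(15, -1)], [], [(11, -1)], [(19, 1)], [], [], [(20, 1)]], [[], [(20, -1)], [(18, -1)], [], [], [], []]], [0, 2, 3, 11, 16, 17, 18, 24, 25, 45, 46, 47, 60, 80, 81, 82, 84, 117, 125, 131, 139], [(14, 0, 17, 1), (21, 0, 17, 2), (56, 0, 17, 6), (70, 0, 17, 8), (91, 0, 17, 11), (105, 0, 17, 13), (42, 0, 17, 15), (49, 0, 17, 16), (77, 0, 17, 17), (98, 0, 17, 18), (1, 1, 17, 0), (15, 1, 17, 2), (43, 1, 17, 4), (57, 1, 17, 7), (78, 1, 17, 10), (92, 1, 17, 12), (85, 1, 17, 13), (113, 1,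 17, 16), (50, 1, 17, 19), (134, 1, 17, 20), (127, 1, 17, 22), (9, 2, 17, 0), (23, 2, 17, 1), (44, 2, 17, 3), (58, 2, 17, 5), (65, 2, 17, 8), (79, 2, 17, 9), (93, 2, 17, 14), (128, 2, 17, 18), (114, 2, 17, 19), (121, 2, 17, 20), (100, 2, 17, 22), (31, 3, 17, 1), (52, 3, 17, 3), (59, 3, 17, 4), (66, 3, 17, 6), (87, 3, 17, 9), (101, 3, 17, 12), (108, 3, 17, 14), (129, 3, 17, 17), (73, 3, 17, 19), (39, 4, 17, 2), (67, 4, 17, 4), (53, 4, 17, 5), (74, 4, 17, 7), (95, 4, 17, 9), (102, 4, 17, 10), (88, 4, 17, 11), (116, 4, 17, 15), (109, 4, 17, 22), (26, 5, 17, 4), (40, 5, 17, 6), (19, 5, 17, 9), (33, 5, 17, 11), (124, 5, 17, 15), (103, 5, 17, 16), (138, 5, 17, 17), (54, 5, 17, 18), (145, 5, 17, 21), (6, 6, 17, 1), (13, 6, 17, 2), (146, 6, 17, 20), (75, 7, 17, 8), (110, 7, 17, 13), (140, 7, 17, 21), (62, 8, 17, 6), (76, 8, 17, 8), (97, 8, 17, 11),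 (111, 8, 17, 13), (48, 8, 17, 15), (55, 8, 17, 16), (83, 8, 17, 17), (104, 8, 17, 18), (4, 9, 17, 0), (137, 9, 17, 20), (90, 10, 17, 13), (118, 10, 17, 16), (132, 10, 17, 22), (10, 11, 17, 0), (122, 11, 17, 20), (69, 12, 17, 8), (143, 13, 17, 21), (144, 15, 17, 21), (12, 21, 16, 3), (5, 21, 16, 7), (29, 22, 16, 1), (37, 23, 16, 1), (20, 8, 17, 1), (8, 17, 17, 0), (27, 12, 17, 1), (7, 18, 17, 0), (34, 14, 17, 1), (41, 16, 17, 2), (22, 17, 17, 1), (89, 13, 17, 9), (32, 20, 17, 1), (36, 9, 17, 2), (96, 15, 17, 9), (28, 19, 17, 1), (30, 11, 17, 1), (61, 13, 17, 4), (35, 20, 17, 2), (68, 15, 17, 4), (38, 19, 17, 2), (51, 11, 17, 3), (112, 20, 17, 15), (64, 9, 17, 4), (115, 19, 17, 15), (72, 23, 16, 5), (119, 7, 17, 15), (135, 25, 16, 15), (71, 9, 17, 7), (63, 19, 17, 6), (86, 11, 17, 9), (130, 20, 17, 17), (106, 22, 16, 11), (99, 9, 17, 10), (126,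 19, 17, 17), (133, 7, 17, 17), (120, 24, 16, 13), (107, 17, 17, 13), (94, 19, 17, 9), (123, 15, 17, 15), (142, 12, 17, 20), (136, 13, 17, 17), (141, 10, 17, 20)]⟩

def lv7_19 : Level := ⟨21, [[[], [], [(0, 1)], [(1, 1)], [(2, 1)], [], []], [[], [(0, 1)], [], [(3, 1)], [(4, 1)], [], []], [[(2, 1)], [], [(3, 1)], [], [(1, -1)], [], []], [[(3, 1)], [(2, -1)], [], [(4, 1)], [], [], []], [[], [], [], [(5, 1)], [(6, 1)], [(7, 1)], [(0, -1)]], [[(8, 1)], [], [(5, 1)], [], [], [], [(1, -1)]], [[], [], [], [(8, -1)], [], [], [(2, -1)]], [[], [], [], [], [(9, 1)], [], [(3, -1)]], [[(9, 1)], [(6, 1)], [], [], [], [], [(4, -1)]], [[], [], [], [], [(10, 1)], [(11, 1)], []], [[(10, 1)], [], [], [], [], [(12, 1)], []], [[], [(7, 1)], [], [(11, 1)], [(12, 1)], [], [(13, 1)]], [[], [], [(10, 1)], [], [], [(9, -1)], []], [[(14, 1)], [], [], [], [], [(15, 1)],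 []], [[], [], [], [(14, -1)], [], [(16, 1)], []], [[], [], [(7, 1)], [(15, 1)], [(16, 1)], [], [(17, 1)]], [[], [(14, 1)], [], [], [], [(8, -1)], []], [[(11, -1)], [(16, 1)], [], [(12, -1)], [], [], [(18, 1)]], [[(13, -1)], [(17, 1)], [], [], [(18, 1)], [], []], [[(16, -1)], [], [(11, -1)], [], [(15, 1)], [], [(19, 1)]], [[(17, -1)], [], [(13, -1)], [(19, 1)], [], [], []]], [2, 3, 4, 10, 11, 31, 32, 33, 35, 53, 67, 68, 75, 83, 91, 96, 103, 111, 125, 139], [(0, 0, 18, 0), (7, 0, 18, 1), (42, 0, 18, 4), (49, 0, 18, 5), (84, 0, 18, 9), (112, 0, 18, 12), (63, 0, 18, 16), (77, 0, 18, 17), (98, 0, 18, 18), (105, 0, 18, 19), (1, 1, 18, 1), (29, 1, 18, 3), (43, 1, 18, 5), (71, 1, 18, 9), (85, 1, 18, 10), (99, 1, 18, 14), (92, 1, 18, 15), (106, 1, 18, 17), (141, 1, 18, 20), (9, 2, 18, 0), (30, 2, 18, 2), (51, 2, 18, 4), (65, 2, 18, 7), (72, 2, 18,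 10), (93, 2, 18, 12), (114, 2, 18, 15), (79, 2, 18, 19), (128, 2, 18, 20), (17, 3, 18, 0), (38, 3, 18, 2), (52, 3, 18, 3), (59, 3, 18, 5), (66, 3, 18, 6), (94, 3, 18, 11), (115, 3, 18, 13), (73, 3, 18, 16), (136, 3, 18, 19), (25, 4, 18, 1), (46, 4, 18, 2), (60, 4, 18, 3), (39, 4, 18, 4), (74, 4, 18, 6), (88, 4, 18, 8), (102, 4, 18, 11), (123, 4, 18, 17), (95, 4, 18, 18), (82, 5, 18, 6), (54, 5, 18, 8), (61, 5, 18, 9), (110, 5, 18, 11), (40, 5, 18, 12), (47, 5, 18, 13), (124, 5, 18, 16), (138, 5, 18, 18), (6, 6, 18, 2), (13, 6, 18, 3), (20, 6, 18, 4), (27, 6, 18, 5), (132, 6, 18, 17), (146, 6, 18, 19), (5, 7, 18, 0), (12, 7, 18, 1), (90, 8, 18, 9), (118, 8, 18, 12), (69, 8, 18, 16), (104, 8, 18, 18), (36, 9, 18, 4), (144, 9, 18, 20), (15, 10, 18, 4), (76, 10, 18, 9), (97, 10, 18, 15), (58, 11, 18, 5), (129, 11, 18, 20), (23, 12, 18, 5), (19,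 13, 18, 0), (26, 15, 18, 1), (28, 17, 18, 3), (64, 17, 18, 7), (100, 17, 18, 18), (87, 19, 18, 8), (116, 19, 18, 12), (131, 21, 17, 15), (145, 21, 17, 17), (134, 22, 17, 20), (121, 23, 17, 20), (50, 24, 17, 7), (44, 25, 17, 14), (34, 12, 18, 2), (8, 17, 18, 0), (41, 14, 18, 2), (18, 20, 18, 0), (22, 9, 18, 1), (48, 16, 18, 2), (14, 19, 18, 0), (16, 11, 18, 0), (55, 14, 18, 3), (21, 20, 18, 1), (62, 16, 18, 3), (24, 19, 18, 1), (37, 11, 18, 2), (57, 9, 18, 3), (78, 24, 17, 4), (107, 25, 17, 9), (117, 7, 18, 12), (45, 19, 18, 2), (89, 15, 18, 8), (56, 19, 18, 5), (70, 19, 18, 16), (86, 23, 17, 5), (119, 7, 18, 16), (80, 13, 18, 6), (135, 25, 17, 18), (122, 13, 18, 16), (81, 15, 18, 6), (126, 8, 18, 17), (142, 12, 18, 19), (113, 17, 18, 15), (101, 19, 18, 11), (108, 13, 18, 11), (137, 15, 18, 18), (133, 7, 18, 18), (109, 15, 18, 11), (120, 24,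 17, 16), (140, 8, 18, 19), (127, 10, 18, 17), (130, 16, 18, 17), (143, 14, 18, 19)]⟩

def lv7_20 : Level := ⟨20, [[[], [], [], [(0, 1)], [(1, 1)], [(2, 1)], []], [[(3, 1)], [], [(0, 1)], [], [], [], []], [[], [], [], [(3, -1)], [], [], []], [[], [], [], [], [(4, 1)], [], []], [[(4, 1)], [(1, 1)], [], [], [], [], []], [[(5, 1)], [], [], [], [(6, 1)], [(7, 1)], [(0, -1)]], [[(6, 1)], [], [], [(5, -1)], [], [(8, 1)], [(1, -1)]], [[], [], [], [(7, 1)], [(8, 1)], [], [(9, 1)]], [[], [(5, 1)], [], [], [], [], [(3, -1)]], [[], [], [(6, 1)], [], [], [], [(4, -1)]], [[], [], [], [], [], [(10, 1)], []], [[], [(11, 1)], [], [], [(10, 1)], [], [(12, 1)]], [[(10, 1)], [(8, 1)], [], [], [], [], [(13, 1)]], [[], [(9, 1)], [], [(12, 1)], [(13, 1)], [], []], [[], [], [], [], [], [(14, 1)], []], [[(14, 1)], [], [(7, 1)], [], [], [], [(15, 1)]], [[], [], [(11,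 1)], [(14, -1)], [], [], [(16, 1)]], [[], [], [(9, 1)], [(15, 1)], [(16, 1)], [], []], [[(12, -1)], [(16, 1)], [], [(13, -1)], [], [], []], [[(16, -1)], [], [(12, -1)], [], [(15, 1)], [], []]], [3, 4, 5, 7, 25, 35, 39, 40, 47, 55, 75, 78, 83, 90, 103, 111, 118], [(14, 0, 19, 2), (21, 0, 19, 3), (56, 0, 19, 5), (63, 0, 19, 8), (70, 0, 19, 10), (98, 0, 19, 13), (77, 0, 19, 17), (91, 0, 19, 18), (112, 0, 19, 19), (119, 0, 19, 20), (1, 1, 19, 1), (15, 1, 19, 3), (43, 1, 19, 8), (50, 1, 19, 11), (99, 1, 19, 16), (113, 1, 19, 17), (120, 1, 19, 18), (2, 2, 19, 0), (23, 2, 19, 2), (37, 2, 19, 5), (72, 2, 19, 12), (51, 2, 19, 15), (79, 2, 19, 19), (93, 2, 19, 20), (10, 3, 19, 0), (24, 3, 19, 1), (31, 3, 19, 3), (38, 3, 19, 4), (59, 3, 19, 6), (80, 3, 19, 11), (101, 3, 19, 14), (108, 3, 19, 15), (87, 3, 19, 17), (136, 3, 19, 20), (18, 4, 19, 0), (32,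 4, 19, 1), (11, 4, 19, 2), (46, 4, 19, 4), (67, 4, 19, 7), (74, 4, 19, 9), (88, 4, 19, 11), (116, 4, 19, 15), (130, 4, 19, 18), (109, 4, 19, 19), (54, 5, 19, 4), (82, 5, 19, 9), (89, 5, 19, 10), (68, 5, 19, 12), (110, 5, 19, 13), (117, 5, 19, 14), (61, 5, 19, 16), (6, 6, 19, 4), (13, 6, 19, 5), (20, 6, 19, 6), (27, 6, 19, 7), (34, 6, 19, 8), (97, 6, 19, 11), (125, 6, 19, 15), (132, 6, 19, 17), (139, 6, 19, 19), (19, 7, 19, 2), (26, 7, 19, 3), (49, 7, 19, 4), (96, 7, 19, 18), (124, 7, 19, 20), (0, 8, 19, 4), (76, 8, 19, 10), (104, 8, 19, 13), (8, 9, 19, 2), (64, 9, 19, 7), (71, 9, 19, 9), (102, 9, 19, 16), (106, 9, 19, 19), (22, 10, 19, 7), (134, 10, 19, 19), (30, 11, 19, 3), (58, 11, 19, 6), (73, 11, 19, 12), (100, 11, 19, 14), (86, 11, 19, 17), (16, 12, 19, 6), (128, 12, 19, 17), (12, 13, 19, 0), (33, 13, 19, 3), (66, 13, 19, 12), (138, 13,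 19, 20), (60, 15, 19, 16), (131, 15, 19, 18), (36, 22, 18, 3), (44, 23, 18, 2), (9, 11, 19, 0), (41, 14, 19, 4), (29, 9, 19, 1), (48, 16, 19, 4), (62, 8, 19, 5), (17, 19, 19, 0), (69, 16, 19, 7), (28, 19, 19, 3), (57, 18, 19, 5), (45, 19, 19, 4), (42, 20, 19, 4), (65, 23, 18, 4), (52, 13, 19, 4), (107, 25, 18, 12), (53, 15, 19, 4), (85, 24, 18, 9), (92, 10, 19, 11), (121, 12, 19, 15), (84, 7, 19, 10), (81, 15, 19, 9), (114, 17, 19, 19), (126, 8, 19, 17), (135, 12, 19, 19), (94, 14, 19, 11), (129, 14, 19, 17), (95, 16, 19, 11), (105, 7, 19, 13), (115, 13, 19, 14), (122, 14, 19, 15), (137, 16, 19, 19), (133, 8, 19, 19), (127, 10, 19, 17), (123, 16, 19, 15)]⟩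

def lv7_21 : Level := ⟨17, [[[(0, 1)], [], [], [], [(1, 1)], [(2, 1)], []], [[(1, 1)], [], [], [(0, -1)], [], [(3, 1)], []], [[], [], [], [(2, 1)], [(3, 1)], [], [(4, 1)]], [[], [(0, 1)], [], [], [], [], []], [[], [], [(1, 1)], [], [], [], []], [[], [], [], [], [], [(5, 1)], [(0, -1)]], [[], [], [], [], [], [(6, 1)], [(1, -1)]], [[(5, 1)], [(7, 1)], [], [], [(6, 1)], [], [(8, 1)]], [[(6, 1)], [], [(9, 1)], [(5, -1)], [], [], [(10, 1)]], [[], [], [], [(8, 1)], [(10, 1)], [(4, 1)], []], [[], [(9, -1)], [(6, 1)], [], [], [], [(11, 1)]], [[], [], [], [(7, -1)], [(9, -1)], [], [(12, 1)]], [[], [(12, 1)], [], [], [(11, 1)], [], []], [[(11, 1)], [(10, 1)], [], [], [], [], []], [[], [(5, 1)], [(7, 1)], [], [], [], [(13, 1)]], [[(13, 1)], [], [(8, 1)], [], [], [], []], [[], [], [(12, 1)], [(13, -1)], [], [], []]], [0, 4, 5, 12, 20, 40, 47, 50, 55,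 58, 62, 76, 83, 104], [(21, 0, 20, 1), (28, 0, 20, 4), (35, 0, 20, 5), (42, 0, 20, 6), (70, 0, 20, 12), (98, 0, 20, 15), (84, 0, 20, 18), (112, 0, 20, 19), (8, 1, 20, 4), (36, 1, 20, 8), (78, 1, 20, 11), (57, 1, 20, 12), (64, 1, 20, 13), (113, 1, 20, 18), (2, 2, 20, 1), (44, 2, 20, 9), (51, 2, 20, 15), (79, 2, 20, 16), (65, 2, 20, 17), (86, 2, 20, 19), (3, 3, 20, 0), (24, 3, 20, 2), (38, 3, 20, 6), (52, 3, 20, 7), (87, 3, 20, 13), (101, 3, 20, 16), (108, 3, 20, 17), (94, 3, 20, 18), (11, 4, 20, 0), (32, 4, 20, 3), (46, 4, 20, 5), (60, 4, 20, 7), (74, 4, 20, 11), (95, 4, 20, 13), (116, 4, 20, 17), (109, 4, 20, 19), (19, 5, 20, 0), (54, 5, 20, 5), (61, 5, 20, 6), (75, 5, 20, 10), (103, 5, 20, 14), (6, 6, 20, 5), (13, 6, 20, 6), (69, 6, 20, 7), (27, 6, 20, 8), (34, 6, 20, 9), (90, 6, 20, 11), (97, 6, 20, 12), (111, 6, 20, 15), (118, 6, 20, 16),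 (14, 7, 20, 0), (26, 7, 20, 1), (33, 7, 20, 4), (89, 7, 20, 18), (117, 7, 20, 19), (63, 8, 20, 7), (29, 9, 20, 3), (43, 9, 20, 5), (39, 9, 20, 8), (106, 9, 20, 19), (1, 10, 20, 5), (23, 11, 20, 2), (37, 11, 20, 6), (45, 11, 20, 9), (93, 11, 20, 18), (9, 12, 20, 6), (73, 13, 20, 10), (110, 13, 20, 17), (96, 13, 20, 18), (31, 14, 20, 9), (102, 15, 20, 14), (25, 16, 20, 8), (77, 17, 20, 11), (15, 24, 19, 1), (82, 24, 19, 9), (16, 25, 19, 0), (41, 8, 20, 5), (22, 18, 20, 1), (10, 19, 20, 0), (48, 16, 20, 5), (7, 20, 20, 0), (30, 23, 19, 2), (17, 13, 20, 0), (18, 15, 20, 0), (68, 21, 19, 4), (49, 7, 20, 5), (59, 13, 20, 6), (99, 24, 19, 16), (56, 7, 20, 6), (53, 15, 20, 5), (72, 25, 19, 12), (100, 17, 20, 15), (80, 22, 19, 11), (107, 12, 20, 15), (66, 14, 20, 7), (71, 18, 20, 12), (81, 23, 19, 15), (92, 10, 20, 12), (67, 16, 20, 7), (91, 8, 20,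 12), (88, 16, 20, 11), (85, 10, 20, 11), (114, 12, 20, 16), (105, 8, 20, 15), (115, 14, 20, 16)]⟩

def lv7_22 : Level := ⟨14, [[[], [], [], [], [], [(0, 1)], []], [[], [], [], [], [], [(1, 1)], []], [[(0, 1)], [(2, 1)], [], [], [(1, 1)], [], [(3, 1)]], [[(1, 1)], [], [(4, 1)], [(0, -1)], [], [], [(5, 1)]], [[], [], [], [(3, 1)], [(5, 1)], [], []], [[], [], [(6, 1)], [], [], [], [(7, 1)]], [[], [(8, 1)], [], [], [], [], [(9, 1)]], [[(6, 1)], [], [], [], [(8, 1)], [], [(10, 1)]], [[(7, 1)], [(10, 1)], [], [], [(9, 1)], [(3, 1)], []], [[(8, 1)], [], [], [(6, -1)], [], [], [(11, 1)]], [[(9, 1)], [], [(11, 1)], [(7, -1)], [], [(5, 1)], []], [[], [(11, -1)], [(9, 1)], [], [], [], []], [[], [], [], [(10, -1)], [(11, -1)], [(12, 1)], []], [[], [(7, 1)], [(10, 1)], [], [], [], []]], [5, 12, 15, 20, 23, 27, 37, 41, 43, 48, 55, 69, 89], [(0, 0, 21, 0),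 (7, 0, 21, 1), (35, 0, 21, 7), (42, 0, 21, 8), (77, 0, 21, 13), (91, 0, 21, 15), (1, 1, 21, 3), (50, 1, 21, 7), (64, 1, 21, 10), (85, 1, 21, 12), (71, 1, 21, 13), (36, 1, 21, 14), (9, 2, 21, 4), (65, 2, 21, 8), (44, 2, 21, 10), (51, 2, 21, 14), (58, 2, 21, 15), (86, 2, 21, 16), (3, 3, 21, 1), (17, 3, 21, 2), (38, 3, 21, 8), (59, 3, 21, 9), (52, 3, 21, 11), (94, 3, 21, 16), (11, 4, 21, 0), (25, 4, 21, 2), (46, 4, 21, 7), (74, 4, 21, 9), (67, 4, 21, 11), (81, 4, 21, 12), (19, 5, 21, 0), (26, 5, 21, 1), (40, 5, 21, 5), (47, 5, 21, 6), (33, 5, 21, 9), (34, 6, 21, 2), (6, 6, 21, 5), (13, 6, 21, 6), (62, 6, 21, 7), (76, 6, 21, 8), (83, 6, 21, 10), (90, 6, 21, 11), (97, 6, 21, 14), (28, 7, 21, 9), (82, 7, 21, 13), (96, 7, 21, 15), (84, 8, 21, 11), (8, 9, 21, 0), (22, 9, 21, 2), (4, 9, 21, 3), (39, 9, 21, 14), (29, 10, 21, 2), (2, 11, 21, 1), (16,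 11, 21, 2), (10, 11, 21, 4), (45, 11, 21, 10), (30, 12, 21, 2), (54, 13, 21, 11), (80, 14, 21, 10), (68, 15, 21, 11), (95, 16, 21, 14), (14, 7, 21, 0), (24, 13, 21, 1), (21, 7, 21, 1), (18, 15, 21, 0), (31, 14, 21, 2), (61, 21, 20, 5), (32, 16, 21, 2), (75, 21, 20, 6), (66, 11, 21, 8), (49, 17, 21, 7), (56, 8, 21, 7), (92, 10, 21, 14), (73, 14, 21, 8), (53, 9, 21, 7), (63, 17, 21, 10), (70, 8, 21, 8), (79, 12, 21, 10), (60, 16, 21, 7), (57, 10, 21, 7), (93, 12, 21, 14), (87, 14, 21, 11), (78, 10, 21, 10), (72, 12, 21, 8), (88, 16, 21, 11)]⟩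

def lv7_23 : Level := ⟨13, [[[], [], [(0, 1)], [], [], [], [(1, 1)]], [[], [(2, 1)], [], [], [], [], [(3, 1)]], [[(0, 1)], [], [], [], [(2, 1)], [], [(4, 1)]], [[(1, 1)], [(4, 1)], [], [], [(3, 1)], [], []], [[(2, 1)], [], [], [(0, -1)], [], [], [(5, 1)]], [[(3, 1)], [], [(5, 1)], [(1, -1)], [], [], []], [[], [], [], [], [(6, 1)], [], [(7, 1)]], [[], [], [(7, 1)], [], [], [(1, 1)], []], [[], [], [], [(6, 1)], [], [], [(8, 1)]], [[], [(8, 1)], [], [], [], [(3, 1)], []], [[(7, 1)], [], [], [], [(8, 1)], [(9, 1)], []], [[(8, 1)], [], [], [(7, -1)], [], [(10, 1)], []], [[], [], [], [(9, -1)], [(10, -1)], [], []]], [2, 6, 8, 13, 20, 34, 46, 48, 62, 75, 82], [(0, 0, 22, 2), (7, 0, 22, 3), (42, 0, 22, 7), (49, 0, 22, 8), (56, 0, 22, 9), (63, 0, 22, 10), (15, 1, 22, 2), (57, 1, 22, 6), (71, 1, 22, 8), (78, 1, 22, 11), (50, 1, 22, 13), (30, 2, 22,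 3), (44, 2, 22, 5), (79, 2, 22, 10), (65, 2, 22, 11), (72, 2, 22, 13), (3, 3, 22, 3), (24, 3, 22, 4), (45, 3, 22, 9), (52, 3, 22, 10), (73, 3, 22, 12), (11, 4, 22, 2), (39, 4, 22, 4), (60, 4, 22, 7), (67, 4, 22, 8), (81, 4, 22, 12), (5, 5, 22, 0), (12, 5, 22, 1), (26, 5, 22, 8), (40, 5, 22, 10), (89, 5, 22, 12), (27, 6, 22, 2), (41, 6, 22, 3), (55, 6, 22, 5), (69, 6, 22, 6), (76, 6, 22, 7), (83, 6, 22, 9), (47, 7, 22, 7), (61, 7, 22, 9), (84, 7, 22, 12), (36, 9, 22, 4), (53, 9, 22, 13), (23, 11, 22, 4), (66, 11, 22, 11), (10, 13, 22, 1), (4, 15, 22, 0), (43, 17, 22, 5), (58, 17, 22, 9), (90, 21, 21, 11), (17, 22, 21, 2), (32, 23, 21, 2), (19, 24, 21, 0), (1, 24, 21, 3), (85, 24, 21, 12), (33, 25, 21, 1), (9, 25, 21, 4), (86, 25, 21, 16), (16, 18, 22, 2), (29, 17, 22, 3), (31, 11, 22, 3), (14, 17, 22, 2), (21, 8, 22, 2), (38, 14, 22, 3), (54,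 21, 21, 5), (18, 9, 22, 2), (28, 18, 22, 3), (35, 8, 22, 3), (25, 16, 22, 2), (68, 21, 21, 6), (22, 10, 22, 2), (37, 12, 22, 3), (59, 19, 22, 7), (70, 8, 22, 7), (51, 12, 22, 5), (80, 14, 22, 9), (77, 8, 22, 9), (64, 10, 22, 6), (74, 16, 22, 7), (87, 13, 22, 12), (88, 15, 22, 12)]⟩

def lv7_24 : Level := ⟨11, [[[], [], [], [], [(0, 1)], [], [(1, 1)]], [[], [], [(1, 1)], [], [], [], []], [[], [], [], [(0, 1)], [], [], [(2, 1)]], [[], [(2, 1)], [], [], [], [], []], [[(1, 1)], [], [], [], [(2, 1)], [(3, 1)], []], [[(2, 1)], [], [], [(1, -1)], [], [(4, 1)], []], [[], [], [], [], [], [], [(5, 1)]], [[], [], [], [], [(5, 1)], [(6, 1)], []], [[], [], [], [(5, 1)], [], [(7, 1)], []], [[(6, 1)], [(3, -1)], [], [], [(7, 1)], [], []], [[(7, 1)], [], [(4, -1)], [(6, -1)], [], [], []]], [4, 6, 20, 33, 40, 48, 54, 61], [(0, 0, 23, 2), (7, 0, 23, 3), (14,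 0, 23, 4), (21, 0, 23, 5), (49, 0, 23, 10), (56, 0, 23, 11), (15, 1, 23, 1), (29, 1, 23, 3), (57, 1, 23, 9), (2, 2, 23, 0), (37, 2, 23, 5), (51, 2, 23, 7), (3, 3, 23, 4), (10, 3, 23, 5), (45, 3, 23, 8), (52, 3, 23, 11), (66, 3, 23, 12), (18, 4, 23, 2), (25, 4, 23, 3), (46, 4, 23, 6), (60, 4, 23, 10), (74, 4, 23, 12), (12, 5, 23, 7), (26, 5, 23, 9), (68, 5, 23, 10), (75, 5, 23, 11), (13, 6, 23, 0), (27, 6, 23, 1), (34, 6, 23, 2), (41, 6, 23, 4), (55, 6, 23, 6), (62, 6, 23, 8), (5, 7, 23, 2), (19, 7, 23, 4), (43, 9, 23, 6), (71, 9, 23, 12), (8, 10, 23, 0), (36, 10, 23, 4), (50, 10, 23, 6), (44, 11, 23, 8), (65, 11, 23, 12), (23, 12, 23, 1), (30, 12, 23, 2), (58, 12, 23, 8), (47, 13, 23, 8), (24, 13, 23, 9), (31, 14, 23, 2), (69, 14, 23, 12), (11, 15, 23, 7), (39, 16, 23, 4), (76, 16, 23, 12), (1, 17, 23, 0), (16, 17, 23, 4), (42, 19, 23, 8),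 (17, 19, 23, 2), (28, 8, 23, 2), (9, 12, 23, 0), (38, 14, 23, 4), (35, 8, 23, 4), (22, 10, 23, 1), (32, 16, 23, 2), (64, 24, 22, 8), (72, 25, 22, 10), (59, 14, 23, 8), (53, 16, 23, 6), (63, 7, 23, 10), (73, 13, 23, 11), (70, 7, 23, 11), (67, 15, 23, 10)]⟩

def lv7_25 : Level := ⟨8, [[[], [], [], [], [], [], [(0, 1)]], [[], [], [], [], [(0, 1)], [(1, 1)], []], [[], [], [], [(0, 1)], [], [(2, 1)], []], [[(1, 1)], [], [(3, 1)], [], [(2, 1)], [], []], [[(2, 1)], [(4, 1)], [], [(1, -1)], [], [], []], [[], [], [], [], [], [(5, 1)], []], [[], [(3, 1)], [(1, -1)], [], [(5, 1)], [], []], [[], [(2, -1)], [(4, -1)], [(5, 1)], [], [], []]], [6, 12, 19, 23, 29, 40], [(7, 0, 24, 4), (14, 0, 24, 5), (42, 0, 24, 9), (49, 0, 24, 10), (15, 1, 24, 3), (22, 1, 24, 9), (9, 2, 24, 1), (30, 2, 24, 10), (3, 3, 24, 2), (10, 3, 24, 5), (38, 3, 24, 8), (45, 3, 24, 10),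 (4, 4, 24, 0), (18, 4, 24, 4), (39, 4, 24, 7), (53, 4, 24, 9), (26, 5, 24, 4), (33, 5, 24, 5), (47, 5, 24, 7), (54, 5, 24, 8), (13, 6, 24, 0), (20, 6, 24, 2), (41, 6, 24, 6), (35, 8, 24, 6), (48, 8, 24, 9), (55, 8, 24, 10), (1, 9, 24, 0), (36, 9, 24, 7), (8, 10, 24, 0), (27, 10, 24, 9), (2, 11, 24, 2), (37, 11, 24, 8), (16, 12, 24, 2), (34, 12, 24, 10), (5, 13, 24, 2), (24, 13, 24, 4), (32, 15, 24, 5), (0, 19, 24, 2), (17, 14, 24, 2), (11, 16, 24, 0), (21, 7, 24, 4), (31, 13, 24, 5), (44, 25, 23, 7), (28, 7, 24, 5), (25, 15, 24, 4), (50, 24, 23, 9), (43, 18, 24, 9), (51, 17, 24, 10), (52, 13, 24, 8), (46, 15, 24, 7)]⟩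

def lv7_26 : Level := ⟨6, [[[], [], [], [], [], [(0, 1)], []], [[], [(1, 1)], [], [], [(0, 1)], [], []], [[], [], [(2, 1)], [(0, 1)], [], [], []], [[(1, 1)], [], [], [], [(3, 1)], [], []], [[(2, 1)], [], [], [(4, 1)], [], [], []], [[], [(3, 1)], [(4, -1)], [], [], [], []]], [5, 8, 16, 25, 31], [(7, 0, 25, 3), (14, 0, 25, 4), (29, 1, 25, 4), (22, 1, 25, 6), (15, 1, 25, 7), (23, 2, 25, 3), (9, 2, 25, 6), (30, 2, 25, 7), (3, 3, 25, 2), (10, 3, 25, 4), (38, 3, 25, 7), (4, 4, 25, 1), (18, 4, 25, 3), (39, 4, 25, 6), (12, 5, 25, 1), (19, 5, 25, 2), (40, 5, 25, 5), (6, 6, 25, 0), (35, 7, 25, 5), (0, 8, 25, 0), (13, 8, 25, 3), (20, 8, 25, 4), (1, 9, 25, 1), (32, 9, 25, 4), (34, 10, 25, 4), (27, 10, 25, 6), (2, 11, 25, 2), (24, 11, 25, 3), (41, 14, 25, 7), (33, 24, 24, 5), (26, 24, 24, 7), (17, 13, 25, 2), (11, 15, 25, 1), (21, 17, 25, 6), (28, 17,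 25, 4), (36, 9, 25, 6), (37, 11, 25, 7)]⟩

def lv7_27 : Level := ⟨5, [[[], [(0, 1)], [(1, 1)], [], [], [], []], [[], [], [], [(2, 1)], [(0, 1)], [], []], [[], [], [], [(1, 1)], [(3, 1)], [], []], [[(2, 1)], [], [(3, -1)], [(0, 1)], [], [], []], [[(3, 1)], [(2, 1)], [], [], [(1, -1)], [], []]], [1, 2, 10, 18], [(7, 0, 26, 3), (14, 0, 26, 4), (8, 1, 26, 1), (22, 1, 26, 5), (16, 2, 26, 2), (30, 2, 26, 5), (3, 3, 26, 2), (31, 3, 26, 4), (4, 4, 26, 1), (25, 4, 26, 3), (5, 5, 26, 0), (0, 7, 26, 0), (12, 7, 26, 3), (19, 7, 26, 4), (13, 8, 26, 3), (20, 8, 26, 4), (27, 10, 26, 5), (34, 12, 26, 5), (33, 13, 26, 4), (6, 14, 26, 2), (26, 15, 26, 3), (15, 17, 26, 2), (9, 17, 26, 3), (11, 9, 26, 1), (24, 22, 25, 7), (17, 11, 26, 2), (32, 23, 25, 6), (21, 20, 26, 3), (29, 22, 25, 4), (28, 19, 26, 4), (23, 23, 25, 3)]⟩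

def lv7_28 : Level := ⟨4, [[[(0, 1)], [], [(1, 1)], [], [], [], []], [[(1, 1)], [(0, -1)], [], [], [], [], []], [[], [], [], [], [(0, 1)], [], []], [[], [], [], [(1, -1)], [], [], []]], [0, 2], [(14, 0, 27, 3), (21, 0, 27, 4), (1, 1, 27, 0), (15, 1, 27, 4), (9, 2, 27, 0), (23, 2, 27, 3), (17, 3, 27, 1), (10, 3, 27, 2), (3, 3, 27, 3), (4, 4, 27, 1), (25, 4, 27, 2), (11, 4, 27, 4), (19, 7, 27, 3), (26, 7, 27, 4), (20, 8, 27, 3), (27, 8, 27, 4), (22, 9, 27, 2), (6, 10, 27, 0), (16, 11, 27, 1), (13, 12, 27, 0), (12, 13, 27, 2), (5, 13, 27, 3), (8, 17, 27, 0), (18, 19, 27, 3), (24, 11, 27, 3), (7, 18, 27, 0)]⟩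

def lv7_29 : Level := ⟨2, [[[], [], [(0, 1)], [], [], [], []], [[], [(0, 1)], [], [], [], [], []]], [2], [(0, 0, 28, 0), (7, 0, 28, 1), (1, 1, 28, 1), (9, 2, 28, 0), (10, 3, 28, 3), (4, 4, 28, 2), (5, 7, 28, 0), (12, 7, 28, 1), (6, 8, 28, 0), (13, 8, 28, 1), (11, 19, 28, 1), (3, 19, 28, 2), (8, 17, 28, 0)]⟩

def lv7_30 : Level := ⟨1, [[[], [], [], [], [], [(0, 1)], []]], [5], [(1, 1, 29, 1), (2, 2, 29, 0), (4, 9, 29, 1), (6, 10, 29, 1), (3, 11, 29, 0), (0, 17, 29, 1)]⟩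

def lv7_31 : Level := ⟨1, [[[], [], [], [], [], [], [(0, 1)]]], [6], [(5, 5, 30, 0), (0, 7, 30, 0), (3, 13, 30, 0), (4, 15, 30, 0), (1, 24, 29, 1), (2, 25, 29, 0)]⟩

def lv7_32 : Level := ⟨1, [[[], [], [], [], [], [], []]], [], [(6, 6, 31, 0), (0, 8, 31, 0), (1, 10, 31, 0), (2, 12, 31, 0), (3, 14, 31, 0), (4, 16, 31, 0), (5, 21, 30, 0)]⟩

def lv7_33 : Level := ⟨0, [], [], []⟩

/-- Levels. -/
def lev7 : List Level := [lv7_0, lv7_1, lv7_2, lv7_3, lv7_4, lv7_5, lv7_6, lv7_7, lv7_8, lv7_9, lv7_10, lv7_11, lv7_12, lv7_13, lv7_14, lv7_15, lv7_16, lv7_17, lv7_18, lv7_19, lv7_20, lv7_21, lv7_22, lv7_23, lv7_24, lv7_25, lv7_26, lv7_27, lv7_28, lv7_29, lv7_30, lv7_31, lv7_32, lv7_33]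

/-- Levels as a function. -/
def D7 (k : ℕ) : Level := lev7.getD k Level.zero

theorem check7 : ((List.range 33).all fun k => checkLevel 7 [0, 1, 2, 3, 4, 5] D7 rels7 k) = true := by
  decide +kernel

end Pool.Agent.Lib.FK640.FinM
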