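import Mathlib

/-!
# Fomin-Kirillov algebras, their subalgebras attached to graphs, and the seven graphs
-/

set_option autoImplicit false

namespace Pool.Agent.Lib.FK640

/-- Ordered pairs of distinct elements of `Fin n`. -/
abbrev Pair (n : ℕ) : Type := {p : Fin n × Fin n // p.1 ≠ p.2}

/-- The free generator attached to the ordered pair `(i, j)`. -/
def gen {n : ℕ} (i j : Fin n) (h : i ≠ j) : FreeAlgebra ℚ (Pair n) :=
  FreeAlgebra.ι ℚ (⟨(i, j), h⟩ : Pair n)

/-- The defining relations of the Fomin-Kirillov algebra. -/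
inductive Rel (n : ℕ) : FreeAlgebra ℚ (Pair n) → FreeAlgebra ℚ (Pair n) → Prop
  | anti (i j : Fin n) (h : i ≠ j) : Rel n (gen j i h.symm) (-gen i j h)
  | sq (i j : Fin n) (h : i ≠ j) : Rel n (gen i j h * gen i j h) 0
  | comm (i j k l : Fin n) (hij : i ≠ j) (hkl : k ≠ l) (hik : i ≠ k) (hil : i ≠ l)
      (hjk : j ≠ k) (hjl : j ≠ l) :
      Rel n (gen i j hij * gen k l hkl) (gen k l hkl * gen i j hij)
  | tri (i j k : Fin n) (hij : i ≠ j) (hjk : j ≠ k) (hki : k ≠ i) :
      Rel n (gen i j hij * gen j k hjk + gen j k hjk * gen k i hki + gen k i hki * gen i j hij) 0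

/-- The Fomin-Kirillov algebra `E_n` over `ℚ`: the free algebra modulo the relations `Rel n`. -/
abbrev FKAlg (n : ℕ) : Type := RingQuot (Rel n)

/-- The generator `x_{ij}` of the Fomin-Kirillov algebra. -/
noncomputable def xgen {n : ℕ} (i j : Fin n) (h : i ≠ j) : FKAlg n :=
  RingQuot.mkAlgHom ℚ (Rel n) (gen i j h)

/-- The subalgebra `E_G` generated by the `x_{ij}` with `ij` an edge of `G`. -/
noncomputable def subE {n : ℕ} (G : SimpleGraph (Fin n)) : Subalgebra ℚ (FKAlg n) :=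
  Algebra.adjoin ℚ {y | ∃ i j, ∃ h : G.Adj i j, y = xgen i j h.ne}

/-- The simple graph on `Fin 6` with a given list of edges. -/
def graphOf (l : List (Fin 6 × Fin 6)) : SimpleGraph (Fin 6) :=
  SimpleGraph.fromRel fun a b => (a, b) ∈ l

/-- The edge lists of the seven graphs `H_1, …, H_7` (vertices `1, …, 6` are `0, …, 5` here;
`H i` below is `H_{i+1}` of the problem). -/
def edgesH : Fin 7 → List (Fin 6 × Fin 6) :=
  ![[(0, 1), (0, 2), (0, 3), (0, 4), (0, 5)],
    [(0, 1), (1, 2), (2, 3), (3, 0), (0, 4), (0, 5)],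
    [(0, 1), (1, 2), (2, 3), (3, 4), (4, 5), (5, 0), (0, 3)],
    [(0, 1), (1, 2), (2, 3), (3, 4), (4, 5), (5, 0), (1, 5), (2, 4)],
    [(0, 1), (1, 2), (2, 3), (3, 4), (4, 0), (5, 0), (5, 2)],
    [(0, 1), (0, 2), (0, 3), (1, 2), (1, 3), (0, 4), (1, 5)],
    [(0, 1), (1, 2), (2, 3), (3, 0), (1, 4), (3, 4), (0, 5)]]

/-- The graph `H_{i+1}`. -/
def H (i : Fin 7) : SimpleGraph (Fin 6) := graphOf (edgesH i)

end Pool.Agent.Lib.FK640
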