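import Pool.Agent.Lib.FK640.Data2
import Pool.Agent.Lib.FK640.Data3
import Pool.Agent.Lib.FK640.Data4
import Pool.Agent.Lib.FK640.Data5
import Pool.Agent.Lib.FK640.Data6
import Pool.Agent.Lib.FK640.Data7
import Pool.Agent.Lib.FK640.Graphs

/-!
# Infinite-dimensionality for the graphs `H_2, …, H_7`
-/

set_option autoImplicit false

namespace Pool.Agent.Lib.FK640

/-- Check that the cycle letters are edges from the list. -/
def okE (D : Cert) (l : List (Fin 6 × Fin 6)) : Bool :=
  D.c.all fun i => l.contains (D.β i) || l.contains ((D.β i).2, (D.β i).1)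

lemma not_finite_of_cert (D : Cert) (h : D.check = true) (hc : D.c ≠ []) (k : Fin 7)
    (hok : okE D (edgesH k) = true) {n : ℕ} (G : SimpleGraph (Fin n))
    (hG : (H k).IsContained G) : ¬ Module.Finite ℚ (EG G) := by
  obtain ⟨f⟩ := hG
  apply D.not_finite h hc f f.injective G
  intro i hi
  apply f.toHom.map_adj
  rw [okE, List.all_eq_true] at hok
  have h1 := hok i hi
  rw [Bool.or_eq_true, List.contains_iff_mem, List.contains_iff_mem] at h1
  have hL : D.checkL = true := by
    simp only [Cert.check, Bool.and_eq_true] at h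
    exact h.1.1.1.1.1.1
  rw [H, graphOf, SimpleGraph.fromRel_adj]
  exact ⟨Cert.β_ne hL i, h1⟩

/-- **Main theorem, `H_2, …, H_7`.** -/
theorem not_finite_H {n : ℕ} (G : SimpleGraph (Fin n)) (k : Fin 7) (hk : k ≠ 0)
    (hG : (H k).IsContained G) : ¬ Module.Finite ℚ (EG G) := by
  fin_cases k
  · exact absurd rfl hk
  · exact not_finite_of_cert d2 d2_check (by decide) 1 (by decide +kernel) G hG
  · exact not_finite_of_cert d3 d3_check (by decide) 2 (by decide +kernel) G hG
  · exact not_finite_of_cert d4 d4_check (by decide) 3 (by decide +kernel) G hG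
  · exact not_finite_of_cert d5 d5_check (by decide) 4 (by decide +kernel) G hG
  · exact not_finite_of_cert d6 d6_check (by decide) 5 (by decide +kernel) G hG
  · exact not_finite_of_cert d7 d7_check (by decide) 6 (by decide +kernel) G hG

end Pool.Agent.Lib.FK640
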