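import Pool.Agent.Lib.FK640.Basic

/-!
# Inner and outer letters: a criterion for words of a Fomin-Kirillov subalgebra to be nonzero
-/

set_option autoImplicit false

namespace Pool.Agent.Lib.FK640

open Finsupp

section Words

variable {n : ℕ} {ι : Type} (β : ι → Fin n × Fin n)

/-- The value in `FK n` of a word. -/
noncomputable def ev (l : List ι) : FK n := (l.map fun b => X (β b)).prod

lemma ev_nil : ev β [] = 1 := rfl

lemma ev_cons (b : ι) (l : List ι) : ev β (b :: l) = X (β b) * ev β l := by
  simp [ev]

lemma ev_append (l m : List ι) : ev β (l ++ m) = ev β l * ev β m := by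
  simp [ev]

/-- Linear extension of `ev`. -/
noncomputable def evF : (List ι →₀ ℚ) →ₗ[ℚ] FK n := Finsupp.linearCombination ℚ (ev β)

lemma evF_single (l : List ι) : evF β (single l 1) = ev β l := by
  simp [evF]

/-- Prepending a letter. -/
noncomputable def consL (b : ι) : (List ι →₀ ℚ) →ₗ[ℚ] (List ι →₀ ℚ) :=
  Finsupp.lmapDomain ℚ ℚ (fun l => b :: l)

lemma consL_single (b : ι) (l : List ι) (c : ℚ) : consL b (single l c) = single (b :: l) c := by
  simp [consL]

lemma evF_consL (b : ι) (r : List ι →₀ ℚ) : evF β (consL b r) = X (β b) * evF β r := by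
  have h : evF β ∘ₗ consL b = LinearMap.mulLeft ℚ (X (β b)) ∘ₗ evF β := by
    apply Finsupp.lhom_ext'
    intro l
    apply LinearMap.ext_ring
    simp [consL_single, evF_single, ev_cons]
  exact LinearMap.congr_fun h r

/-- The skew derivative of a word. -/
noncomputable def Dw : List ι → Fin n × Fin n → (List ι →₀ ℚ)
  | [], _ => 0
  | b :: l, c => dl c (β b) • single l 1 + consL b (Dw l (pm (β b) c))

/-- Linear extension of the skew derivative. -/
noncomputable def Dc (c : Fin n × Fin n) : (List ι →₀ ℚ) →ₗ[ℚ] (List ι →₀ ℚ) :=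
  Finsupp.linearCombination ℚ (fun l => Dw β l c)

lemma Dc_single (c : Fin n × Fin n) (l : List ι) : Dc β c (single l 1) = Dw β l c := by
  simp [Dc]

lemma PsiHom_ev (hβ : ∀ b, (β b).1 ≠ (β b).2) (l : List ι) :
    PsiHom n (ev β l) (1, 0) = (ev β l, fun c => evF β (Dw β l c)) := by
  induction l with
  | nil =>
    simp [ev_nil, Dw]
    rfl
  | cons b l ih =>
    rw [ev_cons, map_mul, Module.End.mul_apply, ih, PsiHom_X _ (hβ b), psi_apply]
    congr 1
    funext c
    simp only [Dw, map_add, map_smul, evF_single, evF_consL]

lemma PsiHom_evF (hβ : ∀ b, (β b).1 ≠ (β b).2) (r : List ι →₀ ℚ) (c : Fin n × Fin n) :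
    (PsiHom n (evF β r) (1, 0)).2 c = evF β (Dc β c r) := by
  induction r using Finsupp.induction_linear with
  | zero => simp
  | add f g hf hg => simp [hf, hg]
  | single l a =>
    have : single l a = a • single l (1 : ℚ) := by simp
    rw [this, map_smul, map_smul, map_smul, map_smul, evF_single, Dc_single]
    simp [PsiHom_ev β hβ]

lemma evF_Dc (hβ : ∀ b, (β b).1 ≠ (β b).2) (r : List ι →₀ ℚ) (hr : evF β r = 0)
    (c : Fin n × Fin n) : evF β (Dc β c r) = 0 := by
  rw [← PsiHom_evF β hβ, hr]
  simp

/-- Combinations of words of length `< m`. -/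
def Lt (ι : Type) (m : ℕ) : Submodule ℚ (List ι →₀ ℚ) :=
  Finsupp.supported ℚ ℚ {l | l.length < m}

lemma Lt_mono {a b : ℕ} (h : a ≤ b) : Lt ι a ≤ Lt ι b :=
  Finsupp.supported_mono fun _ hl => lt_of_lt_of_le hl h

lemma single_mem_Lt {m : ℕ} {l : List ι} (h : l.length < m) (c : ℚ) : single l c ∈ Lt ι m :=
  Finsupp.single_mem_supported ℚ c h

lemma consL_mem {m : ℕ} (b : ι) (r : List ι →₀ ℚ) (h : r ∈ Lt ι m) :
    consL b r ∈ Lt ι (m + 1) := by
  classical
  rw [Lt, Finsupp.mem_supported] at h ⊢
  intro l hl
  have := Finsupp.mapDomain_support hl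
  rw [Finset.mem_image] at this
  obtain ⟨l', hl', rfl⟩ := this
  have h2 : l'.length < m := h hl'
  change (b :: l').length < m + 1
  rw [List.length_cons]
  omega

lemma Dw_mem (l : List ι) : ∀ c, Dw β l c ∈ Lt ι l.length := by
  induction l with
  | nil => intro c; exact Submodule.zero_mem _
  | cons b l ih =>
    intro c
    rw [Dw]
    apply Submodule.add_mem
    · apply Submodule.smul_mem
      exact single_mem_Lt (by simp) _
    · exact consL_mem b _ (ih _)

lemma Dc_mem {m : ℕ} (c : Fin n × Fin n) (r : List ι →₀ ℚ) (h : r ∈ Lt ι (m + 1)) :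
    Dc β c r ∈ Lt ι m := by
  rw [Dc, Finsupp.linearCombination_apply, Finsupp.sum]
  apply Submodule.sum_mem
  intro l hl
  apply Submodule.smul_mem
  have h2 : l.length < m + 1 := (Finsupp.mem_supported ℚ r).1 h hl
  exact Lt_mono (by omega) (Dw_mem β l c)

end Words

/-- The augmentation of `FK n`. -/
noncomputable def aug (n : ℕ) : FK n →ₐ[ℚ] ℚ :=
  liftFK (FreeAlgebra.lift ℚ (fun _ => (0 : ℚ))) (by
    intro a b h
    induction h with
    | anti i j h => simp [gen]
    | sq i j h => simp [gen]
    | comm i j k l hij hkl hik hil hjk hjl => simp [gen]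
    | tri i j k hij hjk hki => simp [gen])

lemma aug_X {n : ℕ} (b : Fin n × Fin n) : aug n (X b) = 0 := by
  obtain ⟨i, j⟩ := b
  by_cases h : i = j
  · subst h; simp [X]
  · rw [X_of_ne h, x, aug, liftFK_toFK, gen, FreeAlgebra.lift_ι_apply]

lemma aug_evF {n : ℕ} {ι : Type} (β : ι → Fin n × Fin n) (r : List ι →₀ ℚ) :
    aug n (evF β r) = r [] := by
  induction r using Finsupp.induction_linear with
  | zero => simp
  | add f g hf hg => simp [hf, hg]
  | single l a =>
    have : single l a = a • single l (1 : ℚ) := by simp
    rw [this, map_smul, map_smul, evF_single]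
    cases l with
    | nil => simp [ev_nil]
    | cons b l => simp [ev_cons, aug_X]

section Act

variable {n : ℕ} {ι α S : Type} (β : ι → Fin n × Fin n)
  (Xo : ι → (S →₀ ℚ) →ₗ[ℚ] (S →₀ ℚ))

/-- The action of a word; its first letter acts first. -/
noncomputable def act : List ι → ((S →₀ ℚ) →ₗ[ℚ] (S →₀ ℚ))
  | [] => LinearMap.id
  | b :: l => act l ∘ₗ Xo b

/-- Linear extension of `act`. -/
noncomputable def actF : (List ι →₀ ℚ) →ₗ[ℚ] ((S →₀ ℚ) →ₗ[ℚ] (S →₀ ℚ)) :=
  Finsupp.linearCombination ℚ (act Xo)

lemma actF_single (l : List ι) : actF Xo (single l 1) = act Xo l := by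
  simp [actF]

lemma actF_consL (b : ι) (r : List ι →₀ ℚ) : actF Xo (consL b r) = actF Xo r ∘ₗ Xo b := by
  induction r using Finsupp.induction_linear with
  | zero => simp
  | add f g hf hg => simp [hf, hg, LinearMap.add_comp]
  | single l a =>
    have : single l a = a • single l (1 : ℚ) := by simp
    rw [this, map_smul, map_smul, map_smul, consL_single, actF_single, actF_single, act,
      LinearMap.smul_comp]

lemma act_append (l m : List ι) (v : S →₀ ℚ) : act Xo (l ++ m) v = act Xo m (act Xo l v) := by
  induction l generalizing v with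
  | nil => rfl
  | cons b l ih => simp [act, ih]

variable (Yo : α → (S →₀ ℚ) →ₗ[ℚ] (S →₀ ℚ)) (g : S → Fin n → Fin n) (pos : α → Fin n × Fin n)

lemma eq_of_agree (A B : (S →₀ ℚ) →ₗ[ℚ] (S →₀ ℚ)) (v : S →₀ ℚ)
    (h : ∀ t, v t ≠ 0 → A (single t 1) = B (single t 1)) : A v = B v := by
  conv_lhs => rw [← Finsupp.sum_single v]
  conv_rhs => rw [← Finsupp.sum_single v]
  rw [Finsupp.sum, map_sum, map_sum]
  apply Finset.sum_congr rfl
  intro t ht
  have h1 : single t (v t) = v t • single t (1 : ℚ) := by simp
  rw [h1, map_smul, map_smul, h t (Finsupp.mem_support_iff.1 ht)]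

/-- Lowering operators and words. -/
lemma lower_act
    (hXg : ∀ b s t, Xo b (single s 1) t ≠ 0 → ∀ v, g t v = Equiv.swap (β b).1 (β b).2 (g s v))
    (inner : ∀ a b s, Yo a (Xo b (single s 1)) = Xo b (Yo a (single s 1)) +
      dl (g s (pos a).1, g s (pos a).2) (β b) • single s 1)
    (a : α) (l : List ι) : ∀ s, Yo a (act Xo l (single s 1)) = act Xo l (Yo a (single s 1)) +
      actF Xo (Dw β l (g s (pos a).1, g s (pos a).2)) (single s 1) := by
  induction l with
  | nil => intro s; simp [act, Dw]
  | cons b l ih =>
    intro s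
    have h1 : (Yo a ∘ₗ act Xo l) (Xo b (single s 1)) = (act Xo l ∘ₗ Yo a +
        actF Xo (Dw β l (pm (β b) (g s (pos a).1, g s (pos a).2)))) (Xo b (single s 1)) := by
      apply eq_of_agree
      intro t ht
      have h2 := hXg b s t ht
      have h3 : pm (β b) (g s (pos a).1, g s (pos a).2) = (g t (pos a).1, g t (pos a).2) := by
        simp [pm, h2]
      rw [h3]
      exact ih t
    have h4 : Yo a (act Xo (b :: l) (single s 1)) = (Yo a ∘ₗ act Xo l) (Xo b (single s 1)) := rfl
    rw [h4, h1]
    simp only [LinearMap.add_apply, LinearMap.comp_apply, inner, map_add, map_smul, act, Dw,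
      actF_consL, actF_single, LinearMap.smul_apply]
    abel

/-- **Key theorem.** Under the duality hypotheses every relation of the Fomin-Kirillov algebra
between words in the letters `β b` acts by zero. -/
theorem key [DecidableEq S] (hβ : ∀ b, (β b).1 ≠ (β b).2)
    (hXg : ∀ b s t, Xo b (single s 1) t ≠ 0 → ∀ v, g t v = Equiv.swap (β b).1 (β b).2 (g s v))
    (inner : ∀ a b s, Yo a (Xo b (single s 1)) = Xo b (Yo a (single s 1)) +
      dl (g s (pos a).1, g s (pos a).2) (β b) • single s 1)
    (K : List α) (s0 s1 : S) (ε : ℚ) (hε : ε * ε = 1)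
    (hK : ∀ s, act Yo K (single s 1) = if s = s0 then ε • single s1 1 else 0)
    (hreach : ∀ V : Submodule ℚ (S →₀ ℚ), single s1 1 ∈ V →
      (∀ a v, v ∈ V → Yo a v ∈ V) → ∀ s, single s 1 ∈ V)
    (d : S) (hd : ∀ b, Xo b (single d 1) = 0)
    (r : List ι →₀ ℚ) (hr : evF β r = 0) : actF Xo r = 0 := by
  have main : ∀ m : ℕ, ∀ r ∈ Lt ι m, evF β r = 0 → actF Xo r = 0 := by
    intro m
    induction m with
    | zero =>
      intro r hr _
      have : r = 0 := by
        apply Finsupp.ext
        intro l
        by_contra h
        have := (Finsupp.mem_supported ℚ r).1 hr (Finsupp.mem_support_iff.2 h)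
        simp at this
      rw [this, map_zero]
    | succ m ih =>
      intro r hrm hr
      set f := actF Xo r with hf
      -- commutation with the lowering operators
      have hcomm1 : ∀ a s, Yo a (f (single s 1)) = f (Yo a (single s 1)) := by
        intro a s
        have h1 : f (Yo a (single s 1)) + actF Xo (Dc β (g s (pos a).1, g s (pos a).2) r)
            (single s 1) = Yo a (f (single s 1)) := by
          rw [hf]
          clear hf f hrm hr
          induction r using Finsupp.induction_linear with
          | zero => simp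
          | add f g hf hg =>
            simp only [map_add, LinearMap.add_apply, ← hf, ← hg]
            abel
          | single l c =>
            have : single l c = c • single l (1 : ℚ) := by simp
            rw [this, map_smul, map_smul, map_smul, actF_single, Dc_single]
            simp only [LinearMap.smul_apply, map_smul]
            rw [lower_act β Xo Yo g pos hXg inner a l s, smul_add]
        rw [ih _ (Dc_mem β _ r hrm) (evF_Dc β hβ r hr _)] at h1
        simpa using h1.symm
      have hcomm : ∀ a v, Yo a (f v) = f (Yo a v) := by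
        intro a v
        exact eq_of_agree (Yo a ∘ₗ f) (f ∘ₗ Yo a) v fun t _ => hcomm1 a t
      have hcommK : ∀ (K : List α) v, act Yo K (f v) = f (act Yo K v) := by
        intro K
        induction K with
        | nil => intro v; rfl
        | cons a K ihK => intro v; simp only [act, LinearMap.comp_apply, hcomm, ihK]
      -- rank one word
      have hKv : ∀ v, act Yo K v = v s0 • (ε • single s1 (1 : ℚ)) := by
        intro v
        have h2 : act Yo K v = ((LinearMap.toSpanSingleton ℚ (S →₀ ℚ)
            (ε • single s1 (1 : ℚ))) ∘ₗ Finsupp.lapply s0) v := by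
          apply eq_of_agree
          intro t _
          rw [hK t]
          simp only [LinearMap.comp_apply, Finsupp.lapply_apply, LinearMap.toSpanSingleton_apply,
            Finsupp.single_apply]
          split_ifs <;> simp
        rw [h2]
        simp
      set lam := f (single s0 1) s0 with hlam
      have h3 : f (single s1 1) = lam • single s1 1 := by
        have h4 : single s1 (1 : ℚ) = ε • act Yo K (single s0 1) := by
          rw [hK s0, if_pos rfl, smul_smul, hε, one_smul]
        rw [h4, map_smul, ← hcommK, hKv, ← h4, ← hlam, smul_comm lam ε, smul_smul, hε, one_smul]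
      have h5 : ∀ s, single s (1 : ℚ) ∈ LinearMap.ker (f - lam • LinearMap.id) := by
        apply hreach
        · simp [LinearMap.mem_ker, h3]
        · intro a v hv
          rw [LinearMap.mem_ker, LinearMap.sub_apply, sub_eq_zero] at hv ⊢
          rw [← hcomm, hv]
          simp
      have h6 : ∀ s, f (single s 1) = lam • single s 1 := by
        intro s
        have := h5 s
        rw [LinearMap.mem_ker, LinearMap.sub_apply, sub_eq_zero] at this
        simpa using this
      have h7 : ∀ r : List ι →₀ ℚ, actF Xo r (single d 1) = r [] • single d 1 := by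
        intro r
        induction r using Finsupp.induction_linear with
        | zero => simp
        | add f g hf hg => simp [hf, hg, add_smul, -Finsupp.smul_single]
        | single l c =>
          have : single l c = c • single l (1 : ℚ) := by simp
          rw [this, map_smul, actF_single]
          cases l with
          | nil => simp [act]
          | cons b l => simp [act, hd]
      have h8 : lam = 0 := by
        have h9 := h6 d
        rw [hf, h7 r, ← aug_evF β r, hr, map_zero, zero_smul] at h9
        have h10 := congrArg (fun v => v d) h9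
        simpa using h10.symm
      apply Finsupp.lhom_ext'
      intro s
      apply LinearMap.ext_ring
      simp [h6, h8]
  have : ∃ m, r ∈ Lt ι m := by
    refine ⟨(r.support.sup fun l => l.length) + 1, ?_⟩
    rw [Lt, Finsupp.mem_supported]
    intro l hl
    change l.length < _
    exact Nat.lt_succ_of_le (Finset.le_sup (f := fun l : List ι => l.length) hl)
  obtain ⟨m, hm⟩ := this
  exact main m r hm hr

end Act

end Pool.Agent.Lib.FK640
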