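import Pool.Agent.Lib.FK640.Inf

/-!
# Star letters and straightening
-/

set_option autoImplicit false

namespace Pool.Agent.Lib.FK640

/-- Functoriality for injections of index sets. -/
noncomputable def mapFK {m n : ℕ} (σ : Fin m → Fin n) (hσ : Function.Injective σ) :
    FK m →ₐ[ℚ] FK n :=
  liftFK (FreeAlgebra.lift ℚ (fun p : Pair m => X (σ p.1.1, σ p.1.2))) (by
    intro a b h
    induction h with
    | anti i j h => simp [gen, X_anti (σ i) (σ j)]
    | sq i j h => simp [gen, X_sq]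
    | comm i j k l hij hkl hik hil hjk hjl =>
      simp only [gen, map_mul, FreeAlgebra.lift_ι_apply]
      exact X_comm _ _ _ _ (hσ.ne hij) (hσ.ne hkl) (hσ.ne hik) (hσ.ne hil) (hσ.ne hjk) (hσ.ne hjl)
    | tri i j k hij hjk hki =>
      simp only [gen, map_mul, map_add, FreeAlgebra.lift_ι_apply, map_zero]
      exact X_tri _ _ _ (hσ.ne hij) (hσ.ne hjk) (hσ.ne hki))

lemma mapFK_X {m n : ℕ} (σ : Fin m → Fin n) (hσ : Function.Injective σ) (b : Fin m × Fin m) :
    mapFK σ hσ (X b) = X (σ b.1, σ b.2) := by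
  obtain ⟨i, j⟩ := b
  by_cases h : i = j
  · subst h; simp [X]
  · conv_lhs => rw [X_of_ne h, x, mapFK, liftFK_toFK, gen, FreeAlgebra.lift_ι_apply]

lemma hom_ext_FK {n : ℕ} {A : Type} [Semiring A] [Algebra ℚ A] (f g : FK n →ₐ[ℚ] A)
    (h : ∀ i j, i ≠ j → f (X (i, j)) = g (X (i, j))) : f = g := by
  have h1 : f.comp (toFK n) = g.comp (toFK n) := by
    apply FreeAlgebra.hom_ext
    funext p
    obtain ⟨⟨i, j⟩, hp⟩ := p
    have h2 := h i j hp
    rw [X_of_ne hp, x, gen] at h2
    exact h2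
  apply AlgHom.ext
  intro y
  obtain ⟨z, rfl⟩ := RingQuot.mkAlgHom_surjective ℚ (Rel n) y
  exact AlgHom.congr_fun h1 z

lemma mapFK_injective {m n : ℕ} (σ : Fin m → Fin n) (hσ : Function.Injective σ) :
    Function.Injective (mapFK σ hσ) := by
  classical
  set τ : Fin n → Option (Fin m) := fun i =>
    if h : ∃ a, σ a = i then some h.choose else none with hτd
  have h1 : ∀ a, τ (σ a) = some a := by
    intro a
    have h : ∃ b, σ b = σ a := ⟨a, rfl⟩
    rw [hτd]
    simp only [h, dif_pos]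
    exact congrArg some (hσ h.choose_spec)
  have h2 : ∀ i j a, τ i = some a → τ j = some a → i = j := by
    intro i j a hi hj
    have h3 : ∀ i, τ i = some a → σ a = i := by
      intro i hi
      rw [hτd] at hi
      by_cases h : ∃ b, σ b = i
      · simp only [h, dif_pos] at hi
        rw [← Option.some.inj hi]
        exact h.choose_spec
      · simp only [h, dif_neg, not_false_eq_true] at hi
        exact absurd hi (by simp)
    rw [← h3 i hi, ← h3 j hj]
  have h4 : (retFK τ h2).comp (mapFK σ hσ) = AlgHom.id ℚ (FK m) := by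
    apply hom_ext_FK
    intro i j hij
    rw [AlgHom.comp_apply, mapFK_X, retFK_X τ h2 (σ i) (σ j) i j (h1 _) (h1 _), AlgHom.id_apply]
  intro y z hyz
  have h5 := congrArg (retFK τ h2) hyz
  rw [← AlgHom.comp_apply, ← AlgHom.comp_apply, h4] at h5
  exact h5

lemma X_mem_EG {n : ℕ} {G : SimpleGraph (Fin n)} {i j : Fin n} (h : G.Adj i j) :
    X (i, j) ∈ EG G := by
  rw [X_of_ne h.ne]
  exact Algebra.subset_adjoin ⟨i, j, h, rfl⟩

/-- Induction principle for membership in `EG G` via a submodule closed under left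
multiplication. -/
lemma EG_le {n : ℕ} (G : SimpleGraph (Fin n)) (P : Submodule ℚ (FK n)) (h1 : (1 : FK n) ∈ P)
    (hX : ∀ i j, G.Adj i j → ∀ y ∈ P, X (i, j) * y ∈ P) : ∀ t ∈ EG G, t ∈ P := by
  have h2 : ∀ t ∈ EG G, ∀ y ∈ P, t * y ∈ P := by
    intro t ht
    induction ht using Algebra.adjoin_induction with
    | mem t ht =>
      obtain ⟨i, j, h, rfl⟩ := ht
      intro y hy
      rw [← X_of_ne h.ne]
      exact hX i j h y hy
    | algebraMap r =>
      intro y hy
      rw [← Algebra.smul_def]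
      exact P.smul_mem r hy
    | add a b _ _ ha hb =>
      intro y hy
      rw [add_mul]
      exact P.add_mem (ha y hy) (hb y hy)
    | mul a b _ _ ha hb =>
      intro y hy
      rw [mul_assoc]
      exact ha _ (hb y hy)
  intro t ht
  have := h2 t ht 1 h1
  rwa [mul_one] at this

lemma finite_of_copy {m n : ℕ} (σ : Fin m → Fin n) (hσ : Function.Injective σ)
    (H : SimpleGraph (Fin m)) (G : SimpleGraph (Fin n))
    (h : ∀ i j, H.Adj i j → G.Adj (σ i) (σ j)) (hG : Module.Finite ℚ (EG G)) :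
    Module.Finite ℚ (EG H) := by
  have h1 : ∀ t ∈ EG H, mapFK σ hσ t ∈ EG G := by
    intro t ht
    have h2 : (EG H).map (mapFK σ hσ) ≤ EG G := by
      rw [EG, AlgHom.map_adjoin]
      apply Algebra.adjoin_le
      rintro _ ⟨_, ⟨i, j, hij, rfl⟩, rfl⟩
      rw [← X_of_ne hij.ne]
      change mapFK σ hσ (X (i, j)) ∈ EG G
      rw [mapFK_X]
      exact X_mem_EG (h i j hij)
    exact h2 ⟨t, ht, rfl⟩
  apply Module.Finite.of_injective
    ((((mapFK σ hσ).comp (EG H).val).codRestrict (EG G) fun y => h1 y.1 y.2).toLinearMap)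
  intro a b hab
  have h3 := congrArg Subtype.val hab
  exact Subtype.ext (mapFK_injective σ hσ h3)

lemma star_swap {n : ℕ} (v i j : Fin n) (hvi : v ≠ i) (hvj : v ≠ j) (hij : i ≠ j) :
    X (v, i) * X (i, j) = X (i, j) * X (v, j) + X (v, j) * X (v, i) := by
  have h := X_tri v i j hvi hij hvj.symm
  rw [X_anti v j] at h
  simp only [mul_neg, neg_mul] at h
  have h2 : X (v, i) * X (i, j) - (X (i, j) * X (v, j) + X (v, j) * X (v, i)) = 0 := by
    rw [← h]; abel
  exact sub_eq_zero.1 h2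

lemma star_swap' {n : ℕ} (v i j : Fin n) (hvi : v ≠ i) (hvj : v ≠ j) (hij : i ≠ j) :
    X (v, j) * X (i, j) = X (i, j) * X (v, i) - X (v, i) * X (v, j) := by
  have h := star_swap v j i hvj hvi hij.symm
  rw [X_anti i j] at h
  simp only [mul_neg, neg_mul] at h
  have h2 : X (v, j) * X (i, j) = -(-(X (v, j) * X (i, j))) := by rw [neg_neg]
  rw [h2, h]
  abel

lemma star_swap'' {n : ℕ} (v i j k : Fin n) (hvi : v ≠ i) (hvj : v ≠ j) (hvk : v ≠ k)
    (hij : i ≠ j) (hki : k ≠ i) (hkj : k ≠ j) :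
    X (v, k) * X (i, j) = X (i, j) * X (v, k) :=
  X_comm v k i j hvk hij hvi hvj hki hkj

/-- The star of a vertex. -/
def starG {n : ℕ} (v : Fin n) : SimpleGraph (Fin n) := SimpleGraph.fromRel fun a _ => a = v

lemma starG_adj {n : ℕ} (v i : Fin n) (h : v ≠ i) : (starG v).Adj v i := by
  rw [starG, SimpleGraph.fromRel_adj]
  exact ⟨h, Or.inl rfl⟩

lemma mul_gen {n : ℕ} (v i j : Fin n) (hvi : v ≠ i) (hvj : v ≠ j) (hij : i ≠ j) :
    ∀ s ∈ EG (starG v), ∃ a ∈ EG (starG v), ∃ b ∈ EG (starG v),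
      s * X (i, j) = X (i, j) * a + b := by
  have hY : ∀ k, v ≠ k → X (v, k) ∈ EG (starG v) := fun k hk => X_mem_EG (starG_adj v k hk)
  have key : ∀ k, v ≠ k → ∃ a ∈ EG (starG v), ∃ b ∈ EG (starG v),
      X (v, k) * X (i, j) = X (i, j) * a + b := by
    intro k hk
    by_cases h1 : k = i
    · subst h1
      exact ⟨_, hY j hvj, _, mul_mem (hY j hvj) (hY k hk), star_swap v k j hk hvj hij⟩
    · by_cases h2 : k = j
      · subst h2
        refine ⟨_, hY i hvi, _, neg_mem (mul_mem (hY i hvi) (hY k hk)), ?_⟩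
        rw [star_swap' v i k hvi hk hij, sub_eq_add_neg]
      · refine ⟨_, hY k hk, 0, zero_mem _, ?_⟩
        rw [star_swap'' v i j k hvi hvj hk hij h1 h2, add_zero]
  intro s hs
  induction hs using Algebra.adjoin_induction with
  | mem t ht =>
    obtain ⟨a, b, h, rfl⟩ := ht
    rw [starG, SimpleGraph.fromRel_adj] at h
    rcases h.2 with rfl | rfl
    · rw [← X_of_ne h.1]
      exact key b h.1
    · rw [← X_of_ne h.1]
      obtain ⟨c, hc, d, hd, e⟩ := key a h.1.symm
      refine ⟨-c, neg_mem hc, -d, neg_mem hd, ?_⟩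
      rw [X_anti b a, neg_mul, e]
      simp only [mul_neg]
      abel
  | algebraMap r =>
    refine ⟨algebraMap ℚ (FK n) r, Subalgebra.algebraMap_mem _ r, 0, zero_mem _, ?_⟩
    rw [add_zero, Algebra.commutes]
  | add s t _ _ hs ht =>
    obtain ⟨a, ha, b, hb, e⟩ := hs
    obtain ⟨c, hc, d, hd, f⟩ := ht
    refine ⟨a + c, add_mem ha hc, b + d, add_mem hb hd, ?_⟩
    rw [add_mul, e, f, mul_add]
    abel
  | mul s t hs' ht' hs ht =>
    obtain ⟨a, ha, b, hb, e⟩ := hs
    obtain ⟨c, hc, d, hd, f⟩ := ht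
    refine ⟨a * c, mul_mem ha hc, b * c + s * d, add_mem (mul_mem hb hc) (mul_mem hs' hd), ?_⟩
    rw [mul_assoc, f, mul_add, ← mul_assoc, e, add_mul, mul_assoc, add_assoc]

/-- Straightening: if `T` has no edge at `v`, then `E_{T ∪ star}` is contained in
`E_T · E_star`, so it is finite-dimensional when `E_T` and `E_star` are. -/
theorem finite_sup_star {n : ℕ} (v : Fin n) (T : SimpleGraph (Fin n))
    (hT : ∀ i j, T.Adj i j → v ≠ i) (h1 : Module.Finite ℚ (EG T))
    (h2 : Module.Finite ℚ (EG (starG v))) (G : SimpleGraph (Fin n))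
    (hG : ∀ i j, G.Adj i j → T.Adj i j ∨ i = v ∨ j = v) : Module.Finite ℚ (EG G) := by
  set Tm : Submodule ℚ (FK n) := Subalgebra.toSubmodule (EG T) with hTm
  set Sm : Submodule ℚ (FK n) := Subalgebra.toSubmodule (EG (starG v)) with hSm
  have hTT : Tm * Tm ≤ Tm := by
    rw [hTm, Submodule.mul_le]
    intro a ha b hb
    exact mul_mem (S := Subalgebra ℚ (FK n)) ha hb
  have hSS : Sm * Sm ≤ Sm := by
    rw [hSm, Submodule.mul_le]
    intro a ha b hb
    exact mul_mem (S := Subalgebra ℚ (FK n)) ha hb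
  have hT1 : (1 : FK n) ∈ Tm := one_mem (EG T)
  have hS1 : (1 : FK n) ∈ Sm := one_mem (EG (starG v))
  have hTP : Tm * (Tm * Sm) ≤ Tm * Sm := by
    rw [← mul_assoc]
    exact mul_le_mul' hTT le_rfl
  have hst : ∀ t ∈ EG T, ∀ s ∈ Sm, s * t ∈ Tm * Sm := by
    intro t ht
    induction ht using Algebra.adjoin_induction with
    | mem t ht =>
      obtain ⟨i, j, h, rfl⟩ := ht
      intro s hs
      obtain ⟨a, ha, b, hb, e⟩ := mul_gen v i j (hT i j h) (hT j i h.symm) h.ne s hs
      rw [← X_of_ne h.ne, e]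
      apply Submodule.add_mem
      · exact Submodule.mul_mem_mul (X_mem_EG h) ha
      · have := Submodule.mul_mem_mul hT1 (show b ∈ Sm from hb)
        rwa [one_mul] at this
    | algebraMap r =>
      intro s hs
      rw [← Algebra.commutes]
      exact Submodule.mul_mem_mul (Subalgebra.algebraMap_mem _ r) hs
    | add a b _ _ ha hb =>
      intro s hs
      rw [mul_add]
      exact Submodule.add_mem _ (ha s hs) (hb s hs)
    | mul a b _ _ ha hb =>
      intro s hs
      rw [← mul_assoc]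
      refine Submodule.mul_induction_on (C := fun y => y * b ∈ Tm * Sm) (ha s hs) ?_ ?_
      · intro m hm k hk
        rw [mul_assoc]
        exact hTP (Submodule.mul_mem_mul hm (hb k hk))
      · intro y z hy hz
        rw [add_mul]
        exact Submodule.add_mem _ hy hz
  have hST : Sm * Tm ≤ Tm * Sm := by
    rw [Submodule.mul_le]
    intro s hs t ht
    exact hst t ht s hs
  have hSP : Sm * (Tm * Sm) ≤ Tm * Sm := by
    rw [← mul_assoc]
    calc Sm * Tm * Sm ≤ Tm * Sm * Sm := mul_le_mul' hST le_rfl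
      _ = Tm * (Sm * Sm) := mul_assoc _ _ _
      _ ≤ Tm * Sm := mul_le_mul' le_rfl hSS
  have hle : ∀ t ∈ EG G, t ∈ Tm * Sm := by
    apply EG_le
    · have := Submodule.mul_mem_mul hT1 hS1
      rwa [one_mul] at this
    · intro i j hij y hy
      rcases hG i j hij with h | rfl | rfl
      · exact hTP (Submodule.mul_mem_mul (X_mem_EG h) hy)
      · exact hSP (Submodule.mul_mem_mul (X_mem_EG (starG_adj i j hij.ne)) hy)
      · have h3 : X (i, j) ∈ EG (starG j) := X_mem_EG (starG_adj j i hij.ne.symm).symm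
        exact hSP (Submodule.mul_mem_mul h3 hy)
  have hfg : (Tm * Sm).FG := by
    apply Submodule.FG.mul
    · exact Module.Finite.iff_fg.1 h1
    · exact Module.Finite.iff_fg.1 h2
  have h4 : Module.Finite ℚ (Tm * Sm : Submodule ℚ (FK n)) := Module.Finite.iff_fg.2 hfg
  have h5 : Subalgebra.toSubmodule (EG G) ≤ Tm * Sm := hle
  exact Submodule.finiteDimensional_of_le h5

end Pool.Agent.Lib.FK640
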