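import Pool.Agent.Lib.FK640.Star
import Pool.Agent.Lib.FK640.InfMain

/-!
# The star with five edges
-/

set_option autoImplicit false

namespace Pool.Agent.Lib.FK640

lemma braid {n : ℕ} (i j k : Fin n) (hij : i ≠ j) (hjk : j ≠ k) (hki : k ≠ i) :
    X (i, j) * X (j, k) * X (i, j) = X (j, k) * X (i, j) * X (j, k) := by
  have h := X_tri i j k hij hjk hki
  have h1 := congrArg (fun y => y * X (i, j)) h
  have h2 := congrArg (fun y => X (j, k) * y) h
  simp only [add_mul, zero_mul, mul_add, mul_zero] at h1 h2
  have e1 : X (k, i) * X (i, j) * X (i, j) = 0 := by rw [mul_assoc, X_sq, mul_zero]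
  have e2 : X (j, k) * (X (j, k) * X (k, i)) = 0 := by rw [← mul_assoc, X_sq, zero_mul]
  rw [e1, add_zero] at h1
  rw [e2, add_zero] at h2
  have h3 : X (i, j) * X (j, k) * X (i, j) + X (j, k) * X (k, i) * X (i, j) =
      X (j, k) * (X (i, j) * X (j, k)) + X (j, k) * (X (k, i) * X (i, j)) := by rw [h1, h2]
  rw [← mul_assoc, ← mul_assoc] at h3
  exact add_right_cancel h3

/-- The path with two edges `ij`, `jk`. -/
def pathG {n : ℕ} (i j k : Fin n) : SimpleGraph (Fin n) :=
  SimpleGraph.fromRel fun a b => (a = i ∧ b = j) ∨ (a = j ∧ b = k)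

lemma finite_path {n : ℕ} (i j k : Fin n) (hij : i ≠ j) (hjk : j ≠ k) (hki : k ≠ i) :
    Module.Finite ℚ (EG (pathG i j k)) := by
  set p : FK n := X (i, j) with hp
  set q : FK n := X (j, k) with hq
  have hb : p * q * p = q * p * q := braid i j k hij hjk hki
  have hpp : p * p = 0 := X_sq _
  have hqq : q * q = 0 := X_sq _
  set N : Submodule ℚ (FK n) := Submodule.span ℚ {1, p, q, p * q, q * p, p * q * p} with hN
  have hm : ∀ y ∈ ({1, p, q, p * q, q * p, p * q * p} : Set (FK n)), y ∈ N :=
    fun y hy => Submodule.subset_span hy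
  have hpN : N ≤ N.comap (LinearMap.mulLeft ℚ p) := by
    rw [hN, Submodule.span_le]
    intro y hy
    simp only [Set.mem_insert_iff, Set.mem_singleton_iff] at hy
    rw [SetLike.mem_coe, Submodule.mem_comap, LinearMap.mulLeft_apply, ← hN]
    rcases hy with rfl | rfl | rfl | rfl | rfl | rfl
    · rw [mul_one]; exact hm _ (by simp)
    · rw [hpp]; exact N.zero_mem
    · exact hm _ (by simp)
    · rw [← mul_assoc, hpp, zero_mul]; exact N.zero_mem
    · rw [← mul_assoc]; exact hm _ (by simp)
    · rw [← mul_assoc, ← mul_assoc, hpp, zero_mul, zero_mul]; exact N.zero_mem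
  have hqN : N ≤ N.comap (LinearMap.mulLeft ℚ q) := by
    rw [hN, Submodule.span_le]
    intro y hy
    simp only [Set.mem_insert_iff, Set.mem_singleton_iff] at hy
    rw [SetLike.mem_coe, Submodule.mem_comap, LinearMap.mulLeft_apply, ← hN]
    rcases hy with rfl | rfl | rfl | rfl | rfl | rfl
    · rw [mul_one]; exact hm _ (by simp)
    · exact hm _ (by simp)
    · rw [hqq]; exact N.zero_mem
    · rw [← mul_assoc, ← hb]; exact hm _ (by simp)
    · rw [← mul_assoc, hqq, zero_mul]; exact N.zero_mem
    · rw [← mul_assoc, ← mul_assoc, ← hb, mul_assoc, hpp, mul_zero]; exact N.zero_mem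
  have hle : Subalgebra.toSubmodule (EG (pathG i j k)) ≤ N := by
    apply EG_le
    · exact hm _ (by simp)
    · intro a b hab y hy
      rw [pathG, SimpleGraph.fromRel_adj] at hab
      have h1 : p * y ∈ N := hpN hy
      have h2 : q * y ∈ N := hqN hy
      rcases hab.2 with (⟨rfl, rfl⟩ | ⟨rfl, rfl⟩) | (⟨rfl, rfl⟩ | ⟨rfl, rfl⟩)
      · exact h1
      · exact h2
      · rw [X_anti b a, neg_mul]; exact N.neg_mem h1
      · rw [X_anti b a, neg_mul]; exact N.neg_mem h2
  have hfin : Module.Finite ℚ N := by
    rw [hN]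
    exact FiniteDimensional.span_of_finite ℚ (Set.toFinite _)
  exact Submodule.finiteDimensional_of_le hle

/-- The star with five edges gives an infinite-dimensional algebra. -/
theorem not_finite_H1 : ¬ Module.Finite ℚ (EG (H 0)) := by
  intro h
  have h1 : H 0 = starG 0 := by
    ext a b
    simp only [H, graphOf, starG, SimpleGraph.fromRel_adj]
    revert a b
    decide +kernel
  rw [h1] at h
  have h2 : Module.Finite ℚ (EG (H 1)) := by
    apply finite_sup_star 0 (pathG 1 2 3) _ (finite_path 1 2 3 (by decide) (by decide) (by decide))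
      h
    · intro i j hij
      simp only [H, graphOf, SimpleGraph.fromRel_adj] at hij
      simp only [pathG, SimpleGraph.fromRel_adj]
      revert i j
      decide +kernel
    · intro i j hij
      simp only [pathG, SimpleGraph.fromRel_adj] at hij
      revert i j
      decide +kernel
  exact not_finite_H (H 1) 1 (by decide) (SimpleGraph.IsContained.refl _) h2

/-- **Main theorem, infinite side.** -/
theorem not_finite_all {n : ℕ} (G : SimpleGraph (Fin n)) (k : Fin 7)
    (hG : (H k).IsContained G) : ¬ Module.Finite ℚ (EG G) := by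
  by_cases hk : k = 0
  · subst hk
    obtain ⟨f⟩ := hG
    intro h
    exact not_finite_H1 (finite_of_copy f f.injective (H 0) G (fun i j hij => f.toHom.map_adj hij) h)
  · exact not_finite_H G k hk hG

end Pool.Agent.Lib.FK640
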